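import Pool.Agent.Lib.MP_44a246_ntNU.Defs

set_option autoImplicit false

open NumberField IsDedekindDomain MvPolynomial

namespace Pool.Agent.Lib.MP_44a246_ntNW

universe u

open Pool.Agent.Lib.MP_44a246_ntNU

/-- The truncated counting function over `E` of the divisor `∑ j, {G j = 0}`, `G j` a form of
degree `d j` over `K`: the sum of `log N(w)` over the primes `w` of `E` which are not above `S`,
such that `|G_j(x)|_w < |a|_w |x_i|_w ^ (d j)` for some `j`, `i` and some coefficient `a` of
`G_j`. -/
noncomputable def trCount {K E : Type*} [Field K] [NumberField K] [Field E] [NumberField E]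
    [Algebra K E] {m q : ℕ} (S : Set (HeightOneSpectrum (𝓞 K)))
    (G : Fin q → MvPolynomial (Fin (m + 1)) K) (d : Fin q → ℕ) (x : Fin (m + 1) → E) : ℝ :=
  ∑ᶠ (w : HeightOneSpectrum (𝓞 E)) (_ : w ∉ above K E S ∧ ∃ j i μ,
    FinitePlace.mk w (aeval x (G j)) <
      FinitePlace.mk w (algebraMap K E ((G j).coeff μ)) * FinitePlace.mk w (x i) ^ d j),
    Real.log (Ideal.absNorm w.asIdeal : ℝ)

/-- The closed subset `{f = 0, Φ = 0}` of projective space has dimension less than `n`: the
coordinates of its points, over any extension field, have transcendence degree less than `n`. -/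
def SmallLocus (K : Type u) [Field K] {m t : ℕ} (n : ℕ) (f : Fin t → MvPolynomial (Fin (m + 1)) K)
    (Φ : MvPolynomial (Fin (m + 1)) K) : Prop :=
  ∀ (L : Type u) [Field L] [Algebra K L] (x : Fin (m + 1) → L), (∀ l, aeval x (f l) = 0) →
    aeval x Φ = 0 → ∀ (a : Fin n → Fin (m + 1)) (b : Fin (m + 1)), x b ≠ 0 →
      ¬ AlgebraicIndependent K (fun i => x (a i) / x b)

end Pool.Agent.Lib.MP_44a246_ntNW
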