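import Pool.Agent.Lib.MP_44a246_ntNF.Tools
import Pool.Agent.Lib.MP_44a246_ntNF.Count
import Pool.Agent.Lib.MP_44a246_ntNU.Defs
import Pool.Agent.Lib.MP_44a246_ntNW.Defs

set_option autoImplicit false

open NumberField IsDedekindDomain Height MvPolynomial
open Pool.Agent.Lib.MP_4d5ce1_nt (fa nv ordv)
open Pool.Agent.Lib.MP_44a246_ntNF
open Pool.Agent.Lib.MP_44a246_ntNU

namespace Pool.Agent.Lib.MP_44a246_ntNW

universe u

/-- The primes outside `S'` with pattern `I`. -/
noncomputable def RP {E : Type*} [Field E] [NumberField E] {q : ℕ}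
    (pt : HeightOneSpectrum (𝓞 E) → Finset (Fin q)) (S' : Finset (HeightOneSpectrum (𝓞 E)))
    (I : Finset (Fin q)) : Finset (HeightOneSpectrum (𝓞 E)) := by
  classical
  exact if h : {w : HeightOneSpectrum (𝓞 E) | w ∉ S' ∧ pt w = I}.Finite then h.toFinset else ∅

section Arith

variable {K : Type u} [Field K] [NumberField K] {m : ℕ}

/-- All the coefficients of `p` are `S`-units (or zero). -/
def IntS (S : Finset (HeightOneSpectrum (𝓞 K))) (p : MvPolynomial (Fin (m + 1)) K) : Prop :=
  ∀ v ∉ S, ∀ μ, p.coeff μ ≠ 0 → fa v (p.coeff μ) = 1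

/-- The forms which vanish at `x` modulo `w`. -/
noncomputable def PT {E : Type u} [Field E] [NumberField E] [Algebra K E] {q : ℕ}
    (G : Fin q → MvPolynomial (Fin (m + 1)) K) (d : Fin q → ℕ) (x : Fin (m + 1) → E)
    (w : HeightOneSpectrum (𝓞 E)) : Finset (Fin q) := by
  classical
  exact Finset.univ.filter (fun j => fa w (aeval x (G j)) < sz w x ^ d j)

end Arith

end Pool.Agent.Lib.MP_44a246_ntNW
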