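import Pool.Agent.Lib.MP_44a246_ntNF.NF7
import Pool.Agent.Lib.MP_44a246_ntNW.Tools

set_option autoImplicit false

open NumberField IsDedekindDomain Height MvPolynomial
open Pool.Agent.Lib.MP_4d5ce1_nt (fa nv ordv)
open Pool.Agent.Lib.MP_44a246_ntNF
open Pool.Agent.Lib.MP_44a246_ntNU

namespace Pool.Agent.Lib.MP_44a246_ntNW

universe u

/-- WC1 : `exists_order` for `q ≥ n + 1` -/
theorem exists_order' (n q : ℕ) (hq : n + 1 ≤ q) (w : Finset (Fin q) → ℝ) (hw : ∀ I, 0 ≤ w I)
    (hw0 : ∀ I, n < I.card → w I = 0) :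
    ∃ J : Fin (n + 1) → Fin q, Function.Injective J ∧ ∀ T : Finset (Finset (Fin q)),
      (∀ I ∈ T, Charged J I) → ∑ I ∈ T, w I ≤
        ∑ I ∈ (Finset.univ : Finset (Finset (Fin q))).filter (fun I => I.Nonempty),
          (1 - (((q + I.card - n - 2).choose I.card : ℕ) : ℝ) /
          ((q.choose I.card : ℕ) : ℝ)) * w I := by
  classical
  rcases Nat.lt_or_ge (n + 1) q with h | h
  · obtain ⟨J, hJ, hT⟩ := exists_order n q h w hw hw0
    refine ⟨J, hJ, fun T h1 => (hT T h1).trans (le_of_eq ?_)⟩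
    rw [Finset.sum_filter]
    refine Finset.sum_congr rfl fun I _ => ?_
    split_ifs with hI
    · rw [show q - n - 2 + I.card = q + I.card - n - 2 by omega]
    · rw [Finset.not_nonempty_iff_eq_empty] at hI
      subst hI
      simp
  · have hqn : q = n + 1 := le_antisymm h hq
    subst hqn
    refine ⟨id, Function.injective_id, fun T h1 => ?_⟩
    have h2 : ∑ I ∈ (Finset.univ : Finset (Finset (Fin (n + 1)))).filter (fun I => I.Nonempty),
          (1 - (((n + 1 + I.card - n - 2).choose I.card : ℕ) : ℝ) /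
          (((n + 1).choose I.card : ℕ) : ℝ)) * w I =
        ∑ I ∈ (Finset.univ : Finset (Finset (Fin (n + 1)))).filter (fun I => I.Nonempty),
          w I := by
      refine Finset.sum_congr rfl fun I hI => ?_
      have hI1 : 0 < I.card := Finset.card_pos.2 (Finset.mem_filter.1 hI).2
      rw [Nat.choose_eq_zero_of_lt (show n + 1 + I.card - n - 2 < I.card by omega)]
      simp
    rw [h2]
    refine Finset.sum_le_sum_of_subset_of_nonneg (fun I hI => ?_) (fun I _ _ => hw I)
    obtain ⟨k, -, hk⟩ := h1 I hI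
    exact Finset.mem_filter.2 ⟨Finset.mem_univ _, ⟨_, hk⟩⟩

end Pool.Agent.Lib.MP_44a246_ntNW
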