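import Pool.Agent.Lib.MP_44a246_ntNW.Tools
import Pool.Agent.Lib.MP_44a246_ntNU.NU2
import Pool.Agent.Lib.MP_44a246_ntNW.WC1

set_option autoImplicit false

open NumberField IsDedekindDomain Height
open Pool.Agent.Lib.MP_4d5ce1_nt (fa nv ordv)
open Pool.Agent.Lib.MP_44a246_ntNF
open Pool.Agent.Lib.MP_44a246_ntNU

namespace Pool.Agent.Lib.MP_44a246_ntNW

universe u

/-- WC3 : the counting engine -/
theorem engine (d n q : ℕ) (hq : n + 1 ≤ q) (α β : ℝ) (hα : 0 ≤ α) (hβ : 0 ≤ β)
    (hs : ∀ s : ℕ, 1 ≤ s → s ≤ n → 1 - (((q + s - n - 2).choose s : ℕ) : ℝ) /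
      ((q.choose s : ℕ) : ℝ) ≤ α + β * s) (η : ℝ) (hη : 0 < η) : ∃ C : ℝ, 0 < C ∧
    ∀ (E : Type u) [Field E] [NumberField E], Module.finrank ℚ E ≤ d →
      ∀ (Pt : Type u) (X : Finset Pt)
        (R : Pt → Finset (Fin q) → Finset (HeightOneSpectrum (𝓞 E))) (M H A : ℝ),
      1 ≤ M → 1 ≤ H → 0 ≤ A →
      (∀ x ∈ X, ∀ I : Finset (Fin q), n < I.card → R x I = ∅) →
      (∀ x ∈ X, ∑ I ∈ (Finset.univ : Finset (Finset (Fin q))).filter (fun I => I.Nonempty),
        Real.log (NN (R x I)) ≤ Real.log M) →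
      (∀ x ∈ X, ∑ I ∈ (Finset.univ : Finset (Finset (Fin q))).filter (fun I => I.Nonempty),
        (I.card : ℝ) * Real.log (NN (R x I)) ≤ Real.log H) →
      (∀ J : Fin (n + 1) → Fin q, Function.Injective J → ∀ G ⊆ X,
        (∀ x ∈ G, ∀ y ∈ G, ∀ I, Charged J I → R x I = R y I) → (G.card : ℝ) ≤ A) →
      (X.card : ℝ) ≤ C * (M ^ α * H ^ β) ^ (1 + η) * A := by
  classical
  obtain ⟨C1, hC1, hfam⟩ := card_families_u.{u} d (Finset (Fin q)) η hη
  refine ⟨(q : ℝ) ^ (n + 1) * C1 + 1, by positivity, ?_⟩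
  intro E _ _ hdE Pt X R M H A hM hH hA hR0 hR1 hR2 hG
  have hfamE := hfam E hdE
  have hM0 : 0 < M := by linarith
  have hH0 : 0 < H := by linarith
  -- the weights
  set w : Pt → Finset (Fin q) → ℝ := fun x I => Real.log (NN (R x I)) with hw
  have hwn : ∀ x I, 0 ≤ w x I := fun x I => Real.log_nonneg (one_le_NN _)
  have hw0 : ∀ x ∈ X, ∀ I, n < I.card → w x I = 0 := by
    intro x hx I hI
    simp only [hw, hR0 x hx I hI, NN, Finset.prod_empty, Real.log_one]
  have horder : ∀ x, ∃ J : Fin (n + 1) → Fin q, Function.Injective J ∧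
      (x ∈ X → ∀ T : Finset (Finset (Fin q)), (∀ I ∈ T, Charged J I) → ∑ I ∈ T, w x I ≤
        ∑ I ∈ (Finset.univ : Finset (Finset (Fin q))).filter (fun I => I.Nonempty),
          (1 - (((q + I.card - n - 2).choose I.card : ℕ) : ℝ) /
          ((q.choose I.card : ℕ) : ℝ)) * w x I) := by
    intro x
    by_cases hx : x ∈ X
    · obtain ⟨J, h1, h2⟩ := exists_order' n q hq (w x) (hwn x) (hw0 x hx)
      exact ⟨J, h1, fun _ => h2⟩
    · exact ⟨Fin.castLE hq, Fin.castLE_injective hq, fun h => absurd h hx⟩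
  choose J hJinj hJ using horder
  set R' : Pt → Finset (Fin q) → Finset (HeightOneSpectrum (𝓞 E)) :=
    fun x I => if Charged (J x) I then R x I else ∅ with hR'
  -- cost
  set Y : ℝ := M ^ α * H ^ β with hY
  have hMα : 1 ≤ M ^ α := Real.one_le_rpow hM hα
  have hHβ : 1 ≤ H ^ β := Real.one_le_rpow hH hβ
  have hY1 : 1 ≤ Y := by
    rw [hY]
    nlinarith
  have hcost : ∀ x ∈ X, ∏ I, NN (R' x I) ≤ Y := by
    intro x hx
    have e1 : ∏ I, NN (R' x I) = Real.exp (∑ I ∈ Finset.univ.filter (fun I => Charged (J x) I),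
        w x I) := by
      rw [Real.exp_sum, Finset.prod_filter]
      apply Finset.prod_congr rfl
      intro I _
      simp only [hR', hw]
      split_ifs with hI
      · rw [Real.exp_log (NN_pos _)]
      · simp [NN]
    rw [e1]
    have e2 := hJ x hx (Finset.univ.filter (fun I => Charged (J x) I)) (by
      intro I hI
      exact (Finset.mem_filter.mp hI).2)
    have e3 : ∑ I ∈ (Finset.univ : Finset (Finset (Fin q))).filter (fun I => I.Nonempty),
        (1 - (((q + I.card - n - 2).choose I.card : ℕ) : ℝ) /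
          ((q.choose I.card : ℕ) : ℝ)) * w x I ≤
        ∑ I ∈ (Finset.univ : Finset (Finset (Fin q))).filter (fun I => I.Nonempty),
          (α + β * I.card) * w x I := by
      apply Finset.sum_le_sum
      intro I hI
      have hI' := (Finset.mem_filter.mp hI).2
      rcases Nat.lt_or_ge n I.card with h1 | h1
      · rw [hw0 x hx I h1]; simp
      · exact mul_le_mul_of_nonneg_right (hs I.card (Finset.card_pos.mpr hI') h1) (hwn x I)
    have e4 : ∑ I ∈ (Finset.univ : Finset (Finset (Fin q))).filter (fun I => I.Nonempty),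
          (α + β * I.card) * w x I ≤ α * Real.log M + β * Real.log H := by
      have f1 : ∀ I : Finset (Fin q), (α + β * I.card) * w x I =
          α * w x I + β * ((I.card : ℝ) * w x I) := fun I => by ring
      rw [Finset.sum_congr rfl (fun I _ => f1 I), Finset.sum_add_distrib, ← Finset.mul_sum,
        ← Finset.mul_sum]
      apply add_le_add
      · exact mul_le_mul_of_nonneg_left (hR1 x hx) hα
      · exact mul_le_mul_of_nonneg_left (hR2 x hx) hβ
    calc Real.exp _ ≤ Real.exp (α * Real.log M + β * Real.log H) :=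
          Real.exp_le_exp.mpr (e2.trans (e3.trans e4))
      _ = Y := by
          rw [hY, Real.rpow_def_of_pos hM0, Real.rpow_def_of_pos hH0, ← Real.exp_add]
          congr 1
          ring
  -- the codes
  set code : Pt → (Fin (n + 1) → Fin q) ×
      (Finset (Fin q) → Finset (HeightOneSpectrum (𝓞 E))) := fun x => (J x, R' x) with hcode
  have hfib : ∀ z ∈ X.image code, ((X.filter (fun x => code x = z)).card : ℝ) ≤ A := by
    intro z hz
    rw [Finset.mem_image] at hz
    obtain ⟨x0, hx0, hz0⟩ := hz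
    refine hG (J x0) (hJinj x0) _ (Finset.filter_subset _ _) ?_
    intro x hx y hy I hI
    rw [Finset.mem_filter] at hx hy
    have hx2 : code x = code x0 := hx.2.trans hz0.symm
    have hy2 : code y = code x0 := hy.2.trans hz0.symm
    simp only [hcode, Prod.mk.injEq] at hx2 hy2
    have a1 := congrFun hx2.2 I
    have a2 := congrFun hy2.2 I
    simp only [hR', hx2.1, hy2.1, if_pos hI] at a1 a2
    rw [a1, a2]
  have hcard1 : (X.card : ℝ) ≤ ((X.image code).card : ℝ) * A := by
    have h1 : X.card = ∑ z ∈ X.image code, (X.filter (fun x => code x = z)).card :=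
      Finset.card_eq_sum_card_image code X
    rw [h1, Nat.cast_sum, ← nsmul_eq_mul]
    exact Finset.sum_le_card_nsmul _ _ _ hfib
  have hcard2 : ((X.image code).card : ℝ) ≤ (q : ℝ) ^ (n + 1) * (C1 * Y ^ (1 + η)) := by
    have h1 : X.image code ⊆ (Finset.univ : Finset (Fin (n + 1) → Fin q)) ×ˢ (X.image R') := by
      intro z hz
      rw [Finset.mem_image] at hz
      obtain ⟨x, hx, rfl⟩ := hz
      rw [Finset.mem_product]
      exact ⟨Finset.mem_univ _, Finset.mem_image_of_mem _ hx⟩
    have h2 := Finset.card_le_card h1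
    rw [Finset.card_product, Finset.card_univ, Fintype.card_fun, Fintype.card_fin,
      Fintype.card_fin] at h2
    have h3 := hfamE Y hY1 (X.image R') (by
      intro r hr
      rw [Finset.mem_image] at hr
      obtain ⟨x, hx, rfl⟩ := hr
      exact hcost x hx)
    calc ((X.image code).card : ℝ) ≤ ((q ^ (n + 1) * (X.image R').card : ℕ) : ℝ) := by
          exact_mod_cast h2
      _ = (q : ℝ) ^ (n + 1) * ((X.image R').card : ℝ) := by push_cast; ring
      _ ≤ _ := mul_le_mul_of_nonneg_left h3 (by positivity)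
  refine hcard1.trans ((mul_le_mul_of_nonneg_right hcard2 hA).trans ?_)
  have hYη : 0 ≤ Y ^ (1 + η) := Real.rpow_nonneg (by linarith) _
  calc (q : ℝ) ^ (n + 1) * (C1 * Y ^ (1 + η)) * A
      = ((q : ℝ) ^ (n + 1) * C1) * Y ^ (1 + η) * A := by ring
    _ ≤ ((q : ℝ) ^ (n + 1) * C1 + 1) * Y ^ (1 + η) * A := by
        apply mul_le_mul_of_nonneg_right _ hA
        apply mul_le_mul_of_nonneg_right _ hYη
        linarith

end Pool.Agent.Lib.MP_44a246_ntNW
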