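import Pool.Agent.Lib.MP_44a246_ntNW.Tools
import Pool.Agent.Lib.MP_44a246_ntNU.Total

set_option autoImplicit false

open NumberField IsDedekindDomain Height
open Pool.Agent.Lib.MP_4d5ce1_nt (fa nv ordv)
open Pool.Agent.Lib.MP_44a246_ntNF
open Pool.Agent.Lib.MP_44a246_ntNU

namespace Pool.Agent.Lib.MP_44a246_ntNW

universe u

variable {K : Type u} [Field K] [NumberField K] {m : ℕ}

/-- Convergence of the sum over the extensions of degree at most `r`. -/
def FieldSum (K : Type u) [Field K] [NumberField K] (r : ℕ) (a : ℝ) : Prop :=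
  ∀ η : ℝ, 0 < η → ∃ C : ℝ, 0 < C ∧
    ∀ Fs : Finset (IntermediateField K (AlgebraicClosure K)),
      (∀ F ∈ Fs, NumberField F ∧ Module.finrank K F ≤ r) →
      ∑ F ∈ Fs, dN K F ^ (-(a + η)) ≤ C

/-- A bound for the number of points, for all extensions of degree at most `r`. -/
def CountHyp (A : ∀ (E : Type u) [Field E] [NumberField E] [Algebra K E],
      Projectivization E (Fin (m + 1) → E) → Prop)
    (Nf : ∀ (E : Type u) [Field E] [NumberField E] [Algebra K E],
      Projectivization E (Fin (m + 1) → E) → ℝ) (α σ : ℝ) (r : ℕ) : Prop :=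
  ∀ η : ℝ, 0 < η → ∃ C : ℝ, 0 < C ∧ ∀ (E : Type u) [Field E] [NumberField E] [Algebra K E],
      Module.finrank K E ≤ r → ∀ B M : ℝ, 1 ≤ B → 1 ≤ M →
      ∀ X : Finset (Projectivization E (Fin (m + 1) → E)),
      (∀ P ∈ X, A E P ∧ P.mulHeight ≤ B ∧ Nf E P ≤ Real.log M) →
      (X.card : ℝ) ≤ C * M ^ α * B ^ σ * (B * M) ^ η

variable {A : ∀ (E : Type u) [Field E] [NumberField E] [Algebra K E],
      Projectivization E (Fin (m + 1) → E) → Prop}
    {Nf : ∀ (E : Type u) [Field E] [NumberField E] [Algebra K E],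
      Projectivization E (Fin (m + 1) → E) → ℝ}

/-- With the discriminant. -/
theorem disc_gen (hN0 : ∀ (E : Type u) [Field E] [NumberField E] [Algebra K E]
      (P : Projectivization E (Fin (m + 1) → E)), 0 ≤ Nf E P)
    (α σ ρ : ℝ) (hα : 0 ≤ α) (hσ : 0 ≤ σ) (hρ : 0 ≤ ρ) (r : ℕ)
    (hcount : CountHyp A Nf α σ r) (c η : ℝ) (hη : 0 < η) :
    ∃ C : ℝ, 0 < C ∧ ∀ (E : Type u) [Field E] [NumberField E] [Algebra K E],
      Module.finrank K E ≤ r → ∀ B : ℝ, 1 ≤ B →
      ∀ X : Finset (Projectivization E (Fin (m + 1) → E)),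
      (∀ P ∈ X, A E P ∧
        P.mulHeight ≤ B ∧ Nf E P +
          Real.log (discNorm K E) ≤ ρ * P.logHeight + c) →
      (X.card : ℝ) ≤ C * B ^ (α * ρ + σ + η) * discNorm K E ^ (-α) ∧
        (X.Nonempty → discNorm K E ≤ C * B ^ ρ) := by
  classical
  set η' : ℝ := η / (ρ + 1) with hη'
  have hη'p : 0 < η' := by positivity
  obtain ⟨C, hC, h⟩ := hcount η' hη'p
  set A : ℝ := Real.exp |c| with hA
  have hA1 : 1 ≤ A := Real.one_le_exp (abs_nonneg c)
  refine ⟨C * Real.exp (c * α) * A ^ η' + A, by positivity, ?_⟩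
  intro E _ _ _ hE B hB X hX
  have hB0 : 0 < B := by linarith
  have hlB : 0 ≤ Real.log B := Real.log_nonneg hB
  have hD1 : 1 ≤ discNorm K E := (one_le_discNorm K E).1
  have hD0 : 0 < discNorm K E := by linarith
  rcases X.eq_empty_or_nonempty with hXe | hXn
  · subst hXe
    refine ⟨?_, fun h => (Finset.not_nonempty_empty h).elim⟩
    rw [Finset.card_empty, Nat.cast_zero]
    positivity
  obtain ⟨P₀, hP₀⟩ := hXn
  set M : ℝ := Real.exp c * B ^ ρ / discNorm K E with hM
  have hM0 : 0 < M := by positivity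
  have hlM : Real.log M = ρ * Real.log B + c - Real.log (discNorm K E) := by
    rw [hM, Real.log_div (by positivity) hD0.ne', Real.log_mul (Real.exp_pos c).ne' (by positivity),
      Real.log_exp, Real.log_rpow hB0]
    ring
  have hN : ∀ P ∈ X, Nf E P ≤ Real.log M := by
    intro P hP
    obtain ⟨_, a3, a4⟩ := hX P hP
    have h5 : P.logHeight ≤ Real.log B := by
      rw [Projectivization.logHeight_eq_log_mulHeight]
      exact Real.log_le_log P.mulHeight_pos a3
    have h6 := mul_le_mul_of_nonneg_left h5 hρ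
    rw [hlM]
    linarith
  have hM1 : 1 ≤ M := by
    have h1 := hN P₀ hP₀
    have h2 := hN0 E P₀
    have h3 : 0 ≤ Real.log M := h2.trans h1
    by_contra hlt
    rw [not_le] at hlt
    have := Real.log_neg hM0 hlt
    linarith
  have hcA : Real.exp c ≤ A := Real.exp_le_exp.mpr (le_abs_self c)
  have hBρ : 1 ≤ B ^ ρ := Real.one_le_rpow hB hρ
  constructor
  · have h1 := h E hE B M hB hM1 X (fun P hP => by
      obtain ⟨a1, a3, _⟩ := hX P hP
      exact ⟨a1, a3, hN P hP⟩)
    refine h1.trans ?_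
    have e1 : M ^ α = Real.exp (c * α) * B ^ (α * ρ) * discNorm K E ^ (-α) := by
      rw [hM, Real.div_rpow (by positivity) hD0.le, Real.mul_rpow (Real.exp_pos c).le (by positivity),
        ← Real.rpow_mul hB0.le, Real.rpow_neg hD0.le, ← Real.exp_mul, mul_comm ρ α]
      rfl
    have e2 : (B * M) ^ η' ≤ A ^ η' * B ^ η := by
      have f1 : B * M ≤ A * B ^ (ρ + 1) := by
        rw [Real.rpow_add hB0, Real.rpow_one, hM]
        have f2 : Real.exp c * B ^ ρ / discNorm K E ≤ Real.exp c * B ^ ρ :=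
          div_le_self (by positivity) hD1
        have f3 : Real.exp c * B ^ ρ ≤ A * B ^ ρ := mul_le_mul_of_nonneg_right hcA (by linarith)
        calc B * (Real.exp c * B ^ ρ / discNorm K E) ≤ B * (A * B ^ ρ) :=
              mul_le_mul_of_nonneg_left (f2.trans f3) hB0.le
          _ = A * (B ^ ρ * B) := by ring
      calc (B * M) ^ η' ≤ (A * B ^ (ρ + 1)) ^ η' :=
            Real.rpow_le_rpow (by positivity) f1 hη'p.le
        _ = A ^ η' * B ^ η := by
            rw [Real.mul_rpow (by linarith) (by positivity), ← Real.rpow_mul hB0.le]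
            congr 2
            rw [hη']
            field_simp
    rw [e1]
    have e3 : B ^ (α * ρ + σ + η) = B ^ (α * ρ) * B ^ (σ) * B ^ η := by
      rw [Real.rpow_add hB0, Real.rpow_add hB0]
    rw [e3]
    have hDα : 0 < discNorm K E ^ (-α) := Real.rpow_pos_of_pos hD0 _
    calc C * (Real.exp (c * α) * B ^ (α * ρ) * discNorm K E ^ (-α)) * B ^ (σ) * (B * M) ^ η'
        ≤ C * (Real.exp (c * α) * B ^ (α * ρ) * discNorm K E ^ (-α)) * B ^ (σ) *
          (A ^ η' * B ^ η) := mul_le_mul_of_nonneg_left e2 (by positivity)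
      _ = (C * Real.exp (c * α) * A ^ η') * (B ^ (α * ρ) * B ^ (σ) * B ^ η) *
          discNorm K E ^ (-α) := by ring
      _ ≤ (C * Real.exp (c * α) * A ^ η' + A) * (B ^ (α * ρ) * B ^ (σ) * B ^ η) *
          discNorm K E ^ (-α) := by
          apply mul_le_mul_of_nonneg_right _ hDα.le
          apply mul_le_mul_of_nonneg_right _ (by positivity)
          linarith
  · intro _
    have h1 : discNorm K E ≤ Real.exp c * B ^ ρ := by
      rw [hM, one_le_div hD0] at hM1
      exact hM1
    refine h1.trans ?_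
    apply mul_le_mul_of_nonneg_right _ (by linarith)
    have : 0 ≤ C * Real.exp (c * α) * A ^ η' := by positivity
    linarith

/-- The condition on a pair `(F, P)`. -/
def ViolG (A : ∀ (E : Type u) [Field E] [NumberField E] [Algebra K E],
      Projectivization E (Fin (m + 1) → E) → Prop)
    (Nf : ∀ (E : Type u) [Field E] [NumberField E] [Algebra K E],
      Projectivization E (Fin (m + 1) → E) → ℝ) (r : ℕ)
    (ρ c B : ℝ) (s : Σ F : IntermediateField K (AlgebraicClosure K),
      Projectivization F (Fin (m + 1) → F)) : Prop :=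
  ∃ _ : NumberField s.1, Module.finrank K s.1 ≤ r ∧ A s.1 s.2 ∧ s.2.mulHeight ≤ B ∧
    Nf s.1 s.2 + Real.log (discNorm K s.1) ≤ ρ * s.2.logHeight + c

open Classical in
/-- One field. -/
theorem field_gen (hN0 : ∀ (E : Type u) [Field E] [NumberField E] [Algebra K E]
      (P : Projectivization E (Fin (m + 1) → E)), 0 ≤ Nf E P)
    (α σ ρ : ℝ) (hα : 0 ≤ α) (hσ : 0 ≤ σ) (hρ : 0 ≤ ρ) (r : ℕ)
    (hcount : CountHyp A Nf α σ r) (c η : ℝ) (hη : 0 < η) :
    ∃ C : ℝ, 0 < C ∧ ∀ B : ℝ, 1 ≤ B →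
      ∀ X : Finset (Σ F : IntermediateField K (AlgebraicClosure K),
        Projectivization F (Fin (m + 1) → F)), (∀ s ∈ X, ViolG A Nf r ρ c B s) →
      ∀ F : IntermediateField K (AlgebraicClosure K),
        (((X.filter (fun s : (Σ F : IntermediateField K (AlgebraicClosure K),
          Projectivization F (Fin (m + 1) → F)) => s.1 = F)).card : ℕ) : ℝ) ≤
          C * B ^ (α * ρ + σ + η) * dN K F ^ (-α) ∧
        ((X.filter (fun s : (Σ F : IntermediateField K (AlgebraicClosure K),
          Projectivization F (Fin (m + 1) → F)) => s.1 = F)).Nonempty → dN K F ≤ C * B ^ ρ) := by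
  classical
  obtain ⟨C, hC, h⟩ := disc_gen hN0 α σ ρ hα hσ hρ r hcount c η hη
  refine ⟨C, hC, ?_⟩
  intro B hB X hX F
  have hB0 : 0 < B := by linarith
  rcases (X.filter (fun s : (Σ F : IntermediateField K (AlgebraicClosure K),
          Projectivization F (Fin (m + 1) → F)) => s.1 = F)).eq_empty_or_nonempty with hXe | hXn
  · rw [hXe]
    refine ⟨?_, fun h => (Finset.not_nonempty_empty h).elim⟩
    have := one_le_dN K F
    rw [Finset.card_empty, Nat.cast_zero]
    positivity
  obtain ⟨s₀, hs₀⟩ := hXn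
  rw [Finset.mem_filter] at hs₀
  have hNF : NumberField F := by
    obtain ⟨h1, _⟩ := hX s₀ hs₀.1
    rw [← hs₀.2]
    exact h1
  have hfin : Module.finrank K F ≤ r := by
    obtain ⟨_, h2, _⟩ := hX s₀ hs₀.1
    rw [← hs₀.2]
    exact h2
  -- the points over `F`
  have hinj : Function.Injective (fun P : Projectivization F (Fin (m + 1) → F) =>
      (⟨F, P⟩ : Σ F : IntermediateField K (AlgebraicClosure K),
        Projectivization F (Fin (m + 1) → F))) := fun P Q h => by
    simpa using h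
  set XF : Finset (Projectivization F (Fin (m + 1) → F)) :=
    X.preimage (fun P => (⟨F, P⟩ : Σ F : IntermediateField K (AlgebraicClosure K),
        Projectivization F (Fin (m + 1) → F))) hinj.injOn with hXF
  have himg : XF.image (fun P => (⟨F, P⟩ : Σ F : IntermediateField K (AlgebraicClosure K),
        Projectivization F (Fin (m + 1) → F))) = X.filter (fun s : (Σ F : IntermediateField K (AlgebraicClosure K),
          Projectivization F (Fin (m + 1) → F)) => s.1 = F) := by
    ext s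
    rw [Finset.mem_image, Finset.mem_filter]
    constructor
    · rintro ⟨P, hP, rfl⟩
      rw [hXF, Finset.mem_preimage] at hP
      exact ⟨hP, rfl⟩
    · rintro ⟨h1, h2⟩
      obtain ⟨F', P'⟩ := s
      simp only at h2
      subst h2
      exact ⟨P', by rw [hXF, Finset.mem_preimage]; exact h1, rfl⟩
  have hcard : (X.filter (fun s : (Σ F : IntermediateField K (AlgebraicClosure K),
          Projectivization F (Fin (m + 1) → F)) => s.1 = F)).card = XF.card := by
    rw [← himg, Finset.card_image_of_injective _ hinj]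
  have key := h F hfin B hB XF (by
    intro P hP
    rw [hXF, Finset.mem_preimage] at hP
    obtain ⟨h1, _, h3, h5, h6⟩ := hX _ hP
    exact ⟨h3, h5, h6⟩)
  rw [hcard, dN_eq K F]
  refine ⟨key.1, fun _ => key.2 ?_⟩
  rw [← Finset.card_pos, ← hcard, Finset.card_pos]
  exact ⟨s₀, Finset.mem_filter.mpr hs₀⟩

/-- All fields. -/
theorem total_gen (hN0 : ∀ (E : Type u) [Field E] [NumberField E] [Algebra K E]
      (P : Projectivization E (Fin (m + 1) → E)), 0 ≤ Nf E P)
    (α σ ρ : ℝ) (hα : 0 ≤ α) (hσ : 0 ≤ σ) (hρ : 0 ≤ ρ) (r : ℕ)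
    (hcount : CountHyp A Nf α σ r) (a : ℝ) (hFS : FieldSum K r a) (c η : ℝ) (hη : 0 < η) :
    ∃ C : ℝ, 0 < C ∧ ∀ B : ℝ, 1 ≤ B →
      ∀ X : Finset (Σ F : IntermediateField K (AlgebraicClosure K),
        Projectivization F (Fin (m + 1) → F)), (∀ s ∈ X, ViolG A Nf r ρ c B s) →
        (X.card : ℝ) ≤ C * B ^ (α * ρ + σ +
          ρ * max 0 (a - α) + η) := by
  classical
  set e : ℝ := max 0 (a - α) with he
  have he0 : 0 ≤ e := le_max_left _ _
  have hea : a - α ≤ e := le_max_right _ _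
  set η2 : ℝ := η / (2 * (ρ + 1)) with hη2
  have hη2p : 0 < η2 := by positivity
  obtain ⟨C1, hC1, h1⟩ := field_gen hN0 α σ ρ hα hσ hρ r hcount c (η / 2) (by positivity)
  obtain ⟨C2, hC2, h2⟩ := hFS η2 hη2p
  refine ⟨C1 * C1 ^ (e + η2) * C2, by positivity, ?_⟩
  intro B hB X hX
  have hB0 : 0 < B := by linarith
  set Fs : Finset (IntermediateField K (AlgebraicClosure K)) := X.image Sigma.fst with hFs
  have hcard : (X.card : ℝ) = ∑ F ∈ Fs, (((X.filter (fun s : (Σ F : IntermediateField K (AlgebraicClosure K),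
          Projectivization F (Fin (m + 1) → F)) => s.1 = F)).card : ℕ) : ℝ) := by
    rw [hFs, Finset.card_eq_sum_card_image Sigma.fst X, Nat.cast_sum]
  have hne : ∀ F ∈ Fs, (X.filter (fun s : (Σ F : IntermediateField K (AlgebraicClosure K),
          Projectivization F (Fin (m + 1) → F)) => s.1 = F)).Nonempty := by
    intro F hF
    rw [hFs, Finset.mem_image] at hF
    obtain ⟨s, hs1, hs2⟩ := hF
    exact ⟨s, Finset.mem_filter.mpr ⟨hs1, hs2⟩⟩
  have hsum := h2 Fs (by
    intro F hF
    obtain ⟨s, hs1⟩ := hne F hF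
    rw [Finset.mem_filter] at hs1
    obtain ⟨g1, g2, _⟩ := hX s hs1.1
    rw [← hs1.2]
    exact ⟨g1, g2⟩)
  rw [hcard]
  have hterm : ∀ F ∈ Fs, (((X.filter (fun s : (Σ F : IntermediateField K (AlgebraicClosure K),
          Projectivization F (Fin (m + 1) → F)) => s.1 = F)).card : ℕ) : ℝ) ≤
      C1 * B ^ (α * ρ + σ + η / 2) * (C1 * B ^ ρ) ^ (e + η2) * dN K F ^ (-(a + η2)) := by
    intro F hF
    obtain ⟨k1, k2⟩ := h1 B hB X hX F
    have k3 := k2 (hne F hF)
    have hD1 := one_le_dN K F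
    have hD0 : 0 < dN K F := by linarith
    refine k1.trans ?_
    rw [mul_assoc (C1 * B ^ (α * ρ + σ + η / 2))]
    apply mul_le_mul_of_nonneg_left _ (by positivity)
    calc dN K F ^ (-α) = dN K F ^ (a - α + η2) * dN K F ^ (-(a + η2)) := by
          rw [← Real.rpow_add hD0]
          congr 1
          ring
      _ ≤ dN K F ^ (e + η2) * dN K F ^ (-(a + η2)) := by
          apply mul_le_mul_of_nonneg_right _ (Real.rpow_nonneg hD0.le _)
          exact Real.rpow_le_rpow_of_exponent_le hD1 (by linarith)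
      _ ≤ (C1 * B ^ ρ) ^ (e + η2) * dN K F ^ (-(a + η2)) := by
          apply mul_le_mul_of_nonneg_right _ (Real.rpow_nonneg hD0.le _)
          exact Real.rpow_le_rpow hD0.le k3 (by linarith)
  refine (Finset.sum_le_sum hterm).trans ?_
  rw [← Finset.mul_sum]
  have e1 : (C1 * B ^ ρ) ^ (e + η2) = C1 ^ (e + η2) * B ^ (ρ * e + ρ * η2) := by
    rw [Real.mul_rpow hC1.le (by positivity), ← Real.rpow_mul hB0.le]
    congr 2
    ring
  rw [e1]
  have e2 : B ^ (α * ρ + σ + η / 2) * B ^ (ρ * e + ρ * η2) ≤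
      B ^ (α * ρ + σ + ρ * e + η) := by
    rw [← Real.rpow_add hB0]
    apply Real.rpow_le_rpow_of_exponent_le hB
    have : ρ * η2 ≤ η / 2 := by
      rw [hη2, mul_div_assoc', div_le_div_iff₀ (by positivity) (by norm_num)]
      nlinarith
    linarith
  calc C1 * B ^ (α * ρ + σ + η / 2) * (C1 ^ (e + η2) * B ^ (ρ * e + ρ * η2)) *
        ∑ F ∈ Fs, dN K F ^ (-(a + η2))
      ≤ C1 * B ^ (α * ρ + σ + η / 2) * (C1 ^ (e + η2) * B ^ (ρ * e + ρ * η2)) * C2 := by
        apply mul_le_mul_of_nonneg_left hsum (by positivity)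
    _ = C1 * C1 ^ (e + η2) * C2 * (B ^ (α * ρ + σ + η / 2) * B ^ (ρ * e + ρ * η2)) := by
        ring
    _ ≤ C1 * C1 ^ (e + η2) * C2 * B ^ (α * ρ + σ + ρ * e + η) :=
        mul_le_mul_of_nonneg_left e2 (by positivity)


end Pool.Agent.Lib.MP_44a246_ntNW
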