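import Pool.Agent.Lib.MP_44a246_ntNW.WA3

set_option autoImplicit false

open MvPolynomial

namespace Pool.Agent.Lib.MP_44a246_ntNW

universe u

section Algebra

variable {K : Type u} [Field K] {m t : ℕ}

/-- linear algebra and counting: more vectors than generators -/
private lemma exists_coeffs_WA4 {V : Type*} [AddCommGroup V] [Module K V] {N' L T : ℕ}
    {ι : Type*} [Fintype ι] (hT : T = (N' + 1) * L) (hL : L = Fintype.card ι * (N' + 1) ^ N')
    (v : (Fin (N' + 1) → Fin (L + 1)) → V) (G : ι × (Fin N' → Fin (T + 1)) → V)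
    (hv : ∀ c, v c ∈ Submodule.span K (Set.range G)) :
    ∃ a : (Fin (N' + 1) → Fin (L + 1)) → K, ∑ c, a c • v c = 0 ∧ ∃ c, a c ≠ 0 := by
  classical
  rw [← Fintype.not_linearIndependent_iff]
  intro hli
  have h1 := linearIndependent_le_span_aux' v hli (Set.range G) (by
    rintro _ ⟨c, rfl⟩
    exact hv c)
  have h2 : Fintype.card (Set.range G) ≤ Fintype.card (ι × (Fin N' → Fin (T + 1))) :=
    Fintype.card_range_le G
  have h3 : (L + 1) ^ (N' + 1) ≤ Fintype.card ι * (T + 1) ^ N' := by
    have := h1.trans h2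
    simpa using this
  have h4 : (T + 1) ^ N' ≤ ((N' + 1) * (L + 1)) ^ N' := by
    apply Nat.pow_le_pow_left
    rw [hT]
    nlinarith
  have h5 : Fintype.card ι * (T + 1) ^ N' ≤ L * (L + 1) ^ N' := by
    calc Fintype.card ι * (T + 1) ^ N' ≤ Fintype.card ι * ((N' + 1) * (L + 1)) ^ N' :=
          Nat.mul_le_mul_left _ h4
      _ = (Fintype.card ι * (N' + 1) ^ N') * (L + 1) ^ N' := by rw [mul_pow]; ring
      _ = L * (L + 1) ^ N' := by rw [← hL]
  have h6 : (L + 1) ^ (N' + 1) ≤ L * (L + 1) ^ N' := h3.trans h5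
  have h7 : 0 < (L + 1) ^ N' := by positivity
  rw [pow_succ] at h6
  nlinarith

/-- the generators of WA3, parametrised -/
private noncomputable def gen_WA4 {N' T M : ℕ} (D : ℕ)
    (g : Fin (N' + 1) → MvPolynomial (Fin (m + 1)) K)
    (p : {μ : Fin (m + 1) →₀ ℕ // μ.degree < M} × (Fin N' → Fin (T + 1))) :
    MvPolynomial (Fin (m + 1)) K :=
  monomial p.1.1 1 * ((∏ i : Fin N', g (Fin.castSucc i) ^ (p.2 i).val) *
    g (Fin.last N') ^ ((D * T - p.1.1.degree) / D - ∑ i : Fin N', (p.2 i).val))

private lemma gens_subset_WA4 {N' T M D : ℕ} (hD : 1 ≤ D)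
    (g : Fin (N' + 1) → MvPolynomial (Fin (m + 1)) K) :
    {c : MvPolynomial (Fin (m + 1)) K | ∃ (μ : Fin (m + 1) →₀ ℕ)
        (γ : Fin (N' + 1) →₀ ℕ), μ.degree < M ∧ μ.degree + D * γ.degree = D * T ∧
          c = monomial μ 1 * γ.prod (fun i k => g i ^ k)} ⊆
      Set.range (gen_WA4 (T := T) (M := M) D g) := by
  rintro c ⟨μ, γ, hμ, hdeg, rfl⟩
  have hγT : γ.degree ≤ T := by
    by_contra hcon
    push Not at hcon
    have : D * T < D * γ.degree := Nat.mul_lt_mul_of_pos_left hcon hD
    omega
  have hle : ∀ i : Fin (N' + 1), γ i ≤ γ.degree := fun i => Finsupp.le_degree i γ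
  have hsum : γ.degree = ∑ i : Fin N', γ (Fin.castSucc i) + γ (Fin.last N') := by
    rw [Finsupp.degree_eq_sum, Fin.sum_univ_castSucc]
  have hq : (D * T - μ.degree) / D = γ.degree := by
    have : D * T - μ.degree = D * γ.degree := by omega
    rw [this, Nat.mul_div_cancel_left _ (by omega)]
  refine ⟨(⟨μ, hμ⟩, fun i => ⟨γ (Fin.castSucc i), by
    have := hle (Fin.castSucc i); omega⟩), ?_⟩
  unfold gen_WA4
  simp only
  congr 1
  rw [Finsupp.prod_fintype _ _ (fun i => pow_zero _), Fin.prod_univ_castSucc, hq, hsum]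
  congr 2
  omega

private lemma finite_degree_lt_WA4 (M : ℕ) : Finite {μ : Fin (m + 1) →₀ ℕ // μ.degree < M} := by
  have : Set.Finite {μ : Fin (m + 1) →₀ ℕ | μ.degree < M} := by
    refine (Set.finite_Iic (Finsupp.equivFunOnFinite.symm (fun _ : Fin (m + 1) => M))).subset ?_
    intro μ hμ
    rw [Set.mem_Iic]
    intro i
    have h1 := Finsupp.le_degree i μ
    simp only [Set.mem_ofPred_eq] at hμ
    simp
    omega
  exact this.to_subtype

/-- WA4 : algebraic relations on a section -/
theorem exists_relation {n q : ℕ} (f : Fin t → MvPolynomial (Fin (m + 1)) K) (e : Fin t → ℕ)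
    (hf : ∀ l, (f l).IsHomogeneous (e l)) {D : ℕ} (hD : 1 ≤ D)
    (g : Fin q → MvPolynomial (Fin (m + 1)) K) (hg : ∀ i, (g i).IsHomogeneous D)
    (h : ∀ J : Fin (n + 1) → Fin q, Function.Injective J →
      ∀ x : Fin (m + 1) → AlgebraicClosure K, (∀ l, aeval x (f l) = 0) →
        (∀ i, aeval x (g (J i)) = 0) → x = 0)
    (J : Fin (n + 1) → Fin q) (hJ : Function.Injective J) (I : Finset (Fin q)) (hI : I.Nonempty)
    (hIn : I.card ≤ n) (hIJ : ∀ i : Fin (n + 1), i.val + I.card ≤ n + 1 → J i ∉ I) :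
    ∃ (T : ℕ) (Ψ : MvPolynomial (Fin (n + 1)) K), Ψ ≠ 0 ∧ Ψ.IsHomogeneous T ∧
      (∀ i ∈ Ψ.vars, i.val + I.card ≤ n + 1) ∧
      aeval (fun i => g (J i)) Ψ ∈ Ideal.span (Set.range f ∪ g '' (I : Set (Fin q))) := by
  classical
  obtain ⟨s, hs⟩ : ∃ s, I.card = s := ⟨_, rfl⟩
  have hs1 : 1 ≤ s := by rw [← hs]; exact hI.card_pos
  rw [hs] at hIn
  obtain ⟨N', rfl⟩ := Nat.exists_eq_add_of_le' hIn
  -- the two families
  set f' : Fin (t + s) → MvPolynomial (Fin (m + 1)) K :=
    Fin.append f (fun j : Fin s => g (I.orderEmbOfFin hs j)) with hf'def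
  set e' : Fin (t + s) → ℕ := Fin.append e (fun _ => D) with he'def
  let em : Fin (N' + 1) → Fin (N' + s + 1) := fun i => ⟨i.val, by omega⟩
  set g' : Fin (N' + 1) → MvPolynomial (Fin (m + 1)) K := fun i => g (J (em i)) with hg'def
  have hf' : ∀ l, (f' l).IsHomogeneous (e' l) := by
    intro l
    refine Fin.addCases (fun i => ?_) (fun i => ?_) l
    · simp only [hf'def, he'def, Fin.append_left]
      exact hf i
    · simp only [hf'def, he'def, Fin.append_right]
      exact hg _
  have hrange : Ideal.span (Set.range f') = Ideal.span (Set.range f ∪ g '' (I : Set (Fin q))) := by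
    congr 1
    ext p
    constructor
    · rintro ⟨l, rfl⟩
      refine Fin.addCases (fun i => ?_) (fun i => ?_) l
      · left
        simp only [hf'def, Fin.append_left]
        exact ⟨i, rfl⟩
      · right
        simp only [hf'def, Fin.append_right]
        exact ⟨_, I.orderEmbOfFin_mem hs i, rfl⟩
    · rintro (⟨l, rfl⟩ | ⟨j, hj, rfl⟩)
      · exact ⟨Fin.castAdd s l, by simp [hf'def]⟩
      · have hj' : j ∈ Set.range (I.orderEmbOfFin hs) := by
          rw [Finset.range_orderEmbOfFin]; exact hj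
        obtain ⟨i, hi⟩ := hj'
        exact ⟨Fin.natAdd t i, by simp [hf'def, hi]⟩
  have h' : ∀ x : Fin (m + 1) → AlgebraicClosure K, (∀ l, aeval x (f' l) = 0) →
      (∀ i, aeval x (g' i) = 0) → x = 0 := by
    intro x hx1 hx2
    have hcast : N' + s + 1 = N' + 1 + s := by omega
    let J0 : Fin (N' + 1 + s) → Fin q :=
      Fin.append (fun i : Fin (N' + 1) => J (em i)) (I.orderEmbOfFin hs)
    have hJ0 : Function.Injective J0 := by
      rw [Fin.append_injective_iff]
      refine ⟨?_, (I.orderEmbOfFin hs).injective, ?_⟩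
      · intro a b hab
        have := hJ hab
        simp only [em, Fin.mk.injEq] at this
        exact Fin.ext this
      · intro i j hij
        have h1 := hIJ (em i) (by simp only [em]; omega)
        apply h1
        rw [hij]
        exact I.orderEmbOfFin_mem hs j
    refine h (J0 ∘ Fin.cast hcast) (hJ0.comp (Fin.cast_injective hcast)) x ?_ ?_
    · intro l
      have := hx1 (Fin.castAdd s l)
      simpa [hf'def] using this
    · intro i
      obtain ⟨j, hj⟩ : ∃ j, Fin.cast hcast i = j := ⟨_, rfl⟩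
      simp only [Function.comp_apply, hj]
      clear hj
      refine Fin.addCases (fun i => ?_) (fun i => ?_) j
      · have := hx2 i
        simpa [J0, hg'def] using this
      · have := hx1 (Fin.natAdd t i)
        simpa [J0, hf'def] using this
  obtain ⟨M, hM⟩ := hilbert_span f' e' hf' hD g' (fun i => hg _) h'
  have : Finite {μ : Fin (m + 1) →₀ ℕ // μ.degree < M} := finite_degree_lt_WA4 M
  have : Fintype {μ : Fin (m + 1) →₀ ℕ // μ.degree < M} := Fintype.ofFinite _
  obtain ⟨L, hL⟩ : ∃ L, L = Fintype.card {μ : Fin (m + 1) →₀ ℕ // μ.degree < M} *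
      (N' + 1) ^ N' := ⟨_, rfl⟩
  obtain ⟨T, hT⟩ : ∃ T, T = (N' + 1) * L := ⟨_, rfl⟩
  -- exponents
  let la : Fin (N' + s + 1) := ⟨N' + 1, by omega⟩
  let δ : (Fin (N' + 1) → Fin (L + 1)) → (Fin (N' + s + 1) →₀ ℕ) := fun c =>
    ∑ j, Finsupp.single (em j) (c j).val + Finsupp.single la (T - ∑ j, (c j).val)
  have hsumle : ∀ c : Fin (N' + 1) → Fin (L + 1), ∑ j, (c j).val ≤ T := by
    intro c
    calc ∑ j, (c j).val ≤ ∑ _j : Fin (N' + 1), L := Finset.sum_le_sum (fun j _ => by
          have := (c j).isLt; omega)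
      _ = T := by simp [hT]
  have hdeg : ∀ c, (δ c).degree = T := by
    intro c
    have := hsumle c
    simp only [δ, map_add, map_sum, Finsupp.degree_single]
    omega
  have hemla : ∀ j, em j ≠ la := by
    intro j hj
    have := congrArg Fin.val hj
    simp only [em, la] at this
    have := j.isLt
    omega
  have heminj : Function.Injective em := by
    intro a b hab
    simp only [em, Fin.mk.injEq] at hab
    exact Fin.ext hab
  have hδem : ∀ c j, (δ c) (em j) = (c j).val := by
    intro c j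
    simp only [δ, Finsupp.add_apply, Finsupp.finsetSum_apply]
    rw [Finsupp.single_eq_of_ne (hemla j), add_zero, Finset.sum_eq_single j]
    · simp
    · intro b _ hb
      exact Finsupp.single_eq_of_ne (fun hh => hb (heminj hh.symm))
    · simp
  have hδinj : Function.Injective δ := by
    intro c c' hcc
    funext j
    apply Fin.ext
    rw [← hδem c j, ← hδem c' j, hcc]
  have hδ0 : ∀ c i, (δ c) i ≠ 0 → i.val + s ≤ N' + s + 1 := by
    intro c i hi
    by_contra hcon
    apply hi
    simp only [δ, Finsupp.add_apply, Finsupp.finsetSum_apply]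
    have h1 : i ≠ la := by
      intro hh
      apply hcon
      rw [hh]
      simp only [la]
      omega
    rw [Finsupp.single_eq_of_ne h1, add_zero]
    apply Finset.sum_eq_zero
    intro j _
    apply Finsupp.single_eq_of_ne
    intro hh
    apply hcon
    rw [hh]
    simp only [em]
    have := j.isLt
    omega
  let a0 : (Fin (N' + 1) → Fin (L + 1)) → MvPolynomial (Fin (m + 1)) K := fun c =>
    aeval (fun i => g (J i)) (monomial (δ c) (1 : K))
  let Q : Submodule K (MvPolynomial (Fin (m + 1)) K) :=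
    (Ideal.span (Set.range f')).restrictScalars K
  have ha0 : ∀ c, (a0 c).IsHomogeneous (D * T) := by
    intro c
    exact IsHomogeneous.aeval (isHomogeneous_monomial _ (hdeg c)) _ (fun i => hg _)
  obtain ⟨a, ha, c0, hc0⟩ := exists_coeffs_WA4 (K := K) hT hL (fun c => Q.mkQ (a0 c))
    (fun p => Q.mkQ (gen_WA4 (T := T) (M := M) D g' p)) (by
      intro c
      obtain ⟨b, hb, hab⟩ := hM (D * T) (a0 c) (ha0 c)
      have h1 : Q.mkQ (a0 c) = Q.mkQ b := by
        rw [← sub_eq_zero, ← map_sub]
        simp only [Submodule.mkQ_apply]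
        rw [Submodule.Quotient.mk_eq_zero]
        exact hab
      rw [h1]
      have h2 : b ∈ Submodule.span K (Set.range (gen_WA4 (T := T) (M := M) D g')) :=
        Submodule.span_mono (gens_subset_WA4 hD g') hb
      have h3 : Q.mkQ b ∈ (Submodule.span K (Set.range
          (gen_WA4 (T := T) (M := M) D g'))).map Q.mkQ := Submodule.mem_map_of_mem h2
      rw [Submodule.map_span, ← Set.range_comp] at h3
      exact h3)
  refine ⟨T, ∑ c, monomial (δ c) (a c), ?_, ?_, ?_, ?_⟩
  · intro h0
    apply hc0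
    have h1 := congrArg (coeff (δ c0)) h0
    rw [coeff_sum, coeff_zero, Finset.sum_eq_single c0] at h1
    · simpa using h1
    · intro b _ hb
      rw [coeff_monomial, if_neg (fun hh => hb (hδinj hh))]
    · simp
  · apply IsHomogeneous.sum
    intro c _
    exact isHomogeneous_monomial _ (hdeg c)
  · intro i hi
    rw [hs]
    obtain ⟨c, -, hc⟩ := Finset.mem_biUnion.1 (vars_sum_subset _ _ hi)
    have hac : a c ≠ 0 := by
      intro hh
      rw [hh] at hc
      simp at hc
    rw [vars_monomial hac, Finsupp.mem_support_iff] at hc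
    exact hδ0 c i hc
  · rw [← hrange]
    have h1 : Q.mkQ (aeval (fun i => g (J i)) (∑ c, monomial (δ c) (a c))) = 0 := by
      rw [map_sum, map_sum, ← ha]
      refine Finset.sum_congr rfl (fun c _ => ?_)
      rw [← map_smul]
      congr 1
      simp only [a0]
      rw [← map_smul, smul_monomial, smul_eq_mul, mul_one]
    simp only [Submodule.mkQ_apply] at h1
    rw [Submodule.Quotient.mk_eq_zero] at h1
    exact h1

end Algebra

end Pool.Agent.Lib.MP_44a246_ntNW
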