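import Pool.Agent.Lib.MP_44a246_ntNW.WA3

set_option autoImplicit false

open MvPolynomial

namespace Pool.Agent.Lib.MP_44a246_ntNW

universe u

section Algebra

variable {K : Type u} [Field K] {m t : ℕ}

/-- a form which separates one point from the others -/
private theorem exists_sep {E : Type u} [Field E] (F : Finset (Fin (m + 1) → E))
    (h0 : ∀ x ∈ F, x ≠ 0) (hF : ∀ x ∈ F, ∀ y ∈ F, x ≠ y → ∀ c : E, x ≠ c • y)
    (x : Fin (m + 1) → E) (hx : x ∈ F) :
    ∃ p : MvPolynomial (Fin (m + 1)) E, p.IsHomogeneous (F.card - 1) ∧ eval x p ≠ 0 ∧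
      ∀ y ∈ F, y ≠ x → eval y p = 0 := by
  classical
  have key : ∀ y ∈ F.erase x, ∃ L : MvPolynomial (Fin (m + 1)) E, L.IsHomogeneous 1 ∧
      eval x L ≠ 0 ∧ eval y L = 0 := by
    intro y hy
    obtain ⟨hyx, hyF⟩ := Finset.mem_erase.1 hy
    have hy0 := h0 y hyF
    obtain ⟨i, hi⟩ : ∃ i, y i ≠ 0 := by
      by_contra hcon
      push Not at hcon
      exact hy0 (funext hcon)
    by_contra hcon
    push Not at hcon
    refine hF x hx y hyF (Ne.symm hyx) (x i / y i) ?_
    funext j
    have h1 : (C (y i) * X j - C (y j) * X i : MvPolynomial (Fin (m + 1)) E).IsHomogeneous 1 := by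
      have h2 : (C (y i) * X j : MvPolynomial (Fin (m + 1)) E).IsHomogeneous (0 + 1) :=
        (isHomogeneous_C _ _).mul (isHomogeneous_X _ _)
      have h3 : (C (y j) * X i : MvPolynomial (Fin (m + 1)) E).IsHomogeneous (0 + 1) :=
        (isHomogeneous_C _ _).mul (isHomogeneous_X _ _)
      simpa using h2.sub h3
    by_contra hne
    refine hcon _ h1 ?_ ?_
    · simp only [map_sub, map_mul, eval_C, eval_X]
      intro h2
      apply hne
      simp only [Pi.smul_apply, smul_eq_mul]
      field_simp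
      linear_combination h2
    · simp only [map_sub, map_mul, eval_C, eval_X]
      ring
  choose! L hL using key
  refine ⟨∏ y ∈ F.erase x, L y, ?_, ?_, ?_⟩
  · have h1 := IsHomogeneous.prod (F.erase x) L (fun _ => 1) (fun y hy => (hL y hy).1)
    simpa [Finset.card_erase_of_mem hx] using h1
  · rw [map_prod]
    exact Finset.prod_ne_zero_iff.2 (fun y hy => (hL y hy).2.1)
  · intro y hy hyx
    rw [map_prod]
    exact Finset.prod_eq_zero (Finset.mem_erase.2 ⟨hyx, hy⟩)
      (hL y (Finset.mem_erase.2 ⟨hyx, hy⟩)).2.2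

/-- WA5 : finite fibres -/
theorem finite_fibres {s : ℕ} (f : Fin t → MvPolynomial (Fin (m + 1)) K) (e : Fin t → ℕ)
    (hf : ∀ l, (f l).IsHomogeneous (e l)) {D : ℕ} (hD : 1 ≤ D)
    (g : Fin (s + 1) → MvPolynomial (Fin (m + 1)) K) (hg : ∀ i, (g i).IsHomogeneous D)
    (h : ∀ x : Fin (m + 1) → AlgebraicClosure K, (∀ l, aeval x (f l) = 0) →
      (∀ i, aeval x (g i) = 0) → x = 0) :
    ∃ N : ℕ, ∀ (E : Type u) [Field E] [Algebra K E] (F : Finset (Fin (m + 1) → E)),
      (∀ x ∈ F, (∀ l, aeval x (f l) = 0) ∧ aeval x (g 0) ≠ 0) →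
      (∀ x ∈ F, ∀ y ∈ F, x ≠ y → ∀ c : E, x ≠ c • y) →
      (∀ x ∈ F, ∀ y ∈ F, ∀ i, aeval x (g i) / aeval x (g 0) = aeval y (g i) / aeval y (g 0)) →
      F.card ≤ N := by
  classical
  obtain ⟨M, hM⟩ := hilbert_span f e hf hD g hg h
  have hfin : {μ : Fin (m + 1) →₀ ℕ | μ.degree < M}.Finite :=
    (Finsupp.finite_of_degree_le M).subset
      (fun μ (hμ : μ.degree < M) => (show μ.degree ≤ M from hμ.le))
  refine ⟨hfin.toFinset.card, ?_⟩
  intro E _ _ F hFf hFp hFr
  rcases F.eq_empty_or_nonempty with rfl | ⟨x₀, hx₀⟩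
  · simp
  set k : ℕ := F.card - 1 with hk
  set y : Fin (s + 1) → E := fun i => aeval x₀ (g i) / aeval x₀ (g 0) with hy
  have hgy : ∀ x ∈ F, ∀ i, aeval x (g i) = y i * aeval x (g 0) := by
    intro x hx i
    rw [hy]
    simp only
    rw [← hFr x hx x₀ hx₀ i, div_mul_cancel₀ _ (hFf x hx).2]
  have h0 : ∀ x ∈ F, x ≠ 0 := by
    intro x hx hx0
    apply (hFf x hx).2
    have h1 : coeff 0 (g 0) = 0 := (hg 0).coeff_eq_zero (by simpa using Ne.symm (by omega))
    rw [hx0, aeval_zero, constantCoeff_eq, h1, map_zero]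
  -- the vectors
  set u : (Fin (m + 1) →₀ ℕ) → (F → E) := fun μ a =>
    aeval a.1 (monomial μ (1 : K)) * (aeval a.1 (g 0)) ^ ((k - μ.degree) / D) with hu
  set U : Submodule E (F → E) := Submodule.span E (u '' {μ | μ.degree < M}) with hU
  set Φ : MvPolynomial (Fin (m + 1)) K →ₗ[K] (F → E) :=
    LinearMap.pi (fun a : F => (aeval a.1 : MvPolynomial (Fin (m + 1)) K →ₐ[K] E).toLinearMap)
    with hΦ
  have hΦa : ∀ p (a : F), Φ p a = aeval a.1 p := fun p a => rfl
  have hmon : ∀ ν : Fin (m + 1) →₀ ℕ, ν.degree = k → Φ (monomial ν 1) ∈ U := by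
    intro ν hν
    obtain ⟨b, hb, hab⟩ := hM k (monomial ν 1) (isHomogeneous_monomial _ hν)
    have h1 : Φ (monomial ν 1) = Φ b := by
      funext a
      rw [hΦa, hΦa, ← sub_eq_zero, ← map_sub]
      have h2 : Ideal.span (Set.range f) ≤ RingHom.ker (aeval a.1 : _ →ₐ[K] E) := by
        rw [Ideal.span_le]
        rintro _ ⟨l, rfl⟩
        exact (hFf a.1 a.2).1 l
      exact h2 hab
    rw [h1]
    have h3 : Submodule.span K {c : MvPolynomial (Fin (m + 1)) K | ∃ (μ : Fin (m + 1) →₀ ℕ)
        (γ : Fin (s + 1) →₀ ℕ), μ.degree < M ∧ μ.degree + D * γ.degree = k ∧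
          c = monomial μ 1 * γ.prod (fun i k => g i ^ k)} ≤ (U.restrictScalars K).comap Φ := by
      rw [Submodule.span_le]
      rintro _ ⟨μ, γ, hμ, hμγ, rfl⟩
      show Φ _ ∈ U
      have h4 : Φ (monomial μ 1 * γ.prod (fun i k => g i ^ k)) =
          (γ.prod (fun i k => y i ^ k)) • u μ := by
        funext a
        rw [hΦa, map_mul, Pi.smul_apply, smul_eq_mul, hu]
        simp only
        have h5 : (k - μ.degree) / D = γ.degree := by
          rw [← hμγ, Nat.add_sub_cancel_left, Nat.mul_div_cancel_left _ (by omega)]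
        rw [h5]
        have h6 : aeval a.1 (γ.prod (fun i k => g i ^ k)) =
            (γ.prod (fun i k => y i ^ k)) * aeval a.1 (g 0) ^ γ.degree := by
          rw [Finsupp.prod, Finsupp.prod, map_prod, Finsupp.degree_apply,
            ← Finset.prod_pow_eq_pow_sum, ← Finset.prod_mul_distrib]
          refine Finset.prod_congr rfl (fun i _ => ?_)
          rw [map_pow, hgy a.1 a.2 i, mul_pow]
        rw [h6]
        ring
      rw [h4]
      exact U.smul_mem _ (Submodule.subset_span ⟨μ, hμ, rfl⟩)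
    exact h3 hb
  have hpol : ∀ p : MvPolynomial (Fin (m + 1)) E, p.IsHomogeneous k →
      (fun a : F => eval a.1 p) ∈ U := by
    intro p hp
    have h1 : (fun a : F => eval a.1 p) = ∑ ν ∈ p.support, p.coeff ν • Φ (monomial ν 1) := by
      funext a
      rw [eval_eq, Finset.sum_apply]
      refine Finset.sum_congr rfl (fun ν _ => ?_)
      rw [Pi.smul_apply, smul_eq_mul, hΦa, aeval_monomial, map_one, one_mul, Finsupp.prod]
    rw [h1]
    refine Submodule.sum_mem _ (fun ν hν => U.smul_mem _ (hmon ν ?_))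
    have h2 := hp (mem_support_iff.1 hν)
    rw [← h2]
    exact congrFun (congrArg DFunLike.coe (Finsupp.degree_eq_weight_one (R := ℕ))) ν
  have htop : U = ⊤ := by
    rw [eq_top_iff]
    intro v _
    have hv : v = ∑ a : F, v a • (Pi.single a (1 : E) : F → E) := by
      funext b
      rw [Finset.sum_apply]
      simp [Pi.single_apply]
    rw [hv]
    refine Submodule.sum_mem _ (fun a _ => U.smul_mem _ ?_)
    obtain ⟨p, hp1, hp2, hp3⟩ := exists_sep F h0 hFp a.1 a.2
    have h1 : (Pi.single a (1 : E) : F → E) = (eval a.1 p)⁻¹ • (fun b : F => eval b.1 p) := by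
      funext b
      rw [Pi.smul_apply, smul_eq_mul]
      by_cases hab : b = a
      · subst hab
        rw [Pi.single_eq_same, inv_mul_cancel₀ hp2]
      · rw [Pi.single_eq_of_ne hab, hp3 b.1 b.2 (fun h => hab (Subtype.ext h)), mul_zero]
    rw [h1]
    exact U.smul_mem _ (hpol p hp1)
  have hcard : Module.finrank E (F → E) = F.card := by
    rw [Module.finrank_fintype_fun_eq_card, Fintype.card_coe]
  rw [← hcard, ← finrank_top E (F → E), ← htop, hU]
  have h7 : u '' {μ | μ.degree < M} = ((hfin.toFinset.image u : Finset (F → E)) : Set (F → E)) := by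
    ext v
    simp
  rw [h7]
  exact (finrank_span_finset_le_card _).trans Finset.card_image_le

end Algebra

end Pool.Agent.Lib.MP_44a246_ntNW
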