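import Mathlib

set_option autoImplicit false

open MvPolynomial

namespace Pool.Agent.Lib.MP_44a246_ntNW

universe u

section Algebra

variable {K : Type u} [Field K] {m t : ℕ}

lemma comp_mul_WA2 {p : MvPolynomial (Fin (m + 1)) K} {e : ℕ}
    (hp : p.IsHomogeneous e) (A : MvPolynomial (Fin (m + 1)) K) (k : ℕ) :
    homogeneousComponent k (A * p) =
      if e ≤ k then homogeneousComponent (k - e) A * p else 0 := by
  classical
  have key : ∀ i : ℕ, homogeneousComponent k (homogeneousComponent i A * p) =
      if k = i + e then homogeneousComponent i A * p else 0 := by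
    intro i
    apply homogeneousComponent_of_mem
    rw [mem_homogeneousSubmodule]
    exact (homogeneousComponent_isHomogeneous i A).mul hp
  have h1 : homogeneousComponent k (A * p) =
      ∑ i ∈ Finset.range (A.totalDegree + 1),
        (if k = i + e then homogeneousComponent i A * p else 0) := by
    conv_lhs => rw [← sum_homogeneousComponent A, Finset.sum_mul, map_sum]
    exact Finset.sum_congr rfl fun i _ => key i
  rw [h1]
  by_cases hek : e ≤ k
  · rw [if_pos hek]
    by_cases hmem : k - e ∈ Finset.range (A.totalDegree + 1)
    · rw [Finset.sum_eq_single_of_mem (k - e) hmem]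
      · rw [if_pos (by omega)]
      · intro i _ hi
        rw [if_neg (by omega)]
    · rw [Finset.sum_eq_zero, homogeneousComponent_eq_zero, zero_mul]
      · rw [Finset.mem_range] at hmem
        omega
      · intro i hi
        rw [if_neg]
        intro hki
        apply hmem
        have : k - e = i := by omega
        rwa [this]
  · rw [if_neg hek]
    apply Finset.sum_eq_zero
    intro i _
    rw [if_neg (by omega)]

/-- WA2 : homogeneous coefficients -/
theorem exists_hom_coeffs {ι : Type} [Fintype ι] (p : ι → MvPolynomial (Fin (m + 1)) K)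
    (e : ι → ℕ) (hp : ∀ l, (p l).IsHomogeneous (e l)) {k : ℕ} {a : MvPolynomial (Fin (m + 1)) K}
    (ha : a.IsHomogeneous k) (h : a ∈ Ideal.span (Set.range p)) :
    ∃ A : ι → MvPolynomial (Fin (m + 1)) K, (∀ l, e l ≤ k → (A l).IsHomogeneous (k - e l)) ∧
      (∀ l, k < e l → A l = 0) ∧ a = ∑ l, A l * p l := by
  classical
  obtain ⟨A', hA'⟩ := Ideal.mem_span_range_iff_exists_fun.1 h
  refine ⟨fun l => if e l ≤ k then homogeneousComponent (k - e l) (A' l) else 0, ?_, ?_, ?_⟩
  · intro l hl
    simp only [if_pos hl]
    exact homogeneousComponent_isHomogeneous _ _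
  · intro l hl
    simp only [if_neg (not_le.2 hl)]
  · have h1 : homogeneousComponent k a = a := by
      rw [homogeneousComponent_of_mem ((mem_homogeneousSubmodule _ _).2 ha), if_pos rfl]
    calc a = homogeneousComponent k (∑ l, A' l * p l) := by rw [hA', h1]
      _ = ∑ l, homogeneousComponent k (A' l * p l) := map_sum _ _ _
      _ = ∑ l, (if e l ≤ k then homogeneousComponent (k - e l) (A' l) else 0) * p l := by
          refine Finset.sum_congr rfl fun l _ => ?_
          rw [comp_mul_WA2 (hp l)]
          by_cases hl : e l ≤ k
          · rw [if_pos hl, if_pos hl]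
          · rw [if_neg hl, if_neg hl, zero_mul]

end Algebra

end Pool.Agent.Lib.MP_44a246_ntNW
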