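import Pool.Agent.Lib.MP_44a246_ntNW.WA1
import Pool.Agent.Lib.MP_44a246_ntNW.WA2

set_option autoImplicit false

open MvPolynomial

namespace Pool.Agent.Lib.MP_44a246_ntNW

universe u

section Algebra

variable {K : Type u} [Field K] {m t : ℕ}

/-- The products of a monomial of degree less than `M` and a monomial in the forms `g`, of total
degree `k`. -/
private def gens_WA3 {s : ℕ} (g : Fin s → MvPolynomial (Fin (m + 1)) K) (D M k : ℕ) :
    Set (MvPolynomial (Fin (m + 1)) K) :=
  {c : MvPolynomial (Fin (m + 1)) K | ∃ (μ : Fin (m + 1) →₀ ℕ)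
        (γ : Fin s →₀ ℕ), μ.degree < M ∧ μ.degree + D * γ.degree = k ∧
          c = monomial μ 1 * γ.prod (fun i k => g i ^ k)}

private lemma mul_mem_WA3 {s : ℕ} (g : Fin s → MvPolynomial (Fin (m + 1)) K) {D M k : ℕ}
    (hk : D ≤ k) (i : Fin s) {c : MvPolynomial (Fin (m + 1)) K}
    (hc : c ∈ Submodule.span K (gens_WA3 g D M (k - D))) :
    c * g i ∈ Submodule.span K (gens_WA3 g D M k) := by
  classical
  induction hc using Submodule.span_induction with
  | mem c hc =>
    obtain ⟨μ, γ, h1, h2, rfl⟩ := hc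
    apply Submodule.subset_span
    refine ⟨μ, γ + Finsupp.single i 1, h1, ?_, ?_⟩
    · rw [map_add, Finsupp.degree_single, mul_add, mul_one]
      omega
    · have h3 : (γ + Finsupp.single i 1).prod (fun i k => g i ^ k) =
          γ.prod (fun i k => g i ^ k) * g i := by
        rw [Finsupp.prod_add_index' (h := fun i k => g i ^ k) (fun i => pow_zero _)
          (fun i a b => pow_add _ _ _),
          Finsupp.prod_single_index (h := fun i k => g i ^ k) (pow_zero _), pow_one]
      rw [h3, mul_assoc]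
  | zero => rw [zero_mul]; exact Submodule.zero_mem _
  | add x y _ _ hx hy => rw [add_mul]; exact Submodule.add_mem _ hx hy
  | smul r x _ hx => rw [smul_mul_assoc]; exact Submodule.smul_mem _ _ hx

private lemma small_mem_WA3 {s : ℕ} (g : Fin s → MvPolynomial (Fin (m + 1)) K) {D M k : ℕ}
    (hk : k < M) {a : MvPolynomial (Fin (m + 1)) K} (ha : a.IsHomogeneous k) :
    a ∈ Submodule.span K (gens_WA3 g D M k) := by
  classical
  rw [a.as_sum]
  refine Submodule.sum_mem _ fun μ hμ => ?_
  have hd : μ.degree = k := by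
    by_contra hne
    exact (mem_support_iff.1 hμ) (ha.coeff_eq_zero hne)
  have h1 : monomial μ (coeff μ a) = coeff μ a • (monomial μ (1 : K)) := by
    rw [smul_monomial, smul_eq_mul, mul_one]
  rw [h1]
  refine Submodule.smul_mem _ _ (Submodule.subset_span ⟨μ, 0, by omega, ?_, ?_⟩)
  · simp [hd]
  · simp

/-- WA3 : forms modulo an ideal, when finitely many forms have no common zero on it -/
theorem hilbert_span {s : ℕ} (f : Fin t → MvPolynomial (Fin (m + 1)) K) (e : Fin t → ℕ)
    (hf : ∀ l, (f l).IsHomogeneous (e l)) {D : ℕ} (hD : 1 ≤ D)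
    (g : Fin s → MvPolynomial (Fin (m + 1)) K) (hg : ∀ i, (g i).IsHomogeneous D)
    (h : ∀ x : Fin (m + 1) → AlgebraicClosure K, (∀ l, aeval x (f l) = 0) →
      (∀ i, aeval x (g i) = 0) → x = 0) :
    ∃ M : ℕ, ∀ (k : ℕ) (a : MvPolynomial (Fin (m + 1)) K), a.IsHomogeneous k →
      ∃ b ∈ Submodule.span K {c : MvPolynomial (Fin (m + 1)) K | ∃ (μ : Fin (m + 1) →₀ ℕ)
        (γ : Fin s →₀ ℕ), μ.degree < M ∧ μ.degree + D * γ.degree = k ∧
          c = monomial μ 1 * γ.prod (fun i k => g i ^ k)},
        a - b ∈ Ideal.span (Set.range f) := by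
  classical
  obtain ⟨M0, hM0⟩ := pow_mem_span (Sum.elim f g) (fun x hx => h x (fun l => hx (Sum.inl l))
    (fun i => hx (Sum.inr i)))
  refine ⟨max M0 D, ?_⟩
  intro k
  induction k using Nat.strong_induction_on with
  | _ k ih =>
    intro a ha
    rcases lt_or_ge k (max M0 D) with hk | hk
    · exact ⟨a, small_mem_WA3 g hk ha, by rw [sub_self]; exact Submodule.zero_mem _⟩
    · have hMk : M0 ≤ k := le_trans (le_max_left _ _) hk
      have hDk : D ≤ k := le_trans (le_max_right _ _) hk
      obtain ⟨A, hA1, hA2, hA3⟩ := exists_hom_coeffs (Sum.elim f g) (Sum.elim e (fun _ => D))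
        (by rintro (l | i)
            · exact hf l
            · exact hg i) ha (hM0 k hMk a ha)
      have hB : ∀ i : Fin s, ∃ b ∈ Submodule.span K (gens_WA3 g D (max M0 D) (k - D)),
          A (Sum.inr i) - b ∈ Ideal.span (Set.range f) := fun i =>
        ih (k - D) (by omega) _ (hA1 (Sum.inr i) hDk)
      choose b hb1 hb2 using hB
      refine ⟨∑ i, b i * g i, ?_, ?_⟩
      · exact Submodule.sum_mem _ fun i _ => mul_mem_WA3 g hDk i (hb1 i)
      · have h1 : a - ∑ i, b i * g i =
            ∑ l, A (Sum.inl l) * f l + ∑ i, (A (Sum.inr i) - b i) * g i := by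
          conv_lhs => rw [hA3]
          rw [Fintype.sum_sum_type]
          simp only [Sum.elim_inl, Sum.elim_inr, sub_mul, Finset.sum_sub_distrib]
          ring
        rw [h1]
        refine Ideal.add_mem _ (Ideal.sum_mem _ fun l _ => ?_) (Ideal.sum_mem _ fun i _ => ?_)
        · exact Ideal.mul_mem_left _ _ (Ideal.subset_span ⟨l, rfl⟩)
        · exact Ideal.mul_mem_right _ _ (hb2 i)

end Algebra

end Pool.Agent.Lib.MP_44a246_ntNW
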