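import Pool.Agent.Lib.MP_44a246_ntNW.Tools
import Pool.Agent.Lib.MP_44a246_ntNW.WA3

set_option autoImplicit false

open MvPolynomial

namespace Pool.Agent.Lib.MP_44a246_ntNW

universe u

variable {K : Type u} [Field K] {m t : ℕ}

theorem aeval_smul_hom6 {L : Type*} [Field L] [Algebra K L] {σ : Type*}
    {F : MvPolynomial σ K} {d : ℕ} (hF : F.IsHomogeneous d) (x : σ → L) (c : L) :
    aeval (fun k => c * x k) F = c ^ d * aeval x F := by
  classical
  rw [aeval_def, eval₂_eq, aeval_def, eval₂_eq, Finset.mul_sum]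
  refine Finset.sum_congr rfl fun μ hμ => ?_
  have h1 : μ.degree = d := by
    rw [Finsupp.degree_eq_weight_one]
    exact hF (mem_support_iff.mp hμ)
  have h2 : ∏ i ∈ μ.support, (c * x i) ^ μ i = c ^ d * ∏ i ∈ μ.support, x i ^ μ i := by
    simp_rw [mul_pow]
    rw [Finset.prod_mul_distrib, Finset.prod_pow_eq_pow_sum, ← Finsupp.degree_apply, h1]
  rw [h2]
  ring

section Pt

variable {L : Type u} [Field L] [Algebra K L]

theorem aeval_eq_of_mem_wa6 {f : Fin t → MvPolynomial (Fin (m + 1)) K} {x : Fin (m + 1) → L}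
    (hx : ∀ l, aeval x (f l) = 0) {a b : MvPolynomial (Fin (m + 1)) K}
    (h : a - b ∈ Ideal.span (Set.range f)) : aeval x a = aeval x b := by
  have h1 : Ideal.span (Set.range f) ≤ RingHom.ker (aeval (R := K) x).toRingHom := by
    rw [Ideal.span_le]
    rintro _ ⟨l, rfl⟩
    exact hx l
  have h2 : aeval x (a - b) = 0 := h1 h
  rw [map_sub, sub_eq_zero] at h2
  exact h2

/-- the value of a generator -/
theorem aeval_gen_wa6 {s : ℕ} (g : Fin s → MvPolynomial (Fin (m + 1)) K) (x : Fin (m + 1) → L)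
    (μ : Fin (m + 1) →₀ ℕ) (γ : Fin s →₀ ℕ) :
    aeval x (monomial μ 1 * γ.prod (fun i k => g i ^ k)) =
      (μ.prod fun i k => x i ^ k) * γ.prod (fun i k => aeval x (g i) ^ k) := by
  rw [map_mul, aeval_monomial, map_one, one_mul, map_finsuppProd]
  simp only [map_pow]

theorem aeval_mem_of_span_wa6 {N : Submodule K L} {x : Fin (m + 1) → L}
    {S : Set (MvPolynomial (Fin (m + 1)) K)} (c : L)
    (hS : ∀ p ∈ S, c * aeval x p ∈ N) {b : MvPolynomial (Fin (m + 1)) K}
    (hb : b ∈ Submodule.span K S) : c * aeval x b ∈ N := by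
  have h1 : Submodule.span K S ≤
      N.comap ((LinearMap.mulLeft K c).comp (aeval (R := K) x).toLinearMap) := by
    rw [Submodule.span_le]
    intro p hp
    exact hS p hp
  exact h1 hb

theorem exists_ne_zero_wa6 {s : ℕ} (f : Fin t → MvPolynomial (Fin (m + 1)) K) (e : Fin t → ℕ)
    (hf : ∀ l, (f l).IsHomogeneous (e l)) {D : ℕ} (hD : 1 ≤ D)
    (g : Fin s → MvPolynomial (Fin (m + 1)) K) (hg : ∀ i, (g i).IsHomogeneous D)
    (h : ∀ x : Fin (m + 1) → AlgebraicClosure K, (∀ l, aeval x (f l) = 0) →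
      (∀ i, aeval x (g i) = 0) → x = 0) {x : Fin (m + 1) → L}
    (hx : ∀ l, aeval x (f l) = 0) {b : Fin (m + 1)} (hb : x b ≠ 0) :
    ∃ i, aeval x (g i) ≠ 0 := by
  by_contra hcon
  push Not at hcon
  obtain ⟨M, hM⟩ := hilbert_span f e hf hD g hg h
  obtain ⟨c, hc, hc'⟩ := hM M (X b ^ M) (by
    simpa using (isHomogeneous_X K b).pow M)
  have h1 := aeval_eq_of_mem_wa6 hx hc'
  have h2 : (1 : L) * aeval x c ∈ (⊥ : Submodule K L) := by
    refine aeval_mem_of_span_wa6 1 ?_ hc
    rintro _ ⟨μ, γ, hμ, hk, rfl⟩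
    rw [aeval_gen_wa6, Submodule.mem_bot]
    have hγ : γ ≠ 0 := by
      rintro rfl
      simp at hk
      omega
    obtain ⟨i, hi⟩ := Finsupp.ne_iff.mp hγ
    have h3 : γ.prod (fun i k => aeval x (g i) ^ k) = 0 := by
      refine Finset.prod_eq_zero (i := i) (Finsupp.mem_support_iff.mpr hi) ?_
      show aeval x (g i) ^ γ i = 0
      rw [hcon i, zero_pow hi]
    rw [h3, mul_zero, mul_zero]
  rw [Submodule.mem_bot, one_mul] at h2
  rw [h2, map_pow, aeval_X] at h1
  exact hb (eq_zero_of_pow_eq_zero h1)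

/-- powers of `x_a ^ D / g_k(x)` lie in a finitely generated module -/
theorem isIntegral_ratio_wa6 {s : ℕ} (f : Fin t → MvPolynomial (Fin (m + 1)) K) (e : Fin t → ℕ)
    (hf : ∀ l, (f l).IsHomogeneous (e l)) {D : ℕ} (hD : 1 ≤ D)
    (g : Fin s → MvPolynomial (Fin (m + 1)) K) (hg : ∀ i, (g i).IsHomogeneous D)
    (h : ∀ x : Fin (m + 1) → AlgebraicClosure K, (∀ l, aeval x (f l) = 0) →
      (∀ i, aeval x (g i) = 0) → x = 0) {x : Fin (m + 1) → L}
    (hx : ∀ l, aeval x (f l) = 0) {G : L} (hG : G ≠ 0) (A : Subalgebra K L) (hA : A.FG)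
    (hgA : ∀ i, aeval x (g i) / G ∈ A) (a : Fin (m + 1)) :
    IsIntegral A (x a ^ D / G) := by
  classical
  obtain ⟨M, hM⟩ := hilbert_span f e hf hD g hg h
  have hnoeth : IsNoetherianRing A := by
    have : Algebra.FiniteType K A := (Subalgebra.fg_iff_finiteType A).mp hA
    exact Algebra.FiniteType.isNoetherianRing K A
  set T : Set L := (fun μ : Fin (m + 1) →₀ ℕ =>
    (μ.prod fun i k => x i ^ k) / G ^ (μ.degree / D)) '' {μ | μ.degree ≤ M} with hT
  have hTfin : T.Finite := (Finsupp.finite_of_degree_le M).image _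
  set W : Submodule A L := Submodule.span A T with hW
  have hWfg : W.FG := Submodule.fg_span hTfin
  have key : ∀ j : ℕ, (x a ^ D / G) ^ j ∈ W := by
    intro j
    obtain ⟨c, hc, hc'⟩ := hM (D * j) (X a ^ (D * j)) (by
      simpa using (isHomogeneous_X K a).pow (D * j))
    have h1 := aeval_eq_of_mem_wa6 hx hc'
    have h2 : (G ^ j)⁻¹ * aeval x c ∈ W.restrictScalars K := by
      refine aeval_mem_of_span_wa6 _ ?_ hc
      rintro _ ⟨μ, γ, hμ, hk, rfl⟩
      rw [aeval_gen_wa6, Submodule.restrictScalars_mem]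
      have hDpos : 0 < D := hD
      have hdeg : μ.degree = D * (j - γ.degree) := by
        have hle : γ.degree ≤ j := by
          by_contra hcon
          push Not at hcon
          have h5 : D * j < D * γ.degree := Nat.mul_lt_mul_of_pos_left hcon hDpos
          omega
        rw [Nat.mul_sub]
        omega
      have hjle : γ.degree ≤ j := by
        by_contra hcon
        push Not at hcon
        have h5 : D * j < D * γ.degree := Nat.mul_lt_mul_of_pos_left hcon hDpos
        omega
      have hdiv : μ.degree / D = j - γ.degree := by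
        rw [hdeg, Nat.mul_div_cancel_left _ hDpos]
      have hprod : γ.prod (fun i k => aeval x (g i) ^ k) =
          G ^ γ.degree * γ.prod (fun i k => (aeval x (g i) / G) ^ k) := by
        have h6 : γ.prod (fun i k => (aeval x (g i) / G) ^ k) =
            γ.prod (fun i k => aeval x (g i) ^ k) / G ^ γ.degree := by
          simp only [Finsupp.prod, div_pow, Finset.prod_div_distrib,
            Finset.prod_pow_eq_pow_sum, Finsupp.degree_apply]
        rw [h6]
        field_simp
      have hmem : γ.prod (fun i k => (aeval x (g i) / G) ^ k) ∈ A :=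
        Subalgebra.prod_mem A fun i _ => Subalgebra.pow_mem A (hgA i) _
      have heq : (G ^ j)⁻¹ * ((μ.prod fun i k => x i ^ k) *
          γ.prod (fun i k => aeval x (g i) ^ k)) =
          (⟨_, hmem⟩ : A) • ((μ.prod fun i k => x i ^ k) / G ^ (μ.degree / D)) := by
        rw [Subalgebra.smul_def, smul_eq_mul, hprod, hdiv]
        have h7 : G ^ j = G ^ (j - γ.degree) * G ^ γ.degree := by
          rw [← pow_add, Nat.sub_add_cancel hjle]
        rw [h7]
        field_simp
      rw [heq]
      exact Submodule.smul_mem _ _ (Submodule.subset_span ⟨μ, hμ.le, rfl⟩)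
    rw [← h1, map_pow, aeval_X, Submodule.restrictScalars_mem] at h2
    have h3 : (x a ^ D / G) ^ j = (G ^ j)⁻¹ * x a ^ (D * j) := by
      rw [div_pow, ← pow_mul, div_eq_mul_inv, mul_comm]
    rw [h3]
    exact h2
  have hle : Subalgebra.toSubmodule (Algebra.adjoin A {x a ^ D / G}) ≤ W := by
    rw [Algebra.adjoin_eq_span, Submodule.span_le]
    intro y hy
    obtain ⟨j, rfl⟩ := Submonoid.mem_closure_singleton.mp hy
    exact key j
  have hfg : (Subalgebra.toSubmodule (Algebra.adjoin A {x a ^ D / G})).FG :=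
    Submodule.FG.of_le hWfg hle
  exact IsIntegral.of_mem_of_fg _ hfg _ (Algebra.subset_adjoin rfl)

theorem isAlgebraic_ratio_wa6 {s : ℕ} (f : Fin t → MvPolynomial (Fin (m + 1)) K) (e : Fin t → ℕ)
    (hf : ∀ l, (f l).IsHomogeneous (e l)) {D : ℕ} (hD : 1 ≤ D)
    (g : Fin s → MvPolynomial (Fin (m + 1)) K) (hg : ∀ i, (g i).IsHomogeneous D)
    (h : ∀ x : Fin (m + 1) → AlgebraicClosure K, (∀ l, aeval x (f l) = 0) →
      (∀ i, aeval x (g i) = 0) → x = 0) {x : Fin (m + 1) → L}
    (hx : ∀ l, aeval x (f l) = 0) {G : L} (hG : G ≠ 0) (A : Subalgebra K L) (hA : A.FG)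
    (hgA : ∀ i, aeval x (g i) / G ∈ A) (a b : Fin (m + 1)) :
    IsAlgebraic A (x a / x b) := by
  have h1 := (isIntegral_ratio_wa6 f e hf hD g hg h hx hG A hA hgA a).isAlgebraic
  have h2 := (isIntegral_ratio_wa6 f e hf hD g hg h hx hG A hA hgA b).isAlgebraic
  have h3 : IsAlgebraic A ((x a / x b) ^ D) := by
    have h4 : (x a / x b) ^ D = (x a ^ D / G) * (x b ^ D / G)⁻¹ := by
      rw [div_pow]
      by_cases hb : x b ^ D = 0
      · rw [hb]; simp
      · field_simp
    rw [h4]
    exact h1.mul h2.inv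
  exact h3.of_pow hD

end Pt

/-- dehomogenisation is injective on forms -/
theorem eq_zero_of_dehom_wa6 {n : ℕ} {T : ℕ} {Ψ : MvPolynomial (Fin (n + 1)) K}
    (hT : Ψ.IsHomogeneous T) (k : Fin (n + 1))
    (h0 : aeval (fun i : Fin (n + 1) => if hi : i = k then (1 : MvPolynomial {i // i ≠ k} K)
      else X ⟨i, hi⟩) Ψ = 0) : Ψ = 0 := by
  classical
  have hX : algebraMap (MvPolynomial (Fin (n + 1)) K)
      (FractionRing (MvPolynomial (Fin (n + 1)) K)) (X k) ≠ 0 := by
    rw [Ne, FaithfulSMul.algebraMap_eq_zero_iff]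
    exact X_ne_zero k
  set φ := algebraMap (MvPolynomial (Fin (n + 1)) K)
      (FractionRing (MvPolynomial (Fin (n + 1)) K)) with hφ
  have h1 : aeval (fun i : Fin (n + 1) => φ (X i) / φ (X k)) Ψ = 0 := by
    have h2 := congrArg (aeval (R := K) (fun i : {i // i ≠ k} => φ (X i.1) / φ (X k))) h0
    rw [map_zero, ← AlgHom.comp_apply, comp_aeval] at h2
    rw [← h2]
    congr 2
    funext i
    by_cases hi : i = k
    · subst hi
      simp [hX]
    · simp [hi]
  have h3 : aeval (fun i : Fin (n + 1) => φ (X i)) Ψ = 0 := by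
    have h4 := aeval_smul_hom6 hT (fun i : Fin (n + 1) => φ (X i) / φ (X k)) (φ (X k))
    rw [h1, mul_zero] at h4
    rw [← h4]
    congr 2
    funext i
    field_simp
  have h5 : φ Ψ = 0 := by
    rw [← h3]
    have h6 : (IsScalarTower.toAlgHom K (MvPolynomial (Fin (n + 1)) K)
        (FractionRing (MvPolynomial (Fin (n + 1)) K))) Ψ =
        aeval (fun i : Fin (n + 1) => φ (X i)) Ψ := by
      conv_lhs => rw [← aeval_X_left_apply Ψ]
      rw [← AlgHom.comp_apply, comp_aeval]
      rfl
    exact h6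
  rwa [hφ, FaithfulSMul.algebraMap_eq_zero_iff] at h5

/-- WA6 : dimension of the exceptional set -/
theorem small_locus {n : ℕ} (hn : 1 ≤ n) (f : Fin t → MvPolynomial (Fin (m + 1)) K)
    (e : Fin t → ℕ) (hf : ∀ l, (f l).IsHomogeneous (e l)) {D : ℕ} (hD : 1 ≤ D)
    (g : Fin (n + 1) → MvPolynomial (Fin (m + 1)) K) (hg : ∀ i, (g i).IsHomogeneous D)
    (h : ∀ x : Fin (m + 1) → AlgebraicClosure K, (∀ l, aeval x (f l) = 0) →
      (∀ i, aeval x (g i) = 0) → x = 0)
    (T : ℕ) (Ψ : MvPolynomial (Fin (n + 1)) K) (h0 : Ψ ≠ 0) (hT : Ψ.IsHomogeneous T) :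
    SmallLocus K n f (aeval g Ψ) := by
  classical
  intro L _ _ x hx hΨ a b hb hai
  obtain ⟨k, hk⟩ := exists_ne_zero_wa6 f e hf hD g hg h hx hb
  set y : Fin (n + 1) → L := fun i => aeval x (g i) / aeval x (g k) with hy
  set Y : Set L := y '' {i | i ≠ k} with hY
  have hYfin : Y.Finite := (Set.toFinite _).image _
  have hyA : ∀ i, y i ∈ Algebra.adjoin K Y := by
    intro i
    by_cases hi : i = k
    · subst hi
      have : y i = 1 := div_self hk
      rw [this]
      exact one_mem _
    · exact Algebra.subset_adjoin ⟨i, hi, rfl⟩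
  have halg : ∀ i, IsAlgebraic (Algebra.adjoin K Y) (x (a i) / x b) := fun i =>
    isAlgebraic_ratio_wa6 f e hf hD g hg h hx hk (Algebra.adjoin K Y)
      ⟨hYfin.toFinset, by simp⟩ hyA (a i) b
  -- the matroid argument
  set Z : Set L := Set.range (fun i => x (a i) / x b) with hZ
  have hZind : (AlgebraicIndependent.matroid K L).Indep Z := by
    rw [AlgebraicIndependent.matroid_indep_iff]
    exact hai.coe_range
  have hZcl : Z ⊆ (AlgebraicIndependent.matroid K L).closure Y := by
    rw [AlgebraicIndependent.matroid_closure_eq]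
    rintro _ ⟨i, rfl⟩
    exact halg i
  have hZcard : Z.encard = n := by
    have h1 : Z = (fun i => x (a i) / x b) '' Set.univ := Set.image_univ.symm
    rw [h1, Set.InjOn.encard_image hai.injective.injOn, Set.encard_univ]
    simp
  have hcardk : ({i | i ≠ k} : Set (Fin (n + 1))).encard = n := by
    have h1 : ({i | i ≠ k} : Set (Fin (n + 1))) = ((Finset.univ.erase k : Finset (Fin (n + 1))) :
        Set (Fin (n + 1))) := by
      ext i
      simp
    rw [h1, Set.encard_coe_eq_coe_finsetCard, Finset.card_erase_of_mem (Finset.mem_univ k)]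
    simp
  have hle : (n : ℕ∞) ≤ (AlgebraicIndependent.matroid K L).eRk Y := by
    rw [← hZcard, ← hZind.eRk_eq_encard, ← (AlgebraicIndependent.matroid K L).eRk_closure_eq Y]
    exact (AlgebraicIndependent.matroid K L).eRk_mono hZcl
  obtain ⟨B, hB⟩ := (AlgebraicIndependent.matroid K L).exists_isBasis Y
  have hBY : B = Y := by
    refine (hYfin.subset hB.subset).eq_of_subset_of_encard_le hB.subset ?_
    rw [hB.encard_eq_eRk]
    refine le_trans ?_ hle
    rw [← hcardk]
    exact Set.encard_image_le _ _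
  have hYind : AlgebraicIndepOn K id Y := by
    have := hB.indep
    rw [hBY, AlgebraicIndependent.matroid_indep_iff] at this
    exact this
  have hYcard : Y.encard = n := by
    refine le_antisymm ?_ ?_
    · rw [← hcardk]
      exact Set.encard_image_le _ _
    · refine hle.trans ?_
      rw [← hB.encard_eq_eRk, hBY]
  have hinj : Set.InjOn y {i | i ≠ k} := by
    refine Set.Finite.injOn_of_encard_image_eq (Set.toFinite _) ?_
    rw [hcardk, ← hYcard]
  have hyind : AlgebraicIndependent K (fun i : {i // i ≠ k} => y i.1) := by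
    have h1 : AlgebraicIndependent K (fun z : Y => (z : L)) := hYind
    exact h1.comp (fun i : {i // i ≠ k} => (⟨y i.1, i.1, i.2, rfl⟩ : Y)) (by
      intro i j hij
      exact Subtype.ext (hinj i.2 j.2 (congrArg Subtype.val hij)))
  -- the relation
  have hrel : aeval y Ψ = 0 := by
    have h1 : aeval (fun i => aeval x (g i)) Ψ = 0 := by
      rw [← hΨ, ← AlgHom.comp_apply, comp_aeval]
    have h2 := aeval_smul_hom6 hT y (aeval x (g k))
    have h3 : (fun i => aeval x (g k) * y i) = fun i => aeval x (g i) := by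
      funext i
      rw [hy]
      field_simp
    rw [h3, h1] at h2
    exact (mul_eq_zero.mp h2.symm).resolve_left (pow_ne_zero _ hk)
  apply h0
  refine eq_zero_of_dehom_wa6 hT k ?_
  refine (algebraicIndependent_iff.mp hyind) _ ?_
  rw [← AlgHom.comp_apply, comp_aeval, ← hrel]
  congr 2
  funext i
  by_cases hi : i = k
  · subst hi
    simp [hy, div_self hk]
  · simp [hi]

end Pool.Agent.Lib.MP_44a246_ntNW
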