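import Pool.Agent.Lib.MP_44a246_ntNF.Tools
import Pool.Agent.Lib.MP_44a246_ntNF.NF5
import Pool.Agent.Lib.MP_44a246_ntNF.Count
import Pool.Agent.Lib.MP_44a246_ntNU.Defs
import Pool.Agent.Lib.MP_44a246_ntNU.NU6
import Pool.Agent.Lib.MP_44a246_ntNU.NU6c
import Pool.Agent.Lib.MP_44a246_ntNW.Defs
import Pool.Agent.Lib.MP_44a246_ntNW.Tools

/-!
# Integrality of the coefficients and size of the values
-/

set_option autoImplicit false

open NumberField IsDedekindDomain Height MvPolynomial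
open Pool.Agent.Lib.MP_4d5ce1_nt (fa nv ordv)
open Pool.Agent.Lib.MP_44a246_ntNF
open Pool.Agent.Lib.MP_44a246_ntNU

namespace Pool.Agent.Lib.MP_44a246_ntNW

universe u

section Arith

variable {K : Type u} [Field K] [NumberField K] {m : ℕ}

/-- WB1a -/
theorem exists_IntS {ι : Type} [Finite ι] (p : ι → MvPolynomial (Fin (m + 1)) K)
    (S₀ : Finset (HeightOneSpectrum (𝓞 K))) :
    ∃ S : Finset (HeightOneSpectrum (𝓞 K)), S₀ ⊆ S ∧ ∀ l, IntS S (p l) := by
  classical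
  have hfin : (⋃ l : ι, ⋃ μ ∈ ((p l).support : Set (Fin (m + 1) →₀ ℕ)),
      {v : HeightOneSpectrum (𝓞 K) | fa v ((p l).coeff μ) ≠ 1}).Finite := by
    refine Set.finite_iUnion fun l => ?_
    refine Set.Finite.biUnion (p l).support.finite_toSet fun μ hμ => ?_
    exact Pool.Agent.Lib.MP_4d5ce1_nt.finite_fa_ne_one
      (MvPolynomial.mem_support_iff.mp (Finset.mem_coe.mp hμ))
  refine ⟨S₀ ∪ hfin.toFinset, Finset.subset_union_left, ?_⟩
  intro l v hv μ hμ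
  by_contra hne
  apply hv
  refine Finset.mem_union_right _ ?_
  rw [Set.Finite.mem_toFinset]
  refine Set.mem_iUnion.mpr ⟨l, Set.mem_iUnion₂.mpr ⟨μ, ?_, hne⟩⟩
  exact Finset.mem_coe.mpr (MvPolynomial.mem_support_iff.mpr hμ)

/-- WB1b -/
theorem fa_aeval_le {E : Type u} [Field E] [NumberField E] [Algebra K E]
    {S : Finset (HeightOneSpectrum (𝓞 K))} {p : MvPolynomial (Fin (m + 1)) K} (hp : IntS S p)
    {k : ℕ} (hk : p.IsHomogeneous k) {w : HeightOneSpectrum (𝓞 E)}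
    (hw : w ∉ above K E (S : Set (HeightOneSpectrum (𝓞 K)))) (x : Fin (m + 1) → E) :
    fa w (aeval x p) ≤ sz w x ^ k := by
  classical
  obtain ⟨v, hv⟩ := exists_below (K := K) w
  have hvS : v ∉ S := fun h => hw ⟨v, h, hv⟩
  obtain ⟨e, _, _, he⟩ := fa_up_lt_iff (K := K) (E := E) hv
  rw [MvPolynomial.aeval_def, MvPolynomial.eval₂_eq']
  refine Pool.Agent.Lib.MP_4d5ce1_nt.fa_sum_le w _ _ _ (pow_nonneg (sz_nonneg w x) k)
    fun μ hμ => ?_
  have hμ0 : p.coeff μ ≠ 0 := MvPolynomial.mem_support_iff.mp hμ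
  have hdeg : ∑ i, μ i = k := by
    have h := hk hμ0
    have h2 : μ.degree = k := by
      rw [Finsupp.degree_eq_weight_one (R := ℕ)]
      exact h
    rw [← h2, Finsupp.degree_eq_sum]
  rw [Pool.Agent.Lib.MP_4d5ce1_nt.fa_mul, he, hp v hvS μ hμ0, one_pow, one_mul]
  have hprod : fa w (∏ i, x i ^ μ i) = ∏ i, fa w (x i) ^ μ i := by
    have h1 : fa w (∏ i, x i ^ μ i) = ∏ i, fa w (x i ^ μ i) := by
      unfold Pool.Agent.Lib.MP_4d5ce1_nt.fa
      exact map_prod (FinitePlace.mk w) _ _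
    rw [h1]
    exact Finset.prod_congr rfl fun i _ => Pool.Agent.Lib.MP_4d5ce1_nt.fa_pow w _ _
  rw [hprod, ← hdeg, ← Finset.prod_pow_eq_pow_sum]
  exact Finset.prod_le_prod
    (fun i _ => pow_nonneg (Pool.Agent.Lib.MP_4d5ce1_nt.fa_nonneg w _) _)
    (fun i _ => pow_le_pow_left₀ (Pool.Agent.Lib.MP_4d5ce1_nt.fa_nonneg w _) (fa_le_sz w x i) _)

end Arith

end Pool.Agent.Lib.MP_44a246_ntNW
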