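import Pool.Agent.Lib.MP_44a246_ntNW.Tools
import Pool.Agent.Lib.MP_44a246_ntNF.NF6d
import Pool.Agent.Lib.MP_44a246_ntNU.NU6c

set_option autoImplicit false

open NumberField IsDedekindDomain Height MvPolynomial
open Pool.Agent.Lib.MP_4d5ce1_nt (fa nv ordv)
open Pool.Agent.Lib.MP_44a246_ntNF
open Pool.Agent.Lib.MP_44a246_ntNU

namespace Pool.Agent.Lib.MP_44a246_ntNW

universe u

variable {K : Type u} [Field K] [NumberField K] {m : ℕ}

lemma mem_PT {E : Type u} [Field E] [NumberField E] [Algebra K E] {q : ℕ}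
    (G : Fin q → MvPolynomial (Fin (m + 1)) K) (d : Fin q → ℕ) (x : Fin (m + 1) → E)
    (w : HeightOneSpectrum (𝓞 E)) (j : Fin q) :
    j ∈ PT G d x w ↔ fa w (aeval x (G j)) < sz w x ^ d j := by
  simp [PT]

/-- WB2 : finiteness of the patterns -/
theorem finite_PT {E : Type u} [Field E] [NumberField E] [Algebra K E] {q : ℕ}
    (G : Fin q → MvPolynomial (Fin (m + 1)) K) (d : Fin q → ℕ) {x : Fin (m + 1) → E}
    (hx : ∀ j, aeval x (G j) ≠ 0) (hx0 : x ≠ 0) {I : Finset (Fin q)} (hI : I.Nonempty) :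
    {w : HeightOneSpectrum (𝓞 E) | PT G d x w = I}.Finite := by
  obtain ⟨j, hj⟩ := hI
  refine ((Pool.Agent.Lib.MP_4d5ce1_nt.finite_fa_ne_one (hx j)).union
    (finite_sz_ne_one hx0)).subset ?_
  intro w hw
  have hw' : PT G d x w = I := hw
  rw [← hw', mem_PT] at hj
  by_contra hcon
  simp only [Set.mem_union, Set.mem_ofPred_eq, not_or, not_not] at hcon
  rw [hcon.1, hcon.2, one_pow] at hj
  exact lt_irrefl _ hj

lemma mem_RP {E : Type u} [Field E] [NumberField E] [Algebra K E] {q : ℕ}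
    {G : Fin q → MvPolynomial (Fin (m + 1)) K} {d : Fin q → ℕ}
    (S' : Finset (HeightOneSpectrum (𝓞 E))) {x : Fin (m + 1) → E}
    (hx : ∀ j, aeval x (G j) ≠ 0) (hx0 : x ≠ 0) {I : Finset (Fin q)} (hI : I.Nonempty)
    (w : HeightOneSpectrum (𝓞 E)) :
    w ∈ RP (PT G d x) S' I ↔ w ∉ S' ∧ PT G d x w = I := by
  have hfin : {w : HeightOneSpectrum (𝓞 E) | w ∉ S' ∧ PT G d x w = I}.Finite :=
    (finite_PT G d hx hx0 hI).subset fun w hw => hw.2
  unfold RP
  rw [dif_pos hfin]
  simp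

/-- outside `S'` the coefficients are units -/
lemma fa_coeff_eq_one {E : Type u} [Field E] [NumberField E] [Algebra K E]
    {p : MvPolynomial (Fin (m + 1)) K} {S : Finset (HeightOneSpectrum (𝓞 K))} (hS : IntS S p)
    {w : HeightOneSpectrum (𝓞 E)} (hw : w ∉ above K E (S : Set (HeightOneSpectrum (𝓞 K))))
    {μ : Fin (m + 1) →₀ ℕ} (hμ : p.coeff μ ≠ 0) :
    fa w (algebraMap K E (p.coeff μ)) = 1 := by
  obtain ⟨v, hv⟩ := exists_below (K := K) w
  have hvS : v ∉ S := fun h => hw ⟨v, h, hv⟩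
  obtain ⟨e, -, -, he⟩ := fa_up_lt_iff (K := K) (E := E) hv
  rw [he, hS v hvS μ hμ, one_pow]

/-- WB3 -/
theorem sum_log_RP_le {E : Type u} [Field E] [NumberField E] [Algebra K E] {q : ℕ}
    {G : Fin q → MvPolynomial (Fin (m + 1)) K} {d : Fin q → ℕ}
    (hG0 : ∀ j, G j ≠ 0) {S : Finset (HeightOneSpectrum (𝓞 K))} (hS : ∀ j, IntS S (G j))
    {S₀ : Set (HeightOneSpectrum (𝓞 K))} (h0 : S₀ ⊆ (S : Set (HeightOneSpectrum (𝓞 K))))
    (S' : Finset (HeightOneSpectrum (𝓞 E)))
    (hS' : (S' : Set (HeightOneSpectrum (𝓞 E))) = above K E (S : Set (HeightOneSpectrum (𝓞 K))))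
    {x : Fin (m + 1) → E} (hx : ∀ j, aeval x (G j) ≠ 0) (hx0 : x ≠ 0) :
    ∑ I ∈ (Finset.univ : Finset (Finset (Fin q))).filter (fun I => I.Nonempty),
      Real.log (NN (RP (PT G d x) S' I)) ≤ trCount S₀ G d x := by
  classical
  set T : Set (HeightOneSpectrum (𝓞 E)) := {w | w ∉ above K E S₀ ∧ ∃ j i μ,
    FinitePlace.mk w (aeval x (G j)) <
      FinitePlace.mk w (algebraMap K E ((G j).coeff μ)) * FinitePlace.mk w (x i) ^ d j} with hT
  have hTfin : T.Finite := by
    refine ((Set.finite_iUnion fun j : Fin q =>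
      (Pool.Agent.Lib.MP_4d5ce1_nt.finite_fa_ne_one (hx j)).union
        ((G j).support.finite_toSet.biUnion (t := fun μ => {w : HeightOneSpectrum (𝓞 E) |
          (G j).coeff μ ≠ 0 ∧ fa w (algebraMap K E ((G j).coeff μ)) ≠ 1}) (fun μ hμ => ?_))).union
        (finite_sz_ne_one hx0)).subset ?_
    · have hc : (algebraMap K E) ((G j).coeff μ) ≠ 0 := by
        have h1 : (G j).coeff μ ≠ 0 := MvPolynomial.mem_support_iff.mp hμ
        simpa using h1
      exact (Pool.Agent.Lib.MP_4d5ce1_nt.finite_fa_ne_one hc).subset fun w hw => hw.2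
    · rintro w ⟨-, j, i, μ, hj⟩
      by_contra hcon
      simp only [Set.mem_union, Set.mem_iUnion, not_or, not_exists, Set.mem_ofPred_eq,
        not_not] at hcon
      obtain ⟨h1, h2⟩ := hcon
      obtain ⟨h1a, h1b⟩ := h1 j
      have e3 : fa w (aeval x (G j)) < fa w (algebraMap K E ((G j).coeff μ)) * fa w (x i) ^ d j :=
        hj
      rw [h1a] at e3
      by_cases hμ : (G j).coeff μ = 0
      · rw [hμ, map_zero, Pool.Agent.Lib.MP_4d5ce1_nt.fa_zero, zero_mul] at e3
        linarith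
      · have e1 : fa w (algebraMap K E ((G j).coeff μ)) = 1 := by
          by_contra hne
          exact h1b μ (MvPolynomial.mem_support_iff.mpr hμ) ⟨hμ, hne⟩
        have e2 : fa w (x i) ≤ 1 := by
          rw [← h2]
          exact fa_le_sz w x i
        rw [e1, one_mul] at e3
        have := pow_le_one₀ (n := d j) (Pool.Agent.Lib.MP_4d5ce1_nt.fa_nonneg w (x i)) e2
        linarith
  have hcount : trCount S₀ G d x = ∑ w ∈ hTfin.toFinset, Real.log (nv w) := by
    unfold trCount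
    rw [← finsum_mem_eq_finite_toFinset_sum _ hTfin]
    rfl
  rw [hcount]
  have hdisj : Set.PairwiseDisjoint (((Finset.univ : Finset (Finset (Fin q))).filter
      (fun I => I.Nonempty) : Finset (Finset (Fin q))) : Set (Finset (Fin q)))
      (fun I => RP (PT G d x) S' I) := by
    intro I hI I' hI' hne
    simp only [Finset.coe_filter, Finset.mem_univ, true_and, Set.mem_ofPred_eq] at hI hI'
    refine Finset.disjoint_left.mpr ?_
    intro w hw hw'
    rw [mem_RP S' hx hx0 hI] at hw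
    rw [mem_RP S' hx hx0 hI'] at hw'
    exact hne (hw.2.symm.trans hw'.2)
  calc ∑ I ∈ (Finset.univ : Finset (Finset (Fin q))).filter (fun I => I.Nonempty),
      Real.log (NN (RP (PT G d x) S' I))
      = ∑ I ∈ (Finset.univ : Finset (Finset (Fin q))).filter (fun I => I.Nonempty),
        ∑ w ∈ RP (PT G d x) S' I, Real.log (nv w) := Finset.sum_congr rfl fun I _ => log_NN _
    _ = ∑ w ∈ ((Finset.univ : Finset (Finset (Fin q))).filter (fun I => I.Nonempty)).biUnion
        (fun I => RP (PT G d x) S' I), Real.log (nv w) := (Finset.sum_biUnion hdisj).symm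
    _ ≤ ∑ w ∈ hTfin.toFinset, Real.log (nv w) := by
      refine Finset.sum_le_sum_of_subset_of_nonneg ?_ fun w _ _ =>
        (Pool.Agent.Lib.MP_4d5ce1_nt.log_nv_pos w).le
      intro w hw
      rw [Finset.mem_biUnion] at hw
      obtain ⟨I, hI, hw⟩ := hw
      simp only [Finset.mem_filter, Finset.mem_univ, true_and] at hI
      rw [mem_RP S' hx hx0 hI] at hw
      obtain ⟨hwS, hwI⟩ := hw
      rw [Set.Finite.mem_toFinset]
      obtain ⟨j, hj⟩ := hI
      rw [← hwI, mem_PT] at hj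
      have hwS' : w ∉ above K E (S : Set (HeightOneSpectrum (𝓞 K))) := by
        intro h
        rw [← hS'] at h
        exact hwS h
      obtain ⟨i, hi⟩ := exists_sz_eq w x
      obtain ⟨μ, hμ⟩ := MvPolynomial.ne_zero_iff.mp (hG0 j)
      refine ⟨fun h => ?_, j, i, μ, ?_⟩
      · obtain ⟨v, hv, hvw⟩ := h
        exact hwS' ⟨v, h0 hv, hvw⟩
      · have h1 : fa w (algebraMap K E ((G j).coeff μ)) = 1 := fa_coeff_eq_one (hS j) hwS' hμ
        have h2 : fa w (aeval x (G j)) <
            fa w (algebraMap K E ((G j).coeff μ)) * fa w (x i) ^ d j := by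
          rw [h1, one_mul, ← hi]
          exact hj
        exact h2

end Pool.Agent.Lib.MP_44a246_ntNW
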