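import Pool.Agent.Lib.MP_44a246_ntNW.Tools
import Pool.Agent.Lib.MP_44a246_ntNU.NU6c
import Pool.Agent.Lib.MP_44a246_ntNU.NU8

/-!
# WB4: the product formula for forms of arbitrary degree, uniformly in the extension
-/

set_option autoImplicit false
set_option linter.unusedSectionVars false

open NumberField IsDedekindDomain Height MvPolynomial
open Pool.Agent.Lib.MP_4d5ce1_nt (fa nv ordv fa_nonneg fa_pos fa_eq finite_fa_ne_one fa_zero nv_pos
  one_lt_nv log_nv_pos two_le_nv product_formula fa_sum_le fa_mul fa_eq_zero_iff fa_pow)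
open Pool.Agent.Lib.MP_44a246_ntNF
open Pool.Agent.Lib.MP_44a246_ntNU

namespace Pool.Agent.Lib.MP_44a246_ntNW

universe u

section

variable {K : Type u} [Field K] [NumberField K] {m : ℕ} {E : Type u} [Field E] [NumberField E]
  [Algebra K E]

/-- The total size of the coefficients at a finite place. -/
private noncomputable def cf (w : HeightOneSpectrum (𝓞 E)) (p : MvPolynomial (Fin (m + 1)) K) :
    ℝ := ∑ μ ∈ p.support, fa w (algebraMap K E (p.coeff μ))

/-- The total size of the coefficients at an infinite place. -/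
private noncomputable def ci (w : InfinitePlace E) (p : MvPolynomial (Fin (m + 1)) K) : ℝ :=
  ∑ μ ∈ p.support, w (algebraMap K E (p.coeff μ))

private lemma cf_nonneg (w : HeightOneSpectrum (𝓞 E)) (p : MvPolynomial (Fin (m + 1)) K) :
    0 ≤ cf w p := Finset.sum_nonneg fun _ _ => fa_nonneg _ _

private lemma ci_nonneg (w : InfinitePlace E) (p : MvPolynomial (Fin (m + 1)) K) :
    0 ≤ ci w p := Finset.sum_nonneg fun _ _ => apply_nonneg w _

private lemma fa_mono_le (w : HeightOneSpectrum (𝓞 E)) (x : Fin (m + 1) → E)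
    (s : Finset (Fin (m + 1))) (μ : Fin (m + 1) → ℕ) :
    fa w (∏ i ∈ s, x i ^ μ i) ≤ sz w x ^ (∑ i ∈ s, μ i) := by
  classical
  induction s using Finset.induction_on with
  | empty => simp
  | insert a s ha ih =>
    rw [Finset.prod_insert ha, Finset.sum_insert ha, fa_mul, fa_pow, pow_add]
    exact mul_le_mul (pow_le_pow_left₀ (fa_nonneg _ _) (fa_le_sz w x a) _) ih (fa_nonneg _ _)
      (pow_nonneg (sz_nonneg w x) _)

private lemma inf_mono_le (w : InfinitePlace E) (x : Fin (m + 1) → E)
    (s : Finset (Fin (m + 1))) (μ : Fin (m + 1) → ℕ) :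
    w (∏ i ∈ s, x i ^ μ i) ≤ az w x ^ (∑ i ∈ s, μ i) := by
  classical
  have h0 : 0 ≤ az w x := (apply_nonneg w (x 0)).trans (le_az w x 0)
  induction s using Finset.induction_on with
  | empty => simp
  | insert a s ha ih =>
    rw [Finset.prod_insert ha, Finset.sum_insert ha, map_mul, map_pow, pow_add]
    exact mul_le_mul (pow_le_pow_left₀ (apply_nonneg w _) (le_az w x a) _) ih (apply_nonneg w _)
      (pow_nonneg h0 _)

private lemma degree_of_mem {p : MvPolynomial (Fin (m + 1)) K} {k : ℕ} (hk : p.IsHomogeneous k)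
    {μ : Fin (m + 1) →₀ ℕ} (hμ : μ ∈ p.support) : ∑ i ∈ μ.support, μ i = k := by
  have h := hk (MvPolynomial.mem_support_iff.mp hμ)
  rw [Finsupp.weight_apply] at h
  simpa [Finsupp.sum] using h

private lemma aeval_expand (p : MvPolynomial (Fin (m + 1)) K) (x : Fin (m + 1) → E) :
    aeval x p = ∑ μ ∈ p.support, algebraMap K E (p.coeff μ) * ∏ i ∈ μ.support, x i ^ μ i := by
  rw [aeval_def, eval₂_eq]

/-- The value of a form at a finite place. -/
private lemma fa_aeval_le' (w : HeightOneSpectrum (𝓞 E)) {p : MvPolynomial (Fin (m + 1)) K}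
    {k : ℕ} (hk : p.IsHomogeneous k) {B : ℝ} (hB : 0 ≤ B)
    (h : ∀ μ ∈ p.support, fa w (algebraMap K E (p.coeff μ)) ≤ B) (x : Fin (m + 1) → E) :
    fa w (aeval x p) ≤ B * sz w x ^ k := by
  rw [aeval_expand]
  refine fa_sum_le w _ _ _ (mul_nonneg hB (pow_nonneg (sz_nonneg w x) _)) ?_
  intro μ hμ
  rw [fa_mul]
  have h1 := fa_mono_le w x μ.support μ
  rw [degree_of_mem hk hμ] at h1
  exact mul_le_mul (h μ hμ) h1 (fa_nonneg _ _) hB

/-- The value of a form at an infinite place. -/
private lemma inf_aeval_le (w : InfinitePlace E) {p : MvPolynomial (Fin (m + 1)) K}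
    {k : ℕ} (hk : p.IsHomogeneous k) (x : Fin (m + 1) → E) :
    w (aeval x p) ≤ ci w p * az w x ^ k := by
  rw [aeval_expand, ci, Finset.sum_mul]
  refine (w.1.sum_le _ _).trans ?_
  refine Finset.sum_le_sum fun μ hμ => ?_
  have h1 : w.1 (algebraMap K E (p.coeff μ) * ∏ i ∈ μ.support, x i ^ μ i) =
      w (algebraMap K E (p.coeff μ)) * w (∏ i ∈ μ.support, x i ^ μ i) := map_mul w.1 _ _
  rw [h1]
  have h2 := inf_mono_le w x μ.support μ
  rw [degree_of_mem hk hμ] at h2
  exact mul_le_mul_of_nonneg_left h2 (apply_nonneg w _)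

/-- Outside the primes above `S` the coefficients have size one. -/
private lemma fa_aeval_out {S : Finset (HeightOneSpectrum (𝓞 K))}
    {p : MvPolynomial (Fin (m + 1)) K} (hp : IntS S p) {k : ℕ} (hk : p.IsHomogeneous k)
    {w : HeightOneSpectrum (𝓞 E)}
    (hw : w ∉ above K E (S : Set (HeightOneSpectrum (𝓞 K)))) (x : Fin (m + 1) → E) :
    fa w (aeval x p) ≤ sz w x ^ k := by
  have h := fa_aeval_le' w hk (B := 1) zero_le_one ?_ x
  · rwa [one_mul] at h
  · intro μ hμ
    obtain ⟨v, hv⟩ := exists_below (K := K) w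
    have hvS : v ∉ S := fun hvS => hw ⟨v, hvS, hv⟩
    obtain ⟨m', _, _, hm⟩ := fa_up_lt_iff hv
    rw [hm, hp v hvS μ (MvPolynomial.mem_support_iff.mp hμ), one_pow]

private lemma log_gain (w : HeightOneSpectrum (𝓞 E)) {x : Fin (m + 1) → E} {y : E} (hx : x ≠ 0)
    (hy : y ≠ 0) (k : ℕ) (h : fa w y < sz w x ^ k) :
    Real.log (nv w) ≤ (k : ℝ) * Real.log (sz w x) - Real.log (fa w y) := by
  obtain ⟨i, hi⟩ := exists_sz_eq w x
  have hxi : x i ≠ 0 := by
    intro h0
    rw [h0, fa_zero] at hi
    exact (sz_pos w hx).ne' hi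
  have hxk : x i ^ k ≠ 0 := pow_ne_zero _ hxi
  rw [hi, ← fa_pow] at h
  have h1 := nv_mul_le_of_lt w hy hxk h
  have h2 := Real.log_le_log (mul_pos (nv_pos w) (fa_pos w hy)) h1
  rw [Real.log_mul (nv_pos w).ne' (fa_pos w hy).ne', fa_pow, ← hi, Real.log_pow] at h2
  linarith

/-- The constant of a form over `E`. -/
private noncomputable def ct (S' : Finset (HeightOneSpectrum (𝓞 E)))
    (p : MvPolynomial (Fin (m + 1)) K) : ℝ :=
  ∑ w : InfinitePlace E, (w.mult : ℝ) * Real.log (ci w p + 1) +
    ∑ w ∈ S', Real.log (cf w p + 1)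

private lemma per_form_w {S : Finset (HeightOneSpectrum (𝓞 K))}
    {p : MvPolynomial (Fin (m + 1)) K} (hp : IntS S p) {k : ℕ} (hk : p.IsHomogeneous k)
    (S' : Finset (HeightOneSpectrum (𝓞 E)))
    (hS' : (S' : Set (HeightOneSpectrum (𝓞 E))) = above K E (S : Set (HeightOneSpectrum (𝓞 K))))
    {x : Fin (m + 1) → E} (hl : aeval x p ≠ 0) (hx : x ≠ 0)
    (U : Finset (HeightOneSpectrum (𝓞 E)))
    (hU : ∀ w ∈ U, w ∉ S' ∧ fa w (aeval x p) < sz w x ^ k) :
    ∑ w ∈ U, Real.log (nv w) ≤ k * logHeight x + ct S' p := by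
  classical
  unfold ct
  have hprod := product_formula hl
  rw [logHeight_eq' hx]
  have hinf : ∑ w : InfinitePlace E, (w.mult : ℝ) * Real.log (w (aeval x p)) ≤
      ∑ w : InfinitePlace E, ((w.mult : ℝ) * Real.log (ci w p + 1) +
        (k : ℝ) * ((w.mult : ℝ) * Real.log (az w x))) := by
    refine Finset.sum_le_sum fun w _ => ?_
    have e : (w.mult : ℝ) * Real.log (ci w p + 1) +
        (k : ℝ) * ((w.mult : ℝ) * Real.log (az w x)) =
        (w.mult : ℝ) * (Real.log (ci w p + 1) + k * Real.log (az w x)) := by ring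
    rw [e]
    refine mul_le_mul_of_nonneg_left ?_ (Nat.cast_nonneg _)
    have hs := ci_nonneg w p
    have ha := az_pos w hx
    rw [← Real.log_pow, ← Real.log_mul (by linarith) (pow_pos ha _).ne']
    refine Real.log_le_log (InfinitePlace.pos_iff.mpr hl) ?_
    refine (inf_aeval_le w hk x).trans ?_
    exact mul_le_mul_of_nonneg_right (by linarith) (pow_pos ha _).le
  rw [Finset.sum_add_distrib, ← Finset.mul_sum] at hinf
  let Z : Finset (HeightOneSpectrum (𝓞 E)) :=
    (finite_sz_ne_one hx).toFinset ∪ (finite_fa_ne_one hl).toFinset ∪ S' ∪ U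
  have h1 : ∑ᶠ v : HeightOneSpectrum (𝓞 E), Real.log (sz v x) = ∑ v ∈ Z, Real.log (sz v x) := by
    refine finsum_eq_sum_of_support_subset _ ?_
    intro v hv
    have : sz v x ≠ 1 := by
      intro h
      apply hv
      show Real.log (sz v x) = 0
      rw [h, Real.log_one]
    simp only [Z, Finset.coe_union, Set.Finite.coe_toFinset, Set.mem_union]
    exact Or.inl (Or.inl (Or.inl this))
  have h2 : ∑ᶠ v : HeightOneSpectrum (𝓞 E), Real.log (fa v (aeval x p)) =
      ∑ v ∈ Z, Real.log (fa v (aeval x p)) := by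
    refine finsum_eq_sum_of_support_subset _ ?_
    intro v hv
    have : fa v (aeval x p) ≠ 1 := by
      intro h
      apply hv
      show Real.log (fa v (aeval x p)) = 0
      rw [h, Real.log_one]
    simp only [Z, Finset.coe_union, Set.Finite.coe_toFinset, Set.mem_union]
    exact Or.inl (Or.inl (Or.inr this))
  have h3 : ∑ v ∈ Z, ((if v ∈ U then Real.log (nv v) else 0) -
      (if v ∈ S' then Real.log (cf v p + 1) else 0)) ≤
      ∑ v ∈ Z, ((k : ℝ) * Real.log (sz v x) - Real.log (fa v (aeval x p))) := by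
    refine Finset.sum_le_sum fun v _ => ?_
    have hs := sz_pos v hx
    have hf := fa_pos v hl
    by_cases hvS : v ∈ S'
    · have hvU : v ∉ U := fun h => (hU v h).1 hvS
      rw [if_pos hvS, if_neg hvU]
      have hc := cf_nonneg v p
      have h4 : fa v (aeval x p) ≤ (cf v p + 1) * sz v x ^ k := by
        refine fa_aeval_le' v hk (by linarith) ?_ x
        intro μ hμ
        have : fa v (algebraMap K E (p.coeff μ)) ≤ cf v p :=
          Finset.single_le_sum (f := fun μ => fa v (algebraMap K E (p.coeff μ)))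
            (fun _ _ => fa_nonneg _ _) hμ
        linarith
      have h5 := Real.log_le_log hf h4
      rw [Real.log_mul (by linarith) (pow_pos hs _).ne', Real.log_pow] at h5
      linarith
    · rw [if_neg hvS]
      by_cases hvU : v ∈ U
      · rw [if_pos hvU, sub_zero]
        exact log_gain v hx hl k (hU v hvU).2
      · rw [if_neg hvU, sub_zero]
        have hv' : v ∉ above K E (S : Set (HeightOneSpectrum (𝓞 K))) := by
          rw [← hS']; exact hvS
        have := Real.log_le_log hf (fa_aeval_out hp hk hv' x)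
        rw [Real.log_pow] at this
        linarith
  rw [Finset.sum_sub_distrib, Finset.sum_sub_distrib, Finset.sum_ite_mem, Finset.sum_ite_mem,
    Finset.inter_eq_right.mpr, Finset.inter_eq_right.mpr, ← Finset.mul_sum] at h3
  · rw [h1]
    rw [h2] at hprod
    linarith
  · intro v hv
    simp only [Z, Finset.mem_union]
    exact Or.inl (Or.inr hv)
  · intro v hv
    simp only [Z, Finset.mem_union]
    exact Or.inr hv

omit [NumberField K] in
private lemma mem_RP {q : ℕ} {pt : HeightOneSpectrum (𝓞 E) → Finset (Fin q)}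
    {S' : Finset (HeightOneSpectrum (𝓞 E))} {I : Finset (Fin q)} {w : HeightOneSpectrum (𝓞 E)}
    (h : w ∈ RP pt S' I) : w ∉ S' ∧ pt w = I := by
  unfold RP at h
  split_ifs at h with h1
  · exact (h1.mem_toFinset).mp h
  · exact absurd h (Finset.notMem_empty _)

private lemma sum_explicit_w {q : ℕ} {G : Fin q → MvPolynomial (Fin (m + 1)) K} {d : Fin q → ℕ}
    (hG : ∀ j, (G j).IsHomogeneous (d j)) {S : Finset (HeightOneSpectrum (𝓞 K))}
    (hS : ∀ j, IntS S (G j)) (S' : Finset (HeightOneSpectrum (𝓞 E)))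
    (hS' : (S' : Set (HeightOneSpectrum (𝓞 E))) = above K E (S : Set (HeightOneSpectrum (𝓞 K))))
    (x : Fin (m + 1) → E) (hx : ∀ j, aeval x (G j) ≠ 0) (hx0 : x ≠ 0) :
    ∑ I ∈ (Finset.univ : Finset (Finset (Fin q))).filter (fun I => I.Nonempty),
      (I.card : ℝ) * Real.log (NN (RP (PT G d x) S' I)) ≤
      (∑ j, (d j : ℝ)) * logHeight x + ∑ j, ct S' (G j) := by
  classical
  have e0 : ∑ I ∈ (Finset.univ : Finset (Finset (Fin q))).filter (fun I => I.Nonempty),
      (I.card : ℝ) * Real.log (NN (RP (PT G d x) S' I)) =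
      ∑ I : Finset (Fin q), (I.card : ℝ) * Real.log (NN (RP (PT G d x) S' I)) := by
    refine Finset.sum_filter_of_ne ?_
    intro I _ hI
    by_contra hne
    rw [Finset.not_nonempty_iff_eq_empty] at hne
    apply hI
    rw [hne]
    simp
  have e1 : ∑ I : Finset (Fin q), (I.card : ℝ) * Real.log (NN (RP (PT G d x) S' I)) =
      ∑ j : Fin q, ∑ I ∈ (Finset.univ : Finset (Finset (Fin q))).filter (fun I => j ∈ I),
        Real.log (NN (RP (PT G d x) S' I)) := by
    have e2 : ∀ I : Finset (Fin q), (I.card : ℝ) * Real.log (NN (RP (PT G d x) S' I)) =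
        ∑ j : Fin q, if j ∈ I then Real.log (NN (RP (PT G d x) S' I)) else 0 := by
      intro I
      rw [Finset.sum_ite_mem, Finset.univ_inter, Finset.sum_const, nsmul_eq_mul]
    rw [Finset.sum_congr rfl fun I _ => e2 I, Finset.sum_comm]
    refine Finset.sum_congr rfl fun j _ => ?_
    rw [Finset.sum_filter]
  rw [e0, e1]
  have e3 : ∀ j : Fin q, ∑ I ∈ (Finset.univ : Finset (Finset (Fin q))).filter (fun I => j ∈ I),
      Real.log (NN (RP (PT G d x) S' I)) ≤ d j * logHeight x + ct S' (G j) := by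
    intro j
    have hdisj : Set.PairwiseDisjoint (((Finset.univ : Finset (Finset (Fin q))).filter
        (fun I => j ∈ I) : Finset (Finset (Fin q))) : Set (Finset (Fin q)))
        (fun I => RP (PT G d x) S' I) := by
      intro I hI I' hI' hn
      refine Finset.disjoint_left.mpr ?_
      intro v hv hv'
      exact hn ((mem_RP hv).2.symm.trans (mem_RP hv').2)
    calc ∑ I ∈ (Finset.univ : Finset (Finset (Fin q))).filter (fun I => j ∈ I),
        Real.log (NN (RP (PT G d x) S' I))
        = ∑ I ∈ (Finset.univ : Finset (Finset (Fin q))).filter (fun I => j ∈ I),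
          ∑ v ∈ RP (PT G d x) S' I, Real.log (nv v) :=
          Finset.sum_congr rfl fun I _ => log_NN _
      _ = ∑ v ∈ ((Finset.univ : Finset (Finset (Fin q))).filter (fun I => j ∈ I)).biUnion
          (fun I => RP (PT G d x) S' I), Real.log (nv v) := (Finset.sum_biUnion hdisj).symm
      _ ≤ d j * logHeight x + ct S' (G j) := by
        refine per_form_w (hS j) (hG j) S' hS' (hx j) hx0 _ ?_
        intro v hv
        rw [Finset.mem_biUnion] at hv
        obtain ⟨I, hI, hv⟩ := hv
        obtain ⟨h1, h2⟩ := mem_RP hv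
        refine ⟨h1, ?_⟩
        have h3 : j ∈ PT G d x v := by
          rw [h2]
          simpa using hI
        simpa [PT] using h3
  refine (Finset.sum_le_sum fun j _ => e3 j).trans ?_
  rw [Finset.sum_add_distrib, Finset.sum_mul]

end

/-- The constants over the extensions of bounded degree are bounded. -/
private lemma ct_le {K : Type u} [Field K] [NumberField K] {m : ℕ} (r : ℕ)
    (p : MvPolynomial (Fin (m + 1)) K) (S : Finset (HeightOneSpectrum (𝓞 K))) :
    ∃ C : ℝ, 0 ≤ C ∧
      ∀ (E : Type u) [Field E] [NumberField E] [Algebra K E], Module.finrank K E ≤ r →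
        ∀ S' : Finset (HeightOneSpectrum (𝓞 E)),
          (S' : Set (HeightOneSpectrum (𝓞 E))) =
            above K E (S : Set (HeightOneSpectrum (𝓞 K))) →
          ct S' p ≤ C := by
  classical
  set A : ℝ := ∑ v : InfinitePlace K, Real.log ((∑ μ ∈ p.support, v (p.coeff μ)) + 1) with hA
  set B : ℝ := ∑ v ∈ S, ∑ μ ∈ p.support, (fa v (p.coeff μ) + 1) ^ r with hB
  have hA0 : ∀ v : InfinitePlace K, 0 ≤ Real.log ((∑ μ ∈ p.support, v (p.coeff μ)) + 1) := by
    intro v
    refine Real.log_nonneg ?_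
    have : 0 ≤ ∑ μ ∈ p.support, v (p.coeff μ) := Finset.sum_nonneg fun i _ => apply_nonneg v _
    linarith
  have hB0 : ∀ v : HeightOneSpectrum (𝓞 K), 0 ≤ ∑ μ ∈ p.support, (fa v (p.coeff μ) + 1) ^ r :=
    fun v => Finset.sum_nonneg fun μ _ => pow_nonneg (by linarith [fa_nonneg v (p.coeff μ)]) _
  have hAA : 0 ≤ A := Finset.sum_nonneg fun v _ => hA0 v
  have hBB : 0 ≤ B := Finset.sum_nonneg fun v _ => hB0 v
  have hlB : 0 ≤ Real.log (B + 1) := Real.log_nonneg (by linarith)
  refine ⟨(Module.finrank ℚ K * r : ℕ) * A + (r * S.card : ℕ) * Real.log (B + 1),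
    by positivity, ?_⟩
  intro E _ _ _ hr S' hS'
  have hfin : FiniteDimensional K E := Module.Finite.of_restrictScalars_finite ℚ K E
  unfold ct
  refine add_le_add ?_ ?_
  · have h1 : ∀ w : InfinitePlace E, (w.mult : ℝ) * Real.log (ci w p + 1) ≤
        (w.mult : ℝ) * A := by
      intro w
      refine mul_le_mul_of_nonneg_left ?_ (Nat.cast_nonneg _)
      have h2 : ci w p = ∑ μ ∈ p.support, (w.comap (algebraMap K E)) (p.coeff μ) := rfl
      rw [h2]
      exact Finset.single_le_sum (f := fun v : InfinitePlace K =>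
        Real.log ((∑ μ ∈ p.support, v (p.coeff μ)) + 1)) (fun v _ => hA0 v)
        (Finset.mem_univ (w.comap (algebraMap K E)))
    refine (Finset.sum_le_sum fun w _ => h1 w).trans ?_
    rw [← Finset.sum_mul]
    refine mul_le_mul_of_nonneg_right ?_ hAA
    rw [← Nat.cast_sum, InfinitePlace.sum_mult_eq, ← Module.finrank_mul_finrank ℚ K E]
    exact_mod_cast Nat.mul_le_mul_left _ hr
  · have h3 : ∀ w ∈ S', Real.log (cf w p + 1) ≤ Real.log (B + 1) := by
      intro w hw
      have hw' : w ∈ above K E (S : Set (HeightOneSpectrum (𝓞 K))) := by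
        rw [← hS']; exact hw
      obtain ⟨v, hv, hwv⟩ := hw'
      obtain ⟨m', hm1, hm2, hm⟩ := fa_up_lt_iff hwv
      have h4 : cf w p ≤ B := by
        have h5 : cf w p ≤ ∑ μ ∈ p.support, (fa v (p.coeff μ) + 1) ^ r := by
          refine Finset.sum_le_sum fun μ _ => ?_
          rw [hm]
          have h0 := fa_nonneg v (p.coeff μ)
          refine (pow_le_pow_left₀ h0 (show fa v (p.coeff μ) ≤ fa v (p.coeff μ) + 1 by linarith)
            m').trans ?_
          exact pow_le_pow_right₀ (by linarith) (hm2.trans hr)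
        exact h5.trans (Finset.single_le_sum (f := fun v : HeightOneSpectrum (𝓞 K) =>
          ∑ μ ∈ p.support, (fa v (p.coeff μ) + 1) ^ r) (fun v _ => hB0 v) hv)
      have h6 := cf_nonneg w p
      exact Real.log_le_log (by linarith) (by linarith)
    refine (Finset.sum_le_sum h3).trans ?_
    rw [Finset.sum_const, nsmul_eq_mul]
    refine mul_le_mul_of_nonneg_right ?_ hlB
    obtain ⟨S'', e1, e2⟩ := above_finset E S
    have e3 : S'' = S' := Finset.coe_injective (e1.trans hS'.symm)
    rw [e3] at e2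
    exact_mod_cast e2.trans (Nat.mul_le_mul_right _ hr)

section Arith

variable {K : Type u} [Field K] [NumberField K] {m : ℕ}

/-- WB4 -/
theorem sum_card_RP_le {q : ℕ} (r : ℕ) {G : Fin q → MvPolynomial (Fin (m + 1)) K}
    {d : Fin q → ℕ} (hG : ∀ j, (G j).IsHomogeneous (d j))
    {S : Finset (HeightOneSpectrum (𝓞 K))} (hS : ∀ j, IntS S (G j)) : ∃ C : ℝ, 0 ≤ C ∧
      ∀ (E : Type u) [Field E] [NumberField E] [Algebra K E], Module.finrank K E ≤ r →
        ∀ S' : Finset (HeightOneSpectrum (𝓞 E)),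
          (S' : Set (HeightOneSpectrum (𝓞 E))) =
            above K E (S : Set (HeightOneSpectrum (𝓞 K))) →
          ∀ x : Fin (m + 1) → E, (∀ j, aeval x (G j) ≠ 0) → x ≠ 0 →
            ∑ I ∈ (Finset.univ : Finset (Finset (Fin q))).filter (fun I => I.Nonempty),
              (I.card : ℝ) * Real.log (NN (RP (PT G d x) S' I)) ≤
              (∑ j, (d j : ℝ)) * logHeight x + C := by
  choose C hC0 hC using fun j => ct_le r (G j) S
  refine ⟨∑ j, C j, Finset.sum_nonneg fun j _ => hC0 j, ?_⟩
  intro E _ _ _ hr S' hS' x hx hx0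
  refine (sum_explicit_w hG hS S' hS' x hx hx0).trans ?_
  have h := Finset.sum_le_sum fun j (_ : j ∈ (Finset.univ : Finset (Fin q))) =>
    hC j E hr S' hS'
  linarith

end Arith

end Pool.Agent.Lib.MP_44a246_ntNW
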