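import Pool.Agent.Lib.MP_44a246_ntNF.Tools
import Pool.Agent.Lib.MP_44a246_ntNF.Count
import Pool.Agent.Lib.MP_44a246_ntNU.Defs
import Pool.Agent.Lib.MP_44a246_ntNW.Defs
import Pool.Agent.Lib.MP_44a246_ntNW.Tools

/-!
# Heights of quotients of forms, uniformly in extensions of bounded degree
-/

set_option autoImplicit false

open NumberField IsDedekindDomain Height MvPolynomial
open Pool.Agent.Lib.MP_4d5ce1_nt (fa nv ordv)
open Pool.Agent.Lib.MP_44a246_ntNF
open Pool.Agent.Lib.MP_44a246_ntNU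

namespace Pool.Agent.Lib.MP_44a246_ntNW

universe u

/-- The height constant of polynomials with integral coefficients. -/
private lemma WB5_bound {E : Type*} [Field E] [NumberField E] {σ : Type*}
    (P : Fin 2 → MvPolynomial σ E) (A : ℝ) (hA : 1 ≤ A)
    (h1 : ∀ j s, ∃ y : 𝓞 E, (y : E) = (P j).coeff s)
    (h2 : ∀ (w : InfinitePlace E) (j : Fin 2), ∑ s ∈ (P j).support, w ((P j).coeff s) ≤ A) :
    mulHeightBound P ≤ A ^ Module.finrank ℚ E := by
  rw [mulHeightBound_eq, NumberField.prod_archAbsVal_eq,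
    NumberField.prod_nonarchAbsVal_eq
      (fun v : AbsoluteValue E ℝ => ⨆ j, max (⨆ s : (P j).support, v (coeff s.val (P j))) 1)]
  have h3 : ∏ v : InfinitePlace E,
      (⨆ j, (AddMonoidAlgebra.coeff (P j)).sum (fun _ c ↦ v.val c)) ^ v.mult ≤
      A ^ Module.finrank ℚ E := by
    rw [← totalWeight_eq_finrank, totalWeight_eq_sum_mult, ← Finset.prod_pow_eq_pow_sum]
    have h0 : ∀ v : InfinitePlace E,
        0 ≤ ⨆ j, (AddMonoidAlgebra.coeff (P j)).sum (fun _ c ↦ v.val c) := fun v =>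
      Real.iSup_nonneg fun j => Finset.sum_nonneg fun s _ => apply_nonneg v.val _
    refine Finset.prod_le_prod (fun v _ => pow_nonneg (h0 v) _) fun v _ => ?_
    exact pow_le_pow_left₀ (h0 v) (Real.iSup_le (fun j => h2 v j) (by linarith)) _
  have h4 : ∏ᶠ v : FinitePlace E, ⨆ j, max (⨆ s : (P j).support, v.val (coeff s.val (P j))) 1 ≤ 1 ∧
      0 ≤ ∏ᶠ v : FinitePlace E, ⨆ j, max (⨆ s : (P j).support, v.val (coeff s.val (P j))) 1 := by
    refine finprod_induction (fun t : ℝ => t ≤ 1 ∧ 0 ≤ t) ⟨le_rfl, zero_le_one⟩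
      (fun a b ha hb => ⟨mul_le_one₀ ha.1 hb.2 hb.1, mul_nonneg ha.2 hb.2⟩) fun v => ?_
    refine ⟨Real.iSup_le (fun j => max_le (Real.iSup_le (fun s => ?_) zero_le_one) le_rfl)
      zero_le_one, Real.iSup_nonneg fun j => le_max_of_le_right zero_le_one⟩
    obtain ⟨y, hy⟩ := h1 j s.val
    rw [← hy]
    change v (y : E) ≤ 1
    rw [← FinitePlace.norm_embedding_eq]
    exact FinitePlace.norm_le_one (R := 𝓞 E) E v.maximalIdeal y
  have h5 : 0 ≤ A ^ Module.finrank ℚ E := pow_nonneg (by linarith) _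
  calc _ ≤ A ^ Module.finrank ℚ E * 1 := mul_le_mul h3 h4.1 h4.2 h5
    _ = _ := mul_one _

private lemma WB5_finrank_le {K E : Type*} [Field K] [NumberField K] [Field E] [NumberField E]
    [Algebra K E] {r : ℕ} (h : Module.finrank K E ≤ r) :
    Module.finrank ℚ E ≤ Module.finrank ℚ K * r := by
  rw [← Module.finrank_mul_finrank ℚ K E]
  exact Nat.mul_le_mul_left _ h

section Arith

variable {K : Type u} [Field K] [NumberField K] {m : ℕ}

/-- WB5 -/
theorem height_quot_le (r : ℕ) {ι : Type} [Finite ι] (a b : ι → MvPolynomial (Fin (m + 1)) K)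
    (k : ι → ℕ) (ha : ∀ i, (a i).IsHomogeneous (k i)) (hb : ∀ i, (b i).IsHomogeneous (k i)) :
    ∃ C : ℝ, 1 ≤ C ∧ ∀ (E : Type u) [Field E] [NumberField E] [Algebra K E],
      Module.finrank K E ≤ r → ∀ (i : ι) (x : Fin (m + 1) → E), x ≠ 0 →
        mulHeight₁ (aeval x (a i) / aeval x (b i)) ≤ C * mulHeight x ^ (k i) := by
  classical
  have : Finite (Σ i : ι, Σ j : Fin 2, (![a i, b i] j).support) := inferInstance
  obtain ⟨c, hc⟩ := IsLocalization.exist_integer_multiples_of_finite (nonZeroDivisors (𝓞 K))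
    (fun p : Σ i : ι, Σ j : Fin 2, (![a i, b i] j).support =>
      (![a p.1, b p.1] p.2.1).coeff p.2.2.val)
  have hc0 : ((c : 𝓞 K) : K) ≠ 0 := by simp
  have hint : ∀ (i : ι) (j : Fin 2) (s : Fin (m + 1) →₀ ℕ), ∃ y : 𝓞 K,
      (y : K) = ((c : 𝓞 K) : K) * (![a i, b i] j).coeff s := by
    intro i j s
    by_cases hs : s ∈ (![a i, b i] j).support
    · obtain ⟨y, hy⟩ := hc ⟨i, j, s, hs⟩
      refine ⟨y, ?_⟩
      rw [Algebra.smul_def] at hy
      exact hy
    · rw [MvPolynomial.notMem_support_iff] at hs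
      exact ⟨0, by rw [hs, mul_zero]; exact map_zero _⟩
  obtain ⟨A, hA⟩ := Finite.exists_le fun p : InfinitePlace K × ι × Fin 2 =>
    ∑ s ∈ (![a p.2.1, b p.2.1] p.2.2).support,
      p.1 (((c : 𝓞 K) : K) * (![a p.2.1, b p.2.1] p.2.2).coeff s)
  have hA1 : 1 ≤ max A 1 := le_max_right _ _
  refine ⟨max A 1 ^ (Module.finrank ℚ K * r), one_le_pow₀ hA1, ?_⟩
  intro E _ _ _ hr i x _
  have hcE : algebraMap K E ((c : 𝓞 K) : K) ≠ 0 := by
    rw [Ne, map_eq_zero]
    exact hc0
  set P : Fin 2 → MvPolynomial (Fin (m + 1)) E := fun j =>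
    map (algebraMap K E) (C ((c : 𝓞 K) : K) * ![a i, b i] j) with hP
  have hhom : ∀ j, (P j).IsHomogeneous (k i) := by
    intro j
    rw [hP]
    refine MvPolynomial.IsHomogeneous.map ?_ _
    have : (![a i, b i] j).IsHomogeneous (k i) := by
      fin_cases j
      · exact ha i
      · exact hb i
    simpa using (MvPolynomial.isHomogeneous_C (Fin (m + 1)) ((c : 𝓞 K) : K)).mul this
  have hcoeff : ∀ j s, (P j).coeff s =
      algebraMap K E (((c : 𝓞 K) : K) * (![a i, b i] j).coeff s) := by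
    intro j s
    rw [hP]
    simp only [coeff_map, coeff_C_mul]
  have heval : (fun j => (P j).eval x) =
      algebraMap K E ((c : 𝓞 K) : K) • ![aeval x (a i), aeval x (b i)] := by
    funext j
    rw [hP]
    simp only [eval_map, eval₂_mul, eval₂_C, Pi.smul_apply, smul_eq_mul]
    congr 1
    fin_cases j
    · rfl
    · rfl
  rw [mulHeight₁_div_eq_mulHeight, ← mulHeight_smul_eq_mulHeight _ hcE, ← heval]
  refine (mulHeight_eval_le hhom x).trans ?_
  have h0 : 0 ≤ mulHeight x ^ k i := pow_nonneg (mulHeight_pos x).le _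
  refine mul_le_mul_of_nonneg_right (max_le ?_ (one_le_pow₀ hA1)) h0
  refine (WB5_bound P (max A 1) hA1 ?_ ?_).trans
    (pow_le_pow_right₀ hA1 (WB5_finrank_le hr))
  · intro j s
    obtain ⟨y, hy⟩ := hint i j s
    refine ⟨algebraMap (𝓞 K) (𝓞 E) y, ?_⟩
    rw [hcoeff, ← hy]
    change algebraMap (𝓞 E) E (algebraMap (𝓞 K) (𝓞 E) y) = algebraMap K E (algebraMap (𝓞 K) K y)
    rw [← IsScalarTower.algebraMap_apply (𝓞 K) (𝓞 E) E,
      ← IsScalarTower.algebraMap_apply (𝓞 K) K E]
  · intro w j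
    refine le_trans ?_ ((hA (w.comap (algebraMap K E), i, j)).trans (le_max_left _ _))
    have hsub : (P j).support ⊆ (![a i, b i] j).support := by
      intro s hs
      rw [MvPolynomial.mem_support_iff, hcoeff] at hs
      rw [MvPolynomial.mem_support_iff]
      intro h
      exact hs (by rw [h, mul_zero, map_zero])
    calc ∑ s ∈ (P j).support, w ((P j).coeff s)
        ≤ ∑ s ∈ (![a i, b i] j).support, w ((P j).coeff s) :=
          Finset.sum_le_sum_of_subset_of_nonneg hsub fun s _ _ => apply_nonneg w _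
      _ = _ := Finset.sum_congr rfl fun s _ => by
          rw [hcoeff, ← InfinitePlace.comap_apply]

end Arith

end Pool.Agent.Lib.MP_44a246_ntNW
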