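import Pool.Agent.Lib.MP_44a246_ntNF.Tools
import Mathlib.RingTheory.Nullstellensatz
import Mathlib.RingTheory.MvPolynomial.Homogeneous

set_option autoImplicit false

open MvPolynomial

namespace Pool.Agent.Lib.MP_44a246_ntNW

universe u

section Algebra

variable {K : Type u} [Field K] {m t : ℕ}

/-- WA1 : Nullstellensatz for forms without a common zero -/
theorem pow_mem_span {ι : Type} [Finite ι] (p : ι → MvPolynomial (Fin (m + 1)) K)
    (h : ∀ x : Fin (m + 1) → AlgebraicClosure K, (∀ l, aeval x (p l) = 0) → x = 0) :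
    ∃ M : ℕ, ∀ (k : ℕ), M ≤ k → ∀ a : MvPolynomial (Fin (m + 1)) K, a.IsHomogeneous k →
      a ∈ Ideal.span (Set.range p) := by
  classical
  set I := Ideal.span (Set.range p) with hI
  have hrad : ∀ i : Fin (m + 1), (X i : MvPolynomial (Fin (m + 1)) K) ∈ I.radical := by
    intro i
    rw [← MvPolynomial.vanishingIdeal_zeroLocus_eq_radical (K := AlgebraicClosure K) I,
      mem_vanishingIdeal_iff]
    intro x hx
    have hx0 : x = 0 := h x fun l => by
      rw [mem_zeroLocus_iff] at hx
      exact hx _ (Ideal.subset_span ⟨l, rfl⟩)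
    simp [hx0]
  have hpow : ∀ i : Fin (m + 1), ∃ n : ℕ, (X i : MvPolynomial (Fin (m + 1)) K) ^ n ∈ I :=
    fun i => hrad i
  choose N hN using hpow
  refine ⟨∑ i, N i + 1, fun k hk a ha => ?_⟩
  have hmon : ∀ μ ∈ a.support, monomial μ (a.coeff μ) ∈ I := by
    intro μ hμ
    have hdeg : μ.degree = k := by
      have := ha (mem_support_iff.1 hμ)
      rw [← this, Finsupp.degree_eq_weight_one]
      rfl
    obtain ⟨i, hi⟩ : ∃ i, N i ≤ μ i := by
      by_contra hcon
      push Not at hcon
      have h1 : ∑ i, μ i ≤ ∑ i, N i := Finset.sum_le_sum fun i _ => (hcon i).le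
      have h2 : μ.degree = ∑ i, μ i := Finsupp.degree_eq_sum μ
      omega
    have : monomial μ (a.coeff μ) = monomial (μ - Finsupp.single i (N i)) (a.coeff μ) *
        (X i : MvPolynomial (Fin (m + 1)) K) ^ (N i) := by
      rw [X_pow_eq_monomial, monomial_mul, mul_one]
      congr 1
      rw [tsub_add_cancel_of_le]
      intro j
      by_cases hj : j = i
      · subst hj; simpa using hi
      · simp [Ne.symm hj]
    rw [this]
    exact I.mul_mem_left _ (hN i)
  rw [a.as_sum]
  exact I.sum_mem hmon

end Algebra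

end Pool.Agent.Lib.MP_44a246_ntNW
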