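import Pool.Agent.Lib.MP_44a246_ntNF.Tools
import Pool.Agent.Lib.MP_44a246_ntNF.NF9
import Pool.Agent.Lib.MP_44a246_ntNU.Defs
import Pool.Agent.Lib.MP_44a246_ntNW.Defs
import Pool.Agent.Lib.MP_44a246_ntNW.Tools
import Pool.Agent.Lib.MP_44a246_ntNW.WA1
import Pool.Agent.Lib.MP_44a246_ntNW.WA2
import Pool.Agent.Lib.MP_44a246_ntNW.WB1

/-!
# Good reduction outside a finite set of primes (WB6, WB7)
-/

set_option autoImplicit false

open NumberField IsDedekindDomain Height MvPolynomial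
open Pool.Agent.Lib.MP_4d5ce1_nt (fa nv ordv)
open Pool.Agent.Lib.MP_44a246_ntNF
open Pool.Agent.Lib.MP_44a246_ntNU

namespace Pool.Agent.Lib.MP_44a246_ntNW

universe u

section Arith

variable {K : Type u} [Field K] [NumberField K] {m : ℕ}

private lemma sz_attained {E : Type*} [Field E] [NumberField E] (w : HeightOneSpectrum (𝓞 E))
    {x : Fin (m + 1) → E} (hx : x ≠ 0) : ∃ a, fa w (x a) = sz w x ∧ 0 < sz w x := by
  obtain ⟨a, ha⟩ := exists_eq_ciSup_of_finite (f := fun i => fa w (x i))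
  refine ⟨a, ha, ?_⟩
  obtain ⟨i, hi⟩ := Function.ne_iff.1 hx
  exact (Pool.Agent.Lib.MP_4d5ce1_nt.fa_pos w hi).trans_le
    (Finite.le_ciSup_of_le (f := fun i => fa w (x i)) i le_rfl)

private lemma fa_sum_lt' {E : Type*} [Field E] [NumberField E] (w : HeightOneSpectrum (𝓞 E))
    {ι : Type*} (s : Finset ι) (f : ι → E) (c : ℝ) (hc : 0 < c) (h : ∀ i ∈ s, fa w (f i) < c) :
    fa w (∑ i ∈ s, f i) < c :=
  Dec.fa_sum_lt w s f c hc h

private lemma fa_zero' {E : Type*} [Field E] [NumberField E] (w : HeightOneSpectrum (𝓞 E)) :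
    fa w (0 : E) = 0 := by
  unfold Pool.Agent.Lib.MP_4d5ce1_nt.fa
  exact map_zero (FinitePlace.mk w)

/-- WB6 : outside finitely many primes the forms `g (J i)` have no common zero on `X` -/
theorem good_ge {t q n : ℕ} (f : Fin t → MvPolynomial (Fin (m + 1)) K) (e : Fin t → ℕ)
    (hf : ∀ l, (f l).IsHomogeneous (e l)) {D : ℕ} (hD : 1 ≤ D)
    (g : Fin q → MvPolynomial (Fin (m + 1)) K) (hg : ∀ i, (g i).IsHomogeneous D)
    (h : ∀ J : Fin (n + 1) → Fin q, Function.Injective J →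
      ∀ x : Fin (m + 1) → AlgebraicClosure K, (∀ l, aeval x (f l) = 0) →
        (∀ i, aeval x (g (J i)) = 0) → x = 0) :
    ∃ S : Finset (HeightOneSpectrum (𝓞 K)), ∀ (E : Type u) [Field E] [NumberField E]
      [Algebra K E] (w : HeightOneSpectrum (𝓞 E)),
      w ∉ above K E (S : Set (HeightOneSpectrum (𝓞 K))) →
      ∀ J : Fin (n + 1) → Fin q, Function.Injective J → ∀ x : Fin (m + 1) → E,
        (∀ l, aeval x (f l) = 0) → x ≠ 0 → ∃ i, sz w x ^ D ≤ fa w (aeval x (g (J i))) := by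
  classical
  have key : ∀ J : {J : Fin (n + 1) → Fin q // Function.Injective J}, ∃ k : ℕ, D ≤ k ∧
      ∀ a : Fin (m + 1), ∃ B : Fin t ⊕ Fin (n + 1) → MvPolynomial (Fin (m + 1)) K,
        (∀ i, (B (Sum.inr i)).IsHomogeneous (k - D)) ∧
        (X a : MvPolynomial (Fin (m + 1)) K) ^ k =
          ∑ l, B l * Sum.elim f (fun i => g (J.1 i)) l := by
    intro J
    obtain ⟨M, hM⟩ := pow_mem_span (Sum.elim f (fun i => g (J.1 i))) (by
      intro x hx
      exact h J.1 J.2 x (fun l => hx (Sum.inl l)) (fun i => hx (Sum.inr i)))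
    refine ⟨max M D, le_max_right _ _, fun a => ?_⟩
    have ha : ((X a : MvPolynomial (Fin (m + 1)) K) ^ max M D).IsHomogeneous (max M D) := by
      have h1 := (isHomogeneous_X K a).pow (max M D)
      rwa [one_mul] at h1
    obtain ⟨B, hB1, -, hB3⟩ := exists_hom_coeffs (Sum.elim f (fun i => g (J.1 i)))
      (Sum.elim e (fun _ => D)) (by
        rintro (l | i)
        · exact hf l
        · exact hg _) ha (hM _ (le_max_left _ _) _ ha)
    exact ⟨B, fun i => hB1 (Sum.inr i) (le_max_right _ _), hB3⟩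
  choose k hk B hB hX using key
  obtain ⟨S, -, hS⟩ := exists_IntS (fun s : {J : Fin (n + 1) → Fin q // Function.Injective J} ×
    (Fin (m + 1) × Fin (n + 1)) => B s.1 s.2.1 (Sum.inr s.2.2)) ∅
  refine ⟨S, ?_⟩
  intro E _ _ _ w hw J hJ x hxf hx0
  obtain ⟨a, ha, hpos⟩ := sz_attained w hx0
  by_contra hcon
  push Not at hcon
  have h1 : aeval x ((X a : MvPolynomial (Fin (m + 1)) K) ^ k ⟨J, hJ⟩) =
      ∑ i, aeval x (B ⟨J, hJ⟩ a (Sum.inr i)) * aeval x (g (J i)) := by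
    rw [hX ⟨J, hJ⟩ a, map_sum, Fintype.sum_sum_type]
    have h2 : ∑ l, aeval x (B ⟨J, hJ⟩ a (Sum.inl l) *
        Sum.elim f (fun i => g (J i)) (Sum.inl l)) = 0 := by
      refine Finset.sum_eq_zero fun l _ => ?_
      rw [map_mul, Sum.elim_inl, hxf, mul_zero]
    rw [h2, zero_add]
    exact Finset.sum_congr rfl fun i _ => by rw [map_mul, Sum.elim_inr]
  rw [map_pow, aeval_X] at h1
  have h3 : fa w (x a ^ k ⟨J, hJ⟩) = sz w x ^ k ⟨J, hJ⟩ := by
    rw [Pool.Agent.Lib.MP_4d5ce1_nt.fa_pow, ha]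
  have h4 : fa w (∑ i, aeval x (B ⟨J, hJ⟩ a (Sum.inr i)) * aeval x (g (J i))) <
      sz w x ^ k ⟨J, hJ⟩ := by
    refine fa_sum_lt' w _ _ _ (pow_pos hpos _) fun i _ => ?_
    rw [Pool.Agent.Lib.MP_4d5ce1_nt.fa_mul]
    have h5 := fa_aeval_le (hS (⟨J, hJ⟩, a, i)) (hB ⟨J, hJ⟩ a i) hw x
    have h6 : sz w x ^ k ⟨J, hJ⟩ = sz w x ^ (k ⟨J, hJ⟩ - D) * sz w x ^ D := by
      rw [← pow_add, Nat.sub_add_cancel (hk _)]
    rw [h6]
    exact mul_lt_mul_of_le_of_lt_of_nonneg_of_pos h5 (hcon i)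
      (Pool.Agent.Lib.MP_4d5ce1_nt.fa_nonneg w _) (pow_pos hpos _)
  rw [← h1, h3] at h4
  exact lt_irrefl _ h4

/-- WB7 : reduction of the relations -/
theorem good_psi {t q : ℕ} (f : Fin t → MvPolynomial (Fin (m + 1)) K) (e : Fin t → ℕ)
    (hf : ∀ l, (f l).IsHomogeneous (e l)) {D : ℕ}
    (g : Fin q → MvPolynomial (Fin (m + 1)) K) (hg : ∀ i, (g i).IsHomogeneous D)
    (I : Finset (Fin q)) {k : ℕ} (Φ : MvPolynomial (Fin (m + 1)) K) (hΦ : Φ.IsHomogeneous k)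
    (h : Φ ∈ Ideal.span (Set.range f ∪ g '' (I : Set (Fin q)))) :
    ∃ S : Finset (HeightOneSpectrum (𝓞 K)), ∀ (E : Type u) [Field E] [NumberField E]
      [Algebra K E] (w : HeightOneSpectrum (𝓞 E)),
      w ∉ above K E (S : Set (HeightOneSpectrum (𝓞 K))) → ∀ x : Fin (m + 1) → E,
        (∀ l, aeval x (f l) = 0) → x ≠ 0 → (∀ j ∈ I, fa w (aeval x (g j)) < sz w x ^ D) →
          fa w (aeval x Φ) < sz w x ^ k := by
  classical
  have hr : Set.range (Sum.elim f (fun j : {j // j ∈ I} => g j.1)) =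
      Set.range f ∪ g '' (I : Set (Fin q)) := by
    rw [Set.Sum.elim_range]
    congr 1
    ext p
    constructor
    · rintro ⟨j, rfl⟩
      exact ⟨j.1, j.2, rfl⟩
    · rintro ⟨j, hj, rfl⟩
      exact ⟨⟨j, hj⟩, rfl⟩
  rw [← hr] at h
  obtain ⟨B, hB1, hB2, hB3⟩ := exists_hom_coeffs (Sum.elim f (fun j : {j // j ∈ I} => g j.1))
    (Sum.elim e (fun _ => D)) (by
      rintro (l | i)
      · exact hf l
      · exact hg _) hΦ h
  obtain ⟨S, -, hS⟩ := exists_IntS (fun j : {j // j ∈ I} => B (Sum.inr j)) ∅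
  refine ⟨S, ?_⟩
  intro E _ _ _ w hw x hxf hx0 hxg
  obtain ⟨a, ha, hpos⟩ := sz_attained w hx0
  have h1 : aeval x Φ = ∑ j : {j // j ∈ I}, aeval x (B (Sum.inr j)) * aeval x (g j.1) := by
    rw [hB3, map_sum, Fintype.sum_sum_type]
    have h2 : ∑ l, aeval x (B (Sum.inl l) *
        Sum.elim f (fun j : {j // j ∈ I} => g j.1) (Sum.inl l)) = 0 := by
      refine Finset.sum_eq_zero fun l _ => ?_
      rw [map_mul, Sum.elim_inl, hxf, mul_zero]
    rw [h2, zero_add]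
    exact Finset.sum_congr rfl fun i _ => by rw [map_mul, Sum.elim_inr]
  rw [h1]
  refine fa_sum_lt' w _ _ _ (pow_pos hpos _) fun j _ => ?_
  rcases Nat.lt_or_ge k D with hkD | hkD
  · rw [hB2 (Sum.inr j) hkD, map_zero, zero_mul, fa_zero']
    exact pow_pos hpos _
  · rw [Pool.Agent.Lib.MP_4d5ce1_nt.fa_mul]
    have h5 := fa_aeval_le (hS j) (hB1 (Sum.inr j) hkD) hw x
    have h6 : sz w x ^ k = sz w x ^ (k - D) * sz w x ^ D := by
      rw [← pow_add, Nat.sub_add_cancel hkD]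
    rw [h6]
    exact mul_lt_mul_of_le_of_lt_of_nonneg_of_pos h5 (hxg j.1 j.2)
      (Pool.Agent.Lib.MP_4d5ce1_nt.fa_nonneg w _) (pow_pos hpos _)

end Arith

end Pool.Agent.Lib.MP_44a246_ntNW
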