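import Pool.Agent.Lib.MP_44a246_ntNW.Family
import Pool.Agent.Lib.MP_44a246_ntNW.Generic
import Pool.Agent.Lib.MP_44a246_ntNW.Engine
import Pool.Agent.Lib.MP_44a246_ntNW.WA4
import Pool.Agent.Lib.MP_44a246_ntNW.WA5
import Pool.Agent.Lib.MP_44a246_ntNW.WA6
import Pool.Agent.Lib.MP_44a246_ntNW.WB1
import Pool.Agent.Lib.MP_44a246_ntNW.WB23
import Pool.Agent.Lib.MP_44a246_ntNW.WB4
import Pool.Agent.Lib.MP_44a246_ntNW.WB5
import Pool.Agent.Lib.MP_44a246_ntNW.WB67
import Pool.Agent.Lib.MP_44a246_ntNW.WC2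

set_option autoImplicit false

open NumberField IsDedekindDomain Height MvPolynomial
open Pool.Agent.Lib.MP_4d5ce1_nt (fa nv ordv fa_nonneg fa_pos fa_pow fa_div)
open Pool.Agent.Lib.MP_44a246_ntNF
open Pool.Agent.Lib.MP_44a246_ntNU

namespace Pool.Agent.Lib.MP_44a246_ntNW

universe u

theorem IntS.mono {K : Type u} [Field K] [NumberField K] {m : ℕ}
    {S S' : Finset (HeightOneSpectrum (𝓞 K))} (h : S ⊆ S') {p : MvPolynomial (Fin (m + 1)) K}
    (hp : IntS S p) : IntS S' p := fun v hv μ hμ => hp v (fun h' => hv (h h')) μ hμ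

theorem above_mono {K E : Type*} [Field K] [NumberField K] [Field E] [NumberField E] [Algebra K E]
    {S S' : Set (HeightOneSpectrum (𝓞 K))} (h : S ⊆ S') : above K E S ⊆ above K E S' := by
  rintro w ⟨v, hv, hw⟩
  exact ⟨v, h hv, hw⟩

theorem szp {E : Type*} [Field E] [NumberField E] {m : ℕ} (w : HeightOneSpectrum (𝓞 E))
    {x : Fin (m + 1) → E} (hx : x ≠ 0) : 0 < sz w x := by
  obtain ⟨i, hi⟩ := Function.ne_iff.mp hx
  exact (fa_pos w hi).trans_le
    (le_ciSup (f := fun i => fa w (x i)) (Set.finite_range _).bddAbove i)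

theorem mem_PTx {K : Type u} [Field K] [NumberField K] {m q : ℕ} {E : Type u} [Field E]
    [NumberField E] [Algebra K E] {G : Fin q → MvPolynomial (Fin (m + 1)) K} {d : Fin q → ℕ}
    {x : Fin (m + 1) → E} {w : HeightOneSpectrum (𝓞 E)} {j : Fin q} :
    j ∈ PT G d x w ↔ fa w (aeval x (G j)) < sz w x ^ d j := by
  classical
  unfold PT
  simp

theorem mem_PT_pow {K : Type u} [Field K] [NumberField K] {m q : ℕ} {E : Type u} [Field E]
    [NumberField E] [Algebra K E] {G : Fin q → MvPolynomial (Fin (m + 1)) K} {d : Fin q → ℕ}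
    {k : Fin q → ℕ} (hk : ∀ j, 1 ≤ k j) {D : ℕ} (hD : ∀ j, d j * k j = D)
    {x : Fin (m + 1) → E} (hx : x ≠ 0) {w : HeightOneSpectrum (𝓞 E)} {j : Fin q} :
    j ∈ PT G d x w ↔ fa w (aeval x (G j ^ k j)) < sz w x ^ D := by
  rw [mem_PTx, map_pow, fa_pow, ← hD j, pow_mul]
  rw [pow_lt_pow_iff_left₀ (fa_nonneg w _) (pow_pos (szp w hx) _).le
    (by have := hk j; omega)]

/-- The counting theorem on `X`, for all extensions of degree at most `r`. -/
theorem count_X {K : Type u} [Field K] [NumberField K] {m t n q : ℕ} (hn : 1 ≤ n) (hq : n + 1 ≤ q)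
    (f : Fin t → MvPolynomial (Fin (m + 1)) K) (e : Fin t → ℕ)
    (hf : ∀ l, (f l).IsHomogeneous (e l))
    (G : Fin q → MvPolynomial (Fin (m + 1)) K) (d : Fin q → ℕ) (hd : ∀ j, 1 ≤ d j)
    (hG : ∀ j, (G j).IsHomogeneous (d j))
    (h : ∀ J : Fin (n + 1) → Fin q, Function.Injective J →
      ∀ x : Fin (m + 1) → AlgebraicClosure K, (∀ l, aeval x (f l) = 0) →
        (∀ i, aeval x (G (J i)) = 0) → x = 0) :
    ∃ Φ : Unch n q → MvPolynomial (Fin (m + 1)) K,
      (∀ p, (∃ k, (Φ p).IsHomogeneous k) ∧ SmallLocus K n f (Φ p)) ∧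
      ∀ (S₀ : Set (HeightOneSpectrum (𝓞 K))), S₀.Finite → ∀ (α β : ℝ), 0 ≤ α → 0 ≤ β →
      (∀ s : ℕ, 1 ≤ s → s ≤ n → 1 - (((q + s - n - 2).choose s : ℕ) : ℝ) /
        ((q.choose s : ℕ) : ℝ) ≤ α + β * s) → ∀ r : ℕ,
      CountHyp (K := K) (m := m) (fun _E _ _ _ P => (∀ l, aeval P.rep (f l) = 0) ∧
          (∀ j, aeval P.rep (G j) ≠ 0) ∧ ∀ p, aeval P.rep (Φ p) ≠ 0)
        (fun _E _ _ _ P => trCount S₀ G d P.rep) α (β * ∑ j, (d j : ℝ)) r := by
  classical
  set D : ℕ := ∏ j, d j with hD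
  have hD1 : 1 ≤ D := Nat.succ_le_of_lt (Finset.prod_pos (fun j _ => hd j))
  have hdvd : ∀ j, d j ∣ D := fun j => Finset.dvd_prod_of_mem d (Finset.mem_univ j)
  set k : Fin q → ℕ := fun j => D / d j with hk
  have hkD : ∀ j, d j * k j = D := fun j => Nat.mul_div_cancel' (hdvd j)
  have hk1 : ∀ j, 1 ≤ k j := by
    intro j
    rcases Nat.eq_zero_or_pos (k j) with h0 | h0
    · have := hkD j
      rw [h0] at this
      omega
    · exact h0
  set g : Fin q → MvPolynomial (Fin (m + 1)) K := fun j => G j ^ k j with hg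
  have hgh : ∀ j, (g j).IsHomogeneous D := fun j => by
    have := (hG j).pow (k j)
    rwa [hkD j] at this
  have hgz : ∀ J : Fin (n + 1) → Fin q, Function.Injective J →
      ∀ x : Fin (m + 1) → AlgebraicClosure K, (∀ l, aeval x (f l) = 0) →
        (∀ i, aeval x (g (J i)) = 0) → x = 0 := by
    intro J hJ x hfx hgx
    refine h J hJ x hfx (fun i => ?_)
    have h1 := hgx i
    simp only [hg, map_pow] at h1
    exact (pow_eq_zero_iff (by have := hk1 (J i); omega)).mp h1
  -- the family of forms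
  have hrel : ∀ p : Unch n q, ∃ (T : ℕ) (Ψ : MvPolynomial (Fin (n + 1)) K), Ψ ≠ 0 ∧
      Ψ.IsHomogeneous T ∧ (∀ i ∈ Ψ.vars, i.val + p.1.2.card ≤ n + 1) ∧
      aeval (fun i => g (p.1.1 i)) Ψ ∈
        Ideal.span (Set.range f ∪ g '' (p.1.2 : Set (Fin q))) := fun p =>
    exists_relation f e hf hD1 g hgh hgz p.1.1 p.2.1 p.1.2 p.2.2.1 p.2.2.2.1 p.2.2.2.2
  choose T Ψ hΨ0 hΨT hΨv hΨI using hrel
  set Φ : Unch n q → MvPolynomial (Fin (m + 1)) K :=
    fun p => aeval (fun i => g (p.1.1 i)) (Ψ p) with hΦ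
  have hΦh : ∀ p, (Φ p).IsHomogeneous (D * T p) := fun p => (hΨT p).aeval _ (fun i => hgh _)
  refine ⟨Φ, fun p => ⟨⟨_, hΦh p⟩, ?_⟩, ?_⟩
  · exact small_locus hn f e hf hD1 (fun i => g (p.1.1 i)) (fun i => hgh _)
      (hgz p.1.1 p.2.1) (T p) (Ψ p) (hΨ0 p) (hΨT p)
  intro S₀ hS₀ α β hα hβ hs r η hη
  -- the trivial case
  by_cases hG0 : ∀ j, G j ≠ 0
  swap
  · push Not at hG0
    obtain ⟨j, hj⟩ := hG0
    refine ⟨1, one_pos, ?_⟩
    intro E _ _ _ _ B M hB hM X hX
    have hXe : X = ∅ := by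
      rw [Finset.eq_empty_iff_forall_notMem]
      intro P hP
      exact (hX P hP).1.2.1 j (by rw [hj, map_zero])
    subst hXe
    rw [Finset.card_empty, Nat.cast_zero]
    positivity
  -- the bad primes
  obtain ⟨S1, hS01, hS1⟩ := exists_IntS G hS₀.toFinset
  obtain ⟨S2, hS2⟩ := good_ge f e hf hD1 g hgh hgz
  have hS3' := fun p : Unch n q => good_psi f e hf g hgh p.1.2 (Φ p) (hΦh p) (hΨI p)
  choose S3 hS3 using hS3'
  set S : Finset (HeightOneSpectrum (𝓞 K)) := S1 ∪ (S2 ∪ Finset.univ.biUnion S3) with hS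
  have hS1S : S1 ⊆ S := Finset.subset_union_left
  have hS2S : S2 ⊆ S := Finset.subset_union_left.trans Finset.subset_union_right
  have hS3S : ∀ p, S3 p ⊆ S := fun p =>
    (Finset.subset_biUnion_of_mem S3 (Finset.mem_univ p)).trans
      (Finset.subset_union_right.trans Finset.subset_union_right)
  have hSG : ∀ j, IntS S (G j) := fun j => (hS1 j).mono hS1S
  have hS0S : S₀ ⊆ (S : Set (HeightOneSpectrum (𝓞 K))) := by
    intro v hv
    exact hS1S (hS01 (by simpa using hv))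
  -- finite fibres
  have hfib' := fun J : {J : Fin (n + 1) → Fin q // Function.Injective J} =>
    finite_fibres f e hf hD1 (fun i => g (J.1 i)) (fun i => hgh _) (hgz J.1 J.2)
  choose NJ hNJ using hfib'
  set N₀ : ℕ := ∑ J, NJ J with hN₀
  -- heights
  obtain ⟨CA, hCA1, hCA⟩ := height_quot_le r (fun p : Fin q × Fin q => g p.1) (fun p => g p.2)
    (fun _ => D) (fun p => hgh _) (fun p => hgh _)
  obtain ⟨CB, hCB1, hCB⟩ := height_quot_le r (fun p : Unch n q => Φ p)
    (fun p => g (p.1.1 0) ^ T p) (fun p => D * T p) hΦh (fun p => (hgh _).pow _)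
  set κ : ℕ := D + D * ∑ p, T p with hκ
  set CE : ℝ := CA * CB with hCE
  have hCE1 : 1 ≤ CE := by rw [hCE]; nlinarith
  have hCAE : CA ≤ CE := by rw [hCE]; nlinarith
  have hCBE : CB ≤ CE := by rw [hCE]; nlinarith
  obtain ⟨C2, hC2, hcardRP⟩ := sum_card_RP_le r hG hSG
  set d' : ℕ := Module.finrank ℚ K * r with hd'
  set σ : ℝ := β * ∑ j, (d j : ℝ) with hσ
  have hsd0 : 0 ≤ ∑ j, (d j : ℝ) := Finset.sum_nonneg (fun j _ => Nat.cast_nonneg _)
  have hσ0 : 0 ≤ σ := by positivity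
  set η' : ℝ := η / (2 * (κ + 1)) with hη'
  have hη'p : 0 < η' := by positivity
  set η1 : ℝ := η / (2 * (α + σ + 1)) with hη1
  have hη1p : 0 < η1 := by positivity
  obtain ⟨C3, hC3, hdec⟩ := decode.{u} d' (r * S.card) n q η' hη'p
  obtain ⟨C1, hC1, heng⟩ := engine.{u} d' n q hq α β hα hβ hs η1 hη1p
  set D0 : ℝ := Real.exp (β * C2) with hD0
  refine ⟨C1 * D0 ^ (1 + η1) * (C3 * N₀ * CE ^ η') + 1, by positivity, ?_⟩
  intro E _ _ _ hE B M hB hM X hX
  have hdE : Module.finrank ℚ E ≤ d' := by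
    rw [← Module.finrank_mul_finrank ℚ K E]
    exact Nat.mul_le_mul_left _ hE
  obtain ⟨S', hS', hS'c⟩ := above_finset E S
  have hS'c' : S'.card ≤ r * S.card := hS'c.trans (Nat.mul_le_mul_right _ hE)
  have hB0 : 0 < B := by linarith
  have hM0 : 0 < M := by linarith
  have hlB : 0 ≤ Real.log B := Real.log_nonneg hB
  have hlM : 0 ≤ Real.log M := Real.log_nonneg hM
  have hcardRPE := hcardRP E hE S' hS'
  have hab : ∀ w, w ∉ S' → w ∉ above K E (S : Set (HeightOneSpectrum (𝓞 K))) := by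
    intro w hw
    rw [← hS']
    exact hw
  -- facts about the points
  have hrep0 : ∀ P : Projectivization E (Fin (m + 1) → E), P.rep ≠ 0 := fun P => P.rep_nonzero
  have hfin : ∀ P ∈ X, ∀ I : Finset (Fin q), I.Nonempty →
      {w : HeightOneSpectrum (𝓞 E) | w ∉ S' ∧ PT G d P.rep w = I}.Finite := by
    intro P hP I hI
    exact (finite_PT G d (hX P hP).1.2.1 (hrep0 P) hI).subset (fun w hw => hw.2)
  have hgne : ∀ P ∈ X, ∀ j, aeval P.rep (g j) ≠ 0 := by
    intro P hP j
    simp only [hg, map_pow]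
    exact pow_ne_zero _ ((hX P hP).1.2.1 j)
  have hnot : ∀ P ∈ X, ∀ w ∉ S', ∀ j ∉ PT G d P.rep w,
      fa w (aeval P.rep (g j)) = sz w P.rep ^ D := by
    intro P hP w hw j hj
    rw [mem_PTx, not_lt] at hj
    have h1 : fa w (aeval P.rep (G j)) = sz w P.rep ^ d j :=
      le_antisymm (fa_aeval_le (hSG j) (hG j) (hab w hw) P.rep) hj
    simp only [hg, map_pow]
    rw [fa_pow, h1, ← pow_mul, hkD j]
  have hin : ∀ P ∈ X, ∀ w, ∀ j ∈ PT G d P.rep w,
      fa w (aeval P.rep (g j)) < sz w P.rep ^ D := by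
    intro P hP w j hj
    exact (mem_PT_pow hk1 hkD (hrep0 P)).mp hj
  have hcard : ∀ P ∈ X, ∀ w ∉ S', (PT G d P.rep w).card ≤ n := by
    intro P hP w hw
    by_contra hlt
    rw [not_le] at hlt
    have hlt' : n + 1 ≤ (PT G d P.rep w).card := hlt
    obtain ⟨J, hJ⟩ : ∃ J : Fin (n + 1) ↪ Fin q, ∀ i, J i ∈ PT G d P.rep w := by
      obtain ⟨U, hU1, hU2⟩ := Finset.exists_subset_card_eq hlt'
      refine ⟨(U.orderEmbOfFin hU2).toEmbedding, fun i => hU1 ?_⟩
      exact Finset.orderEmbOfFin_mem U hU2 i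
    have hw2 : w ∉ above K E (S2 : Set (HeightOneSpectrum (𝓞 K))) := fun h' =>
      hab w hw (above_mono (by exact_mod_cast hS2S) h')
    obtain ⟨i, hi⟩ := hS2 E w hw2 J J.injective P.rep (hX P hP).1.1 (hrep0 P)
    exact absurd (hin P hP w (J i) (hJ i)) (not_lt.mpr hi)
  have hT1 : 1 ≤ CE * B ^ κ * M := by
    have h1 : 1 ≤ B ^ κ := one_le_pow₀ hB
    have h2 : 1 ≤ CE * B ^ κ := by nlinarith
    nlinarith
  have hT0 : 0 < CE * B ^ κ * M := by linarith
  have hmh : ∀ P ∈ X, 1 ≤ mulHeight P.rep ∧ mulHeight P.rep ≤ B := by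
    intro P hP
    refine ⟨one_le_mulHeight _, ?_⟩
    rw [← (rep_heights P).1]
    exact (hX P hP).2.1
  have hpowB : ∀ P ∈ X, ∀ a ≤ κ, ∀ c ≤ CE, 0 ≤ c → c * mulHeight P.rep ^ a ≤ CE * B ^ κ * M := by
    intro P hP a ha c hc hc0
    obtain ⟨g1, g2⟩ := hmh P hP
    have g3 : mulHeight P.rep ^ a ≤ B ^ κ :=
      (pow_le_pow_left₀ (by linarith) g2 a).trans (pow_le_pow_right₀ hB ha)
    have g4 : 0 ≤ mulHeight P.rep ^ a := pow_nonneg (by linarith) _
    have g5 : c * mulHeight P.rep ^ a ≤ CE * B ^ κ := mul_le_mul hc g3 g4 (by linarith)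
    have g6 : 0 ≤ CE * B ^ κ := by positivity
    nlinarith
  -- the sum of the logarithms
  have hsum1 : ∀ P ∈ X, ∑ I ∈ (Finset.univ : Finset (Finset (Fin q))).filter
      (fun I => I.Nonempty), Real.log (NN (RP (PT G d P.rep) S' I)) ≤ Real.log M := by
    intro P hP
    exact (sum_log_RP_le hG0 hSG hS0S S' hS' (hX P hP).1.2.1 (hrep0 P)).trans (hX P hP).2.2
  have hNNM : ∀ P ∈ X, ∀ I : Finset (Fin q), I.Nonempty →
      NN (RP (PT G d P.rep) S' I) ≤ M := by
    intro P hP I hI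
    have h1 : Real.log (NN (RP (PT G d P.rep) S' I)) ≤ Real.log M := by
      refine le_trans ?_ (hsum1 P hP)
      apply Finset.single_le_sum (f := fun I => Real.log (NN (RP (PT G d P.rep) S' I)))
        (fun I _ => Real.log_nonneg (one_le_NN _))
      simp [hI]
    exact (Real.log_le_log_iff (NN_pos _) hM0).mp h1
  set H : ℝ := Real.exp C2 * B ^ (∑ j, (d j : ℝ)) with hH
  have hBsd : 1 ≤ B ^ (∑ j, (d j : ℝ)) := Real.one_le_rpow hB hsd0
  have hH1 : 1 ≤ H := by
    have : 1 ≤ Real.exp C2 := Real.one_le_exp hC2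
    rw [hH]
    nlinarith
  have hsum2 : ∀ P ∈ X, ∑ I ∈ (Finset.univ : Finset (Finset (Fin q))).filter
      (fun I => I.Nonempty), (I.card : ℝ) * Real.log (NN (RP (PT G d P.rep) S' I)) ≤
        Real.log H := by
    intro P hP
    refine (hcardRPE P.rep (hX P hP).1.2.1 (hrep0 P)).trans ?_
    have h1 : logHeight P.rep ≤ Real.log B := by
      rw [logHeight_eq_log_mulHeight]
      exact Real.log_le_log (mulHeight_pos _) (hmh P hP).2
    rw [hH, Real.log_mul (Real.exp_pos _).ne' (by positivity), Real.log_exp, Real.log_rpow hB0]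
    have h2 := mul_le_mul_of_nonneg_left h1 hsd0
    linarith
  -- decoding
  have hA0 : 0 ≤ C3 * N₀ * (CE * B ^ κ * M) ^ η' := by positivity
  have hmain := heng E hdE (Projectivization E (Fin (m + 1) → E)) X
    (fun P I => RP (PT G d P.rep) S' I) M H (C3 * N₀ * (CE * B ^ κ * M) ^ η') hM hH1 hA0
    (by
      intro P hP I hI
      unfold RP
      split_ifs with hf1
      · rw [Finset.eq_empty_iff_forall_notMem]
        intro w hw
        rw [Set.Finite.mem_toFinset] at hw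
        have h1 := hcard P hP w hw.1
        rw [hw.2] at h1
        omega
      · rfl) hsum1 hsum2
    (by
      intro J hJ X' hX' hcom
      set z : Finset (Fin q) → Projectivization E (Fin (m + 1) → E) → E := fun I P =>
        if hp : Function.Injective J ∧ I.Nonempty ∧ I.card ≤ n ∧
            ∀ i : Fin (n + 1), i.val + I.card ≤ n + 1 → J i ∉ I then
          aeval P.rep (Φ ⟨(J, I), hp⟩) / aeval P.rep (g (J 0) ^ T ⟨(J, I), hp⟩) else 1 with hz
      refine hdec E hdE S' hS'c' J hJ (Projectivization E (Fin (m + 1) → E)) X'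
        (fun P => PT G d P.rep) (fun P j => aeval P.rep (g j)) z (CE * B ^ κ * M) N₀ hT1
        (fun P hP => hgne P (hX' hP)) ?_ (fun P hP => hfin P (hX' hP))
        (fun P hP => hcard P (hX' hP)) ?_ ?_ ?_ ?_ ?_ ?_ ?_ ?_ hcom
      · -- z ≠ 0
        intro P hP I
        simp only [hz]
        split_ifs with hp
        · refine div_ne_zero ((hX P (hX' hP)).1.2.2 _) ?_
          rw [map_pow]
          exact pow_ne_zero _ (hgne P (hX' hP) _)
        · exact one_ne_zero
      · intro P hP w hw i j hi hj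
        rw [fa_div, hnot P (hX' hP) w hw i hi, hnot P (hX' hP) w hw j hj]
        exact div_self (pow_pos (szp w (hrep0 P)) _).ne'
      · intro P hP w hw i j hi hj
        rw [fa_div, hnot P (hX' hP) w hw j hj, div_lt_one (pow_pos (szp w (hrep0 P)) _)]
        exact hin P (hX' hP) w i hi
      · intro P hP w hw I hI hIn hIJ hpt
        have hp : Function.Injective J ∧ I.Nonempty ∧ I.card ≤ n ∧
            ∀ i : Fin (n + 1), i.val + I.card ≤ n + 1 → J i ∉ I := ⟨hJ, hI, hIn, hIJ⟩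
        simp only [hz, dif_pos hp]
        have h0 : J 0 ∉ PT G d P.rep w := by
          rw [hpt]
          exact hIJ 0 (by simp; omega)
        rw [fa_div, map_pow, fa_pow, hnot P (hX' hP) w hw (J 0) h0, ← pow_mul,
          div_lt_one (pow_pos (szp w (hrep0 P)) _)]
        have hw3 : w ∉ above K E (S3 ⟨(J, I), hp⟩ : Set (HeightOneSpectrum (𝓞 K))) := fun h' =>
          hab w hw (above_mono (by exact_mod_cast hS3S ⟨(J, I), hp⟩) h')
        refine hS3 ⟨(J, I), hp⟩ E w hw3 P.rep (hX P (hX' hP)).1.1 (hrep0 P) ?_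
        intro j hj
        exact hin P (hX' hP) w j (by rw [hpt]; exact hj)
      · intro P hP Q hQ I hI hIn hIJ hPQ
        have hp : Function.Injective J ∧ I.Nonempty ∧ I.card ≤ n ∧
            ∀ i : Fin (n + 1), i.val + I.card ≤ n + 1 → J i ∉ I := ⟨hJ, hI, hIn, hIJ⟩
        simp only [hz, dif_pos hp]
        have key : ∀ P : Projectivization E (Fin (m + 1) → E), aeval P.rep (g (J 0)) ≠ 0 →
            aeval P.rep (Φ ⟨(J, I), hp⟩) / aeval P.rep (g (J 0) ^ T ⟨(J, I), hp⟩) =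
            aeval (fun i => aeval P.rep (g (J i)) / aeval P.rep (g (J 0)))
              (Ψ ⟨(J, I), hp⟩) := by
          intro P hP0
          rw [map_pow, ← aeval_div (hΨT ⟨(J, I), hp⟩) (fun i => aeval P.rep (g (J i))) hP0]
          congr 1
          simp only [hΦ]
          exact (MvPolynomial.comp_aeval_apply (fun i => g (J i)) (aeval P.rep)
            (Ψ ⟨(J, I), hp⟩))
        rw [key P (hgne P (hX' hP) _), key Q (hgne Q (hX' hQ) _)]
        apply aeval_congr_vars
        intro i hi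
        exact hPQ i (hΨv ⟨(J, I), hp⟩ i hi)
      · intro P hP i j
        refine (hCA E hE (i, j) P.rep (hrep0 P)).trans ?_
        exact hpowB P (hX' hP) D (Nat.le_add_right _ _) CA hCAE (by linarith)
      · intro P hP I
        simp only [hz]
        split_ifs with hp
        · refine (hCB E hE ⟨(J, I), hp⟩ P.rep (hrep0 P)).trans ?_
          refine hpowB P (hX' hP) _ ?_ CB hCBE (by linarith)
          refine le_trans (Nat.mul_le_mul_left D ?_) (Nat.le_add_left _ _)
          exact Finset.single_le_sum (f := T) (fun p _ => Nat.zero_le _) (Finset.mem_univ _)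
        · rw [mulHeight₁_one]
          exact hT1
      · intro P hP I hI
        refine (hNNM P (hX' hP) I hI).trans ?_
        have h1 : 1 ≤ B ^ κ := one_le_pow₀ hB
        have h2 : 1 ≤ CE * B ^ κ := by nlinarith
        nlinarith
      · intro X'' hX'' hratio
        have h1 := hNJ ⟨J, hJ⟩ E (X''.image (fun P => P.rep)) ?_ ?_ ?_
        · rw [Finset.card_image_of_injective _ rep_injective] at h1
          refine h1.trans ?_
          exact Finset.single_le_sum (f := NJ) (fun p _ => Nat.zero_le _) (Finset.mem_univ _)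
        · intro x hx
          rw [Finset.mem_image] at hx
          obtain ⟨P, hP, rfl⟩ := hx
          exact ⟨(hX P (hX' (hX'' hP))).1.1, hgne P (hX' (hX'' hP)) _⟩
        · intro x hx y hy hne c
          rw [Finset.mem_image] at hx hy
          obtain ⟨P, hP, rfl⟩ := hx
          obtain ⟨Q, hQ, rfl⟩ := hy
          exact rep_ne_smul (fun h => hne (by rw [h])) c
        · intro x hx y hy i
          rw [Finset.mem_image] at hx hy
          obtain ⟨P, hP, rfl⟩ := hx
          obtain ⟨Q, hQ, rfl⟩ := hy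
          exact hratio P hP Q hQ i)
  -- the final estimate
  refine hmain.trans ?_
  have hBM1 : 1 ≤ B * M := by nlinarith
  have hBM0 : 0 < B * M := by linarith
  have hBBM : B ≤ B * M := by nlinarith
  have hMBM : M ≤ B * M := by nlinarith
  have hY0 : 0 < M ^ α * B ^ σ := by positivity
  have p0 : M ^ α * H ^ β = D0 * (M ^ α * B ^ σ) := by
    have : H ^ β = D0 * B ^ σ := by
      rw [hH, Real.mul_rpow (Real.exp_pos _).le (by positivity), ← Real.rpow_mul hB0.le, hD0, hσ,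
        ← Real.exp_mul, mul_comm C2 β, mul_comm β (∑ j, (d j : ℝ))]
    rw [this]
    ring
  have p1 : (M ^ α * H ^ β) ^ (1 + η1) = D0 ^ (1 + η1) * ((M ^ α * B ^ σ) *
      (M ^ α * B ^ σ) ^ η1) := by
    rw [p0, Real.mul_rpow (Real.exp_pos _).le hY0.le, Real.rpow_add hY0, Real.rpow_one]
  have p3 : (M ^ α * B ^ σ) ^ η1 ≤ (B * M) ^ (η / 2) := by
    have q1 : M ^ α * B ^ σ ≤ (B * M) ^ (α + σ) := by
      rw [Real.rpow_add hBM0]
      exact mul_le_mul (Real.rpow_le_rpow hM0.le hMBM hα)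
        (Real.rpow_le_rpow hB0.le hBBM hσ0) (by positivity) (by positivity)
    calc (M ^ α * B ^ σ) ^ η1 ≤ ((B * M) ^ (α + σ)) ^ η1 :=
          Real.rpow_le_rpow hY0.le q1 hη1p.le
      _ = (B * M) ^ ((α + σ) * η1) := by rw [← Real.rpow_mul hBM0.le]
      _ ≤ (B * M) ^ (η / 2) := by
          apply Real.rpow_le_rpow_of_exponent_le hBM1
          rw [hη1, mul_div_assoc', div_le_div_iff₀ (by positivity) (by norm_num)]
          nlinarith
  have p4 : (CE * B ^ κ * M) ^ η' ≤ CE ^ η' * (B * M) ^ (η / 2) := by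
    have q1 : B ^ κ * M ≤ (B * M) ^ ((κ : ℝ) + 1) := by
      rw [Real.rpow_add hBM0, Real.rpow_one, Real.rpow_natCast]
      exact mul_le_mul (pow_le_pow_left₀ hB0.le hBBM κ) hMBM hM0.le (by positivity)
    rw [mul_assoc, Real.mul_rpow (by linarith) (by positivity)]
    apply mul_le_mul_of_nonneg_left _ (by positivity)
    calc (B ^ κ * M) ^ η' ≤ ((B * M) ^ ((κ : ℝ) + 1)) ^ η' :=
          Real.rpow_le_rpow (by positivity) q1 hη'p.le
      _ = (B * M) ^ (((κ : ℝ) + 1) * η') := by rw [← Real.rpow_mul hBM0.le]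
      _ = (B * M) ^ (η / 2) := by
          congr 1
          rw [hη']
          field_simp
  have p5 : (B * M) ^ η = (B * M) ^ (η / 2) * (B * M) ^ (η / 2) := by
    rw [← Real.rpow_add hBM0]
    congr 1
    ring
  rw [p1, p5]
  have hh0 : 0 ≤ (B * M) ^ (η / 2) := by positivity
  calc C1 * (D0 ^ (1 + η1) * (M ^ α * B ^ σ * (M ^ α * B ^ σ) ^ η1)) *
        (C3 * N₀ * (CE * B ^ κ * M) ^ η')
      ≤ C1 * (D0 ^ (1 + η1) * (M ^ α * B ^ σ * (B * M) ^ (η / 2))) *
        (C3 * N₀ * (CE ^ η' * (B * M) ^ (η / 2))) := by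
        apply mul_le_mul
        · apply mul_le_mul_of_nonneg_left _ hC1.le
          apply mul_le_mul_of_nonneg_left _ (by positivity)
          exact mul_le_mul_of_nonneg_left p3 hY0.le
        · exact mul_le_mul_of_nonneg_left p4 (by positivity)
        · positivity
        · positivity
    _ = (C1 * D0 ^ (1 + η1) * (C3 * N₀ * CE ^ η')) * (M ^ α * B ^ σ) *
        ((B * M) ^ (η / 2) * (B * M) ^ (η / 2)) := by ring
    _ ≤ (C1 * D0 ^ (1 + η1) * (C3 * N₀ * CE ^ η') + 1) * (M ^ α * B ^ σ) *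
        ((B * M) ^ (η / 2) * (B * M) ^ (η / 2)) := by
        apply mul_le_mul_of_nonneg_right _ (by positivity)
        apply mul_le_mul_of_nonneg_right _ hY0.le
        linarith
    _ = _ := by ring

end Pool.Agent.Lib.MP_44a246_ntNW
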