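import Pool.Agent.Lib.MP_44a246_ntNW.Tools

set_option autoImplicit false

open NumberField IsDedekindDomain Height MvPolynomial
open Pool.Agent.Lib.MP_4d5ce1_nt (fa nv ordv)
open Pool.Agent.Lib.MP_44a246_ntNF
open Pool.Agent.Lib.MP_44a246_ntNU

namespace Pool.Agent.Lib.MP_44a246_ntNW

universe u

/-- The pairs (order, pattern) such that the pattern contains none of the first elements. -/
def Unch (n q : ℕ) : Type :=
  {p : (Fin (n + 1) → Fin q) × Finset (Fin q) // Function.Injective p.1 ∧ p.2.Nonempty ∧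
    p.2.card ≤ n ∧ ∀ i : Fin (n + 1), i.val + p.2.card ≤ n + 1 → p.1 i ∉ p.2}

noncomputable instance (n q : ℕ) : Fintype (Unch n q) := by
  classical
  unfold Unch
  exact Subtype.fintype _

theorem two_le_of_unch {n q : ℕ} (p : Unch n q) : n + 2 ≤ q := by
  classical
  obtain ⟨⟨J, I⟩, hJ, hI, hIn, hIJ⟩ := p
  simp only at hJ hI hIn hIJ
  have hI1 : 1 ≤ I.card := Finset.card_pos.mpr hI
  set A : Finset (Fin (n + 1)) := Finset.univ.filter (fun i => i.val + I.card ≤ n + 1) with hA
  have h1 : A.card = n + 2 - I.card := by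
    have e : A = (Finset.univ : Finset (Fin (n + 2 - I.card))).map
        (Fin.castLEEmb (by omega : n + 2 - I.card ≤ n + 1)) := by
      ext i
      rw [hA, Finset.mem_filter, Finset.mem_map]
      constructor
      · rintro ⟨_, h⟩
        exact ⟨⟨i.val, by omega⟩, Finset.mem_univ _, by ext; rfl⟩
      · rintro ⟨j, _, rfl⟩
        refine ⟨Finset.mem_univ _, ?_⟩
        have := j.2
        simp only [Fin.castLEEmb_apply, Fin.val_castLE]
        omega
    rw [e, Finset.card_map, Finset.card_univ, Fintype.card_fin]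
  have h2 : Disjoint (A.image J) I := by
    rw [Finset.disjoint_left]
    intro j hj
    rw [Finset.mem_image] at hj
    obtain ⟨i, hi, rfl⟩ := hj
    exact hIJ i (Finset.mem_filter.mp hi).2
  have h3 : (A.image J ∪ I).card = (n + 2 - I.card) + I.card := by
    rw [Finset.card_union_of_disjoint h2, Finset.card_image_of_injective _ hJ, h1]
  have h4 : (A.image J ∪ I).card ≤ q := by
    simpa using Finset.card_le_univ (A.image J ∪ I)
  omega

/-- Dehomogenisation. -/
theorem aeval_div {K E : Type*} [Field K] [Field E] [Algebra K E] {k T : ℕ}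
    {Ψ : MvPolynomial (Fin k) K} (h : Ψ.IsHomogeneous T) (a : Fin k → E) {b : E} (hb : b ≠ 0) :
    aeval a Ψ / b ^ T = aeval (fun i => a i / b) Ψ := by
  rw [div_eq_iff (pow_ne_zero _ hb), aeval_def, aeval_def, eval₂_eq', eval₂_eq', Finset.sum_mul]
  apply Finset.sum_congr rfl
  intro μ hμ
  have hdeg : ∑ i, μ i = T := by
    rw [h.degree_eq_sum_deg_support hμ]
    symm
    apply Finset.sum_subset (Finset.subset_univ _)
    intro i _ hi
    exact Finsupp.notMem_support_iff.mp hi
  have e : ∏ i, a i ^ μ i = (∏ i, (a i / b) ^ μ i) * b ^ T := by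
    rw [← hdeg, ← Finset.prod_pow_eq_pow_sum, ← Finset.prod_mul_distrib]
    apply Finset.prod_congr rfl
    intro i _
    rw [← mul_pow, div_mul_cancel₀ _ hb]
  rw [e]
  ring

theorem aeval_congr_vars {K E : Type*} [Field K] [Field E] [Algebra K E] {k : ℕ}
    (Ψ : MvPolynomial (Fin k) K) {a b : Fin k → E} (h : ∀ i ∈ Ψ.vars, a i = b i) :
    aeval a Ψ = aeval b Ψ := by
  rw [aeval_def, aeval_def]
  exact eval₂Hom_congr' (f₁ := algebraMap K E) (f₂ := algebraMap K E) rfl
    (fun i hi _ => h i hi) rfl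

end Pool.Agent.Lib.MP_44a246_ntNW
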