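import Pool.Agent.Lib.MP_44a246_ntNW.WL
import Pool.Agent.Lib.MP_44a246_ntSF.SF8
import Pool.Agent.Lib.MP_44a246_ntNW.WA6

set_option autoImplicit false

open NumberField IsDedekindDomain Height MvPolynomial
open Pool.Agent.Lib.MP_44a246_ntNF
open Pool.Agent.Lib.MP_44a246_ntNU
open Pool.Agent.Lib.MP_44a246_ntSF

namespace Pool.Agent.Lib.MP_44a246_ntNW

universe u

/-- The final theorem. -/
theorem final {K : Type u} [Field K] [NumberField K] {m t n q : ℕ} (hn : 1 ≤ n) (hq : n + 1 ≤ q)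
    (f : Fin t → MvPolynomial (Fin (m + 1)) K) (e : Fin t → ℕ)
    (hf : ∀ l, (f l).IsHomogeneous (e l))
    (G : Fin q → MvPolynomial (Fin (m + 1)) K) (d : Fin q → ℕ) (hd : ∀ j, 1 ≤ d j)
    (hG : ∀ j, (G j).IsHomogeneous (d j))
    (h : ∀ J : Fin (n + 1) → Fin q, Function.Injective J →
      ∀ x : Fin (m + 1) → AlgebraicClosure K, (∀ l, aeval x (f l) = 0) →
        (∀ i, aeval x (G (J i)) = 0) → x = 0) :
    ∃ (N : ℕ) (Φ : Fin N → MvPolynomial (Fin (m + 1)) K), (q = n + 1 → N = 0) ∧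
      (∀ i, (∃ k, (Φ i).IsHomogeneous k) ∧ SmallLocus K n f (Φ i)) ∧
      (t = 0 → m = n → (∀ j, d j = 1) →
        ∀ i, ∃ (b : Fin q → K) (C A : Finset (Fin q)), C.card = n + 2 ∧ (∀ j, b j ≠ 0 ↔ j ∈ C) ∧
          ∑ j, b j • G j = 0 ∧ A ⊆ C ∧ 2 ≤ A.card ∧ A.card ≤ n ∧ Φ i = ∑ j ∈ A, b j • G j) ∧
      ∀ S : Set (HeightOneSpectrum (𝓞 K)), S.Finite → ∀ r : ℕ, 1 ≤ r →
      ∀ α β ρ : ℝ, 0 ≤ α → 0 ≤ β → 0 ≤ ρ →
      (∀ s : ℕ, 1 ≤ s → s ≤ n → 1 - (((q + s - n - 2).choose s : ℕ) : ℝ) /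
        ((q.choose s : ℕ) : ℝ) ≤ α + β * s) → ∀ c η : ℝ, 0 < η →
      ∃ C : ℝ, ∀ B : ℝ, 1 ≤ B →
        ∀ X : Finset (Σ E : IntermediateField K (AlgebraicClosure K),
          Projectivization E (Fin (m + 1) → E)),
        (∀ s ∈ X, ∃ _ : NumberField s.1, Module.finrank K s.1 ≤ r ∧
          (∀ l, aeval s.2.rep (f l) = 0) ∧ (∀ j, aeval s.2.rep (G j) ≠ 0) ∧
          (∀ i, aeval s.2.rep (Φ i) ≠ 0) ∧ s.2.mulHeight ≤ B ∧
          trCount S G d s.2.rep + Real.log (discNorm K s.1) ≤ ρ * s.2.logHeight + c) →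
        (X.card : ℝ) ≤ C * B ^ (α * ρ + β * ∑ j, (d j : ℝ) +
          ρ * max 0 ((if r = 1 then 0 else ((r : ℝ) + 2) / 4) - α) + η) ∧
        (∀ (E : IntermediateField K (AlgebraicClosure K)) (_ : NumberField E),
          (∀ s ∈ X, s.1 = E) →
            (X.card : ℝ) ≤ C * B ^ (α * ρ + β * ∑ j, (d j : ℝ) + η) * discNorm K E ^ (-α)) ∧
        (t = 0 → m = n → (∀ j, d j = 1) → r = 1 → 2 ≤ n → n + 2 ≤ q → ρ ≤ q - 1 →
          (X.card : ℝ) ≤ C * B ^ ((n : ℝ) + η)) := by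
  classical
  by_cases hlin : t = 0 ∧ m = n ∧ (∀ j, d j = 1) ∧ n + 2 ≤ q
  · obtain ⟨ht, hm, hd1, hq2⟩ := hlin
    subst ht
    subst hm
    have hd1' : d = fun _ => 1 := funext hd1
    subst hd1'
    obtain ⟨N, Φ, hΦ, hcount⟩ := lin_case hn hq2 G hG (fun J hJ x hx =>
      h J hJ x (fun l => l.elim0) hx)
    refine ⟨N, Φ, fun h => by omega, ?_, fun _ _ _ i => (hΦ i).2.2, ?_⟩
    · intro i
      refine ⟨⟨1, (hΦ i).2.1⟩, ?_⟩
      have h1 := small_locus hn f e hf (le_refl 1) (fun i => (X i : MvPolynomial (Fin (m + 1)) K))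
        (fun i => isHomogeneous_X K i) (fun x _ hx => by
          funext i
          simpa using hx i) 1 (Φ i) (hΦ i).1 (hΦ i).2.1
      have h2 : aeval (fun i => (X i : MvPolynomial (Fin (m + 1)) K)) (Φ i) = Φ i :=
        aeval_X_left_apply _
      rwa [h2] at h1
    · intro S hS r hr α β ρ hα hβ hρ hs c η hη
      obtain ⟨C, hC⟩ := hcount S hS r _ (field_sum_schmidt K r hr) α β ρ hα hβ hρ hs c η hη
      refine ⟨C, ?_⟩
      intro B hB Y hY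
      have e1 : ∑ j : Fin q, (((fun _ => 1 : Fin q → ℕ) j : ℕ) : ℝ) = q := by simp
      have h1 := hC B hB Y (by
        intro s hs'
        obtain ⟨a1, a2, _, a4, a5, a6, a7⟩ := hY s hs'
        exact ⟨a1, a2, a4, a5, a6, a7⟩)
      refine ⟨?_, ?_, ?_⟩
      · rw [e1]
        exact h1.1
      · rw [e1]
        exact h1.2.1
      · intro _ _ _ hr1 hn2 _ hρq
        exact h1.2.2 hr1 hn2 hρq
  · obtain ⟨N, Φ, hN, hΦ, hcount⟩ := main_X hn hq f e hf G d hd hG h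
    refine ⟨N, Φ, hN, hΦ, ?_, ?_⟩
    · intro ht hm hd1 i
      have hqn : q = n + 1 := by
        by_contra hne
        exact hlin ⟨ht, hm, hd1, by omega⟩
      have hN0 := hN hqn
      subst hN0
      exact i.elim0
    · intro S hS r hr α β ρ hα hβ hρ hs c η hη
      obtain ⟨C, hC⟩ := hcount S hS r _ (field_sum_schmidt K r hr) α β ρ hα hβ hρ hs c η hη
      refine ⟨C, ?_⟩
      intro B hB Y hY
      obtain ⟨h1, h2⟩ := hC B hB Y hY
      refine ⟨h1, h2, ?_⟩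
      intro ht hm hd1 _ _ hq2 _
      exact absurd ⟨ht, hm, hd1, hq2⟩ hlin

end Pool.Agent.Lib.MP_44a246_ntNW
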