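import Pool.Agent.Lib.MP_44a246_ntNW.CountX

set_option autoImplicit false

open NumberField IsDedekindDomain Height MvPolynomial
open Pool.Agent.Lib.MP_44a246_ntNF
open Pool.Agent.Lib.MP_44a246_ntNU

namespace Pool.Agent.Lib.MP_44a246_ntNW

universe u

theorem trCount_nonneg {K : Type u} [Field K] [NumberField K] {m q : ℕ} {E : Type u} [Field E]
    [NumberField E] [Algebra K E] (S : Set (HeightOneSpectrum (𝓞 K)))
    (G : Fin q → MvPolynomial (Fin (m + 1)) K) (d : Fin q → ℕ) (x : Fin (m + 1) → E) :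
    0 ≤ trCount S G d x := by
  unfold trCount
  apply finsum_nonneg
  intro v
  apply finsum_nonneg
  intro _
  exact Real.log_natCast_nonneg _

/-- The counting theorem, for all points of degree at most `r` of `X`. -/
theorem main_X {K : Type u} [Field K] [NumberField K] {m t n q : ℕ} (hn : 1 ≤ n) (hq : n + 1 ≤ q)
    (f : Fin t → MvPolynomial (Fin (m + 1)) K) (e : Fin t → ℕ)
    (hf : ∀ l, (f l).IsHomogeneous (e l))
    (G : Fin q → MvPolynomial (Fin (m + 1)) K) (d : Fin q → ℕ) (hd : ∀ j, 1 ≤ d j)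
    (hG : ∀ j, (G j).IsHomogeneous (d j))
    (h : ∀ J : Fin (n + 1) → Fin q, Function.Injective J →
      ∀ x : Fin (m + 1) → AlgebraicClosure K, (∀ l, aeval x (f l) = 0) →
        (∀ i, aeval x (G (J i)) = 0) → x = 0) :
    ∃ (N : ℕ) (Φ : Fin N → MvPolynomial (Fin (m + 1)) K), (q = n + 1 → N = 0) ∧
      (∀ i, (∃ k, (Φ i).IsHomogeneous k) ∧ SmallLocus K n f (Φ i)) ∧
      ∀ S : Set (HeightOneSpectrum (𝓞 K)), S.Finite → ∀ (r : ℕ) (a : ℝ), FieldSum K r a →
      ∀ α β ρ : ℝ, 0 ≤ α → 0 ≤ β → 0 ≤ ρ →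
      (∀ s : ℕ, 1 ≤ s → s ≤ n → 1 - (((q + s - n - 2).choose s : ℕ) : ℝ) /
        ((q.choose s : ℕ) : ℝ) ≤ α + β * s) → ∀ c η : ℝ, 0 < η →
      ∃ C : ℝ, ∀ B : ℝ, 1 ≤ B →
        ∀ X : Finset (Σ E : IntermediateField K (AlgebraicClosure K),
          Projectivization E (Fin (m + 1) → E)),
        (∀ s ∈ X, ∃ _ : NumberField s.1, Module.finrank K s.1 ≤ r ∧
          (∀ l, aeval s.2.rep (f l) = 0) ∧ (∀ j, aeval s.2.rep (G j) ≠ 0) ∧
          (∀ i, aeval s.2.rep (Φ i) ≠ 0) ∧ s.2.mulHeight ≤ B ∧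
          trCount S G d s.2.rep + Real.log (discNorm K s.1) ≤ ρ * s.2.logHeight + c) →
        (X.card : ℝ) ≤ C * B ^ (α * ρ + β * ∑ j, (d j : ℝ) +
          ρ * max 0 (a - α) + η) ∧
        ∀ (E : IntermediateField K (AlgebraicClosure K)) (_ : NumberField E),
          (∀ s ∈ X, s.1 = E) →
            (X.card : ℝ) ≤ C * B ^ (α * ρ + β * ∑ j, (d j : ℝ) + η) * discNorm K E ^ (-α) := by
  classical
  obtain ⟨Φ, hΦ, hcount⟩ := count_X hn hq f e hf G d hd hG h
  set u := Fintype.equivFin (Unch n q) with hu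
  refine ⟨Fintype.card (Unch n q), fun i => Φ (u.symm i), ?_, fun i => hΦ _, ?_⟩
  · intro hqn
    rw [Fintype.card_eq_zero_iff]
    exact ⟨fun p => by have := two_le_of_unch p; omega⟩
  intro S hS r a hFS α β ρ hα hβ hρ hs c η hη
  have hcnt := hcount S hS α β hα hβ hs r
  have hσ : 0 ≤ β * ∑ j, (d j : ℝ) :=
    mul_nonneg hβ (Finset.sum_nonneg (fun j _ => Nat.cast_nonneg _))
  obtain ⟨C1, hC1, h1⟩ := total_gen (fun E _ _ _ P => trCount_nonneg S G d P.rep) α _ ρ hα hσ hρ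
    r hcnt a hFS c η hη
  obtain ⟨C2, hC2, h2⟩ := field_gen (fun E _ _ _ P => trCount_nonneg S G d P.rep) α _ ρ hα hσ hρ
    r hcnt c η hη
  refine ⟨C1 + C2, ?_⟩
  intro B hB X hX
  have hB0 : 0 < B := by linarith
  have hX' : ∀ s ∈ X, ViolG (fun (E : Type u) _ _ _ (P : Projectivization E (Fin (m + 1) → E)) =>
      (∀ l, aeval P.rep (f l) = 0) ∧ (∀ j, aeval P.rep (G j) ≠ 0) ∧ ∀ p, aeval P.rep (Φ p) ≠ 0)
      (fun (E : Type u) _ _ _ (P : Projectivization E (Fin (m + 1) → E)) =>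
        trCount S G d P.rep) r ρ c B s := by
    intro s hs'
    obtain ⟨a1, a2, a3, a4, a5, a6, a7⟩ := hX s hs'
    refine ⟨a1, a2, ⟨a3, a4, ?_⟩, a6, a7⟩
    intro p
    have := a5 (u p)
    simp only [Equiv.symm_apply_apply] at this
    exact this
  constructor
  · refine (h1 B hB X hX').trans ?_
    exact mul_le_mul_of_nonneg_right (by linarith) (Real.rpow_pos_of_pos hB0 _).le
  · intro E hE hXE
    have k2 := (h2 B hB X hX' E).1
    rw [Finset.filter_true_of_mem hXE, dN_eq K E] at k2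
    refine k2.trans ?_
    have hD := (one_le_discNorm K E).1
    have hD0 : 0 ≤ discNorm K E ^ (-α) := Real.rpow_nonneg (by linarith) _
    apply mul_le_mul_of_nonneg_right _ hD0
    exact mul_le_mul_of_nonneg_right (by linarith) (Real.rpow_pos_of_pos hB0 _).le

end Pool.Agent.Lib.MP_44a246_ntNW
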