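import Pool.Agent.Lib.MP_44a246_ntNF.Tools
import Pool.Agent.Lib.MP_44a246_ntNF.Count
import Pool.Agent.Lib.MP_44a246_ntNU.Defs
import Pool.Agent.Lib.MP_44a246_ntNW.Defs
import Pool.Agent.Lib.MP_44a246_ntNW.Tools

set_option autoImplicit false

open NumberField IsDedekindDomain Height MvPolynomial
open Pool.Agent.Lib.MP_4d5ce1_nt (fa nv ordv)
open Pool.Agent.Lib.MP_44a246_ntNF
open Pool.Agent.Lib.MP_44a246_ntNU

namespace Pool.Agent.Lib.MP_44a246_ntNW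

universe u

/-! ### Algebra -/

section Algebra

variable {K : Type u} [Field K] {m t : ℕ}

/-- WA1 : Nullstellensatz for forms without a common zero -/
theorem pow_mem_span {ι : Type} [Finite ι] (p : ι → MvPolynomial (Fin (m + 1)) K)
    (h : ∀ x : Fin (m + 1) → AlgebraicClosure K, (∀ l, aeval x (p l) = 0) → x = 0) :
    ∃ M : ℕ, ∀ (k : ℕ), M ≤ k → ∀ a : MvPolynomial (Fin (m + 1)) K, a.IsHomogeneous k →
      a ∈ Ideal.span (Set.range p) := by
  sorry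

/-- WA2 : homogeneous coefficients -/
theorem exists_hom_coeffs {ι : Type} [Fintype ι] (p : ι → MvPolynomial (Fin (m + 1)) K)
    (e : ι → ℕ) (hp : ∀ l, (p l).IsHomogeneous (e l)) {k : ℕ} {a : MvPolynomial (Fin (m + 1)) K}
    (ha : a.IsHomogeneous k) (h : a ∈ Ideal.span (Set.range p)) :
    ∃ A : ι → MvPolynomial (Fin (m + 1)) K, (∀ l, e l ≤ k → (A l).IsHomogeneous (k - e l)) ∧
      (∀ l, k < e l → A l = 0) ∧ a = ∑ l, A l * p l := by
  sorry

/-- WA3 : forms modulo an ideal, when finitely many forms have no common zero on it -/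
theorem hilbert_span {s : ℕ} (f : Fin t → MvPolynomial (Fin (m + 1)) K) (e : Fin t → ℕ)
    (hf : ∀ l, (f l).IsHomogeneous (e l)) {D : ℕ} (hD : 1 ≤ D)
    (g : Fin s → MvPolynomial (Fin (m + 1)) K) (hg : ∀ i, (g i).IsHomogeneous D)
    (h : ∀ x : Fin (m + 1) → AlgebraicClosure K, (∀ l, aeval x (f l) = 0) →
      (∀ i, aeval x (g i) = 0) → x = 0) :
    ∃ M : ℕ, ∀ (k : ℕ) (a : MvPolynomial (Fin (m + 1)) K), a.IsHomogeneous k →
      ∃ b ∈ Submodule.span K {c : MvPolynomial (Fin (m + 1)) K | ∃ (μ : Fin (m + 1) →₀ ℕ)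
        (γ : Fin s →₀ ℕ), μ.degree < M ∧ μ.degree + D * γ.degree = k ∧
          c = monomial μ 1 * γ.prod (fun i k => g i ^ k)},
        a - b ∈ Ideal.span (Set.range f) := by
  sorry

/-- WA4 : algebraic relations on a section -/
theorem exists_relation {n q : ℕ} (f : Fin t → MvPolynomial (Fin (m + 1)) K) (e : Fin t → ℕ)
    (hf : ∀ l, (f l).IsHomogeneous (e l)) {D : ℕ} (hD : 1 ≤ D)
    (g : Fin q → MvPolynomial (Fin (m + 1)) K) (hg : ∀ i, (g i).IsHomogeneous D)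
    (h : ∀ J : Fin (n + 1) → Fin q, Function.Injective J →
      ∀ x : Fin (m + 1) → AlgebraicClosure K, (∀ l, aeval x (f l) = 0) →
        (∀ i, aeval x (g (J i)) = 0) → x = 0)
    (J : Fin (n + 1) → Fin q) (hJ : Function.Injective J) (I : Finset (Fin q)) (hI : I.Nonempty)
    (hIn : I.card ≤ n) (hIJ : ∀ i : Fin (n + 1), i.val + I.card ≤ n + 1 → J i ∉ I) :
    ∃ (T : ℕ) (Ψ : MvPolynomial (Fin (n + 1)) K), Ψ ≠ 0 ∧ Ψ.IsHomogeneous T ∧
      (∀ i ∈ Ψ.vars, i.val + I.card ≤ n + 1) ∧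
      aeval (fun i => g (J i)) Ψ ∈ Ideal.span (Set.range f ∪ g '' (I : Set (Fin q))) := by
  sorry

/-- WA5 : finite fibres -/
theorem finite_fibres {s : ℕ} (f : Fin t → MvPolynomial (Fin (m + 1)) K) (e : Fin t → ℕ)
    (hf : ∀ l, (f l).IsHomogeneous (e l)) {D : ℕ} (hD : 1 ≤ D)
    (g : Fin (s + 1) → MvPolynomial (Fin (m + 1)) K) (hg : ∀ i, (g i).IsHomogeneous D)
    (h : ∀ x : Fin (m + 1) → AlgebraicClosure K, (∀ l, aeval x (f l) = 0) →
      (∀ i, aeval x (g i) = 0) → x = 0) :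
    ∃ N : ℕ, ∀ (E : Type u) [Field E] [Algebra K E] (F : Finset (Fin (m + 1) → E)),
      (∀ x ∈ F, (∀ l, aeval x (f l) = 0) ∧ aeval x (g 0) ≠ 0) →
      (∀ x ∈ F, ∀ y ∈ F, x ≠ y → ∀ c : E, x ≠ c • y) →
      (∀ x ∈ F, ∀ y ∈ F, ∀ i, aeval x (g i) / aeval x (g 0) = aeval y (g i) / aeval y (g 0)) →
      F.card ≤ N := by
  sorry

/-- WA6 : dimension of the exceptional set -/
theorem small_locus {n : ℕ} (hn : 1 ≤ n) (f : Fin t → MvPolynomial (Fin (m + 1)) K)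
    (e : Fin t → ℕ) (hf : ∀ l, (f l).IsHomogeneous (e l)) {D : ℕ} (hD : 1 ≤ D)
    (g : Fin (n + 1) → MvPolynomial (Fin (m + 1)) K) (hg : ∀ i, (g i).IsHomogeneous D)
    (h : ∀ x : Fin (m + 1) → AlgebraicClosure K, (∀ l, aeval x (f l) = 0) →
      (∀ i, aeval x (g i) = 0) → x = 0)
    (T : ℕ) (Ψ : MvPolynomial (Fin (n + 1)) K) (h0 : Ψ ≠ 0) (hT : Ψ.IsHomogeneous T) :
    SmallLocus K n f (aeval g Ψ) := by
  sorry

end Algebra

/-! ### Combinatorics and decoding -/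

/-- WC1 : `exists_order` for `q ≥ n + 1` -/
theorem exists_order' (n q : ℕ) (hq : n + 1 ≤ q) (w : Finset (Fin q) → ℝ) (hw : ∀ I, 0 ≤ w I)
    (hw0 : ∀ I, n < I.card → w I = 0) :
    ∃ J : Fin (n + 1) → Fin q, Function.Injective J ∧ ∀ T : Finset (Finset (Fin q)),
      (∀ I ∈ T, Charged J I) → ∑ I ∈ T, w I ≤
        ∑ I ∈ (Finset.univ : Finset (Finset (Fin q))).filter (fun I => I.Nonempty),
          (1 - (((q + I.card - n - 2).choose I.card : ℕ) : ℝ) /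
          ((q.choose I.card : ℕ) : ℝ)) * w I := by
  sorry

/-- WC2 : abstract decoding -/
theorem decode (d s n q : ℕ) (η : ℝ) (hη : 0 < η) : ∃ C : ℝ, 0 < C ∧
    ∀ (E : Type u) [Field E] [NumberField E], Module.finrank ℚ E ≤ d →
      ∀ (S' : Finset (HeightOneSpectrum (𝓞 E))), S'.card ≤ s →
      ∀ (J : Fin (n + 1) → Fin q), Function.Injective J →
      ∀ (Pt : Type u) (G : Finset Pt) (pt : Pt → HeightOneSpectrum (𝓞 E) → Finset (Fin q))
        (val : Pt → Fin q → E) (z : Finset (Fin q) → Pt → E) (T : ℝ) (N₀ : ℕ), 1 ≤ T →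
      (∀ x ∈ G, ∀ j, val x j ≠ 0) → (∀ x ∈ G, ∀ I, z I x ≠ 0) →
      (∀ x ∈ G, ∀ I : Finset (Fin q), I.Nonempty → {w | w ∉ S' ∧ pt x w = I}.Finite) →
      (∀ x ∈ G, ∀ w ∉ S', (pt x w).card ≤ n) →
      (∀ x ∈ G, ∀ w ∉ S', ∀ i j, i ∉ pt x w → j ∉ pt x w → fa w (val x i / val x j) = 1) →
      (∀ x ∈ G, ∀ w ∉ S', ∀ i j, i ∈ pt x w → j ∉ pt x w → fa w (val x i / val x j) < 1) →
      (∀ x ∈ G, ∀ w ∉ S', ∀ I : Finset (Fin q), I.Nonempty → I.card ≤ n →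
        (∀ i : Fin (n + 1), i.val + I.card ≤ n + 1 → J i ∉ I) → pt x w = I →
          fa w (z I x) < 1) →
      (∀ x ∈ G, ∀ y ∈ G, ∀ I : Finset (Fin q), I.Nonempty → I.card ≤ n →
        (∀ i : Fin (n + 1), i.val + I.card ≤ n + 1 → J i ∉ I) →
        (∀ i : Fin (n + 1), i.val + I.card ≤ n + 1 →
          val x (J i) / val x (J 0) = val y (J i) / val y (J 0)) → z I x = z I y) →
      (∀ x ∈ G, ∀ i j, mulHeight₁ (val x i / val x j) ≤ T) →
      (∀ x ∈ G, ∀ I, mulHeight₁ (z I x) ≤ T) →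
      (∀ x ∈ G, ∀ I : Finset (Fin q), I.Nonempty → NN (RP (pt x) S' I) ≤ T) →
      (∀ G' ⊆ G, (∀ x ∈ G', ∀ y ∈ G', ∀ i : Fin (n + 1),
        val x (J i) / val x (J 0) = val y (J i) / val y (J 0)) → G'.card ≤ N₀) →
      (∀ x ∈ G, ∀ y ∈ G, ∀ I, Charged J I → RP (pt x) S' I = RP (pt y) S' I) →
      (G.card : ℝ) ≤ C * N₀ * T ^ η := by
  sorry

/-- WC3 : the counting engine -/
theorem engine (d n q : ℕ) (hq : n + 1 ≤ q) (α β : ℝ) (hα : 0 ≤ α) (hβ : 0 ≤ β)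
    (hs : ∀ s : ℕ, 1 ≤ s → s ≤ n → 1 - (((q + s - n - 2).choose s : ℕ) : ℝ) /
      ((q.choose s : ℕ) : ℝ) ≤ α + β * s) (η : ℝ) (hη : 0 < η) : ∃ C : ℝ, 0 < C ∧
    ∀ (E : Type u) [Field E] [NumberField E], Module.finrank ℚ E ≤ d →
      ∀ (Pt : Type u) (X : Finset Pt)
        (R : Pt → Finset (Fin q) → Finset (HeightOneSpectrum (𝓞 E))) (M H A : ℝ),
      1 ≤ M → 1 ≤ H → 0 ≤ A →
      (∀ x ∈ X, ∀ I : Finset (Fin q), n < I.card → R x I = ∅) →
      (∀ x ∈ X, ∑ I ∈ (Finset.univ : Finset (Finset (Fin q))).filter (fun I => I.Nonempty),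
        Real.log (NN (R x I)) ≤ Real.log M) →
      (∀ x ∈ X, ∑ I ∈ (Finset.univ : Finset (Finset (Fin q))).filter (fun I => I.Nonempty),
        (I.card : ℝ) * Real.log (NN (R x I)) ≤ Real.log H) →
      (∀ J : Fin (n + 1) → Fin q, Function.Injective J → ∀ G ⊆ X,
        (∀ x ∈ G, ∀ y ∈ G, ∀ I, Charged J I → R x I = R y I) → (G.card : ℝ) ≤ A) →
      (X.card : ℝ) ≤ C * (M ^ α * H ^ β) ^ (1 + η) * A := by
  sorry

/-! ### Arithmetic of forms over extensions -/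

section Arith

variable {K : Type u} [Field K] [NumberField K] {m : ℕ}

/-- WB1a -/
theorem exists_IntS {ι : Type} [Finite ι] (p : ι → MvPolynomial (Fin (m + 1)) K)
    (S₀ : Finset (HeightOneSpectrum (𝓞 K))) :
    ∃ S : Finset (HeightOneSpectrum (𝓞 K)), S₀ ⊆ S ∧ ∀ l, IntS S (p l) := by
  sorry

/-- WB1b -/
theorem fa_aeval_le {E : Type u} [Field E] [NumberField E] [Algebra K E]
    {S : Finset (HeightOneSpectrum (𝓞 K))} {p : MvPolynomial (Fin (m + 1)) K} (hp : IntS S p)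
    {k : ℕ} (hk : p.IsHomogeneous k) {w : HeightOneSpectrum (𝓞 E)}
    (hw : w ∉ above K E (S : Set (HeightOneSpectrum (𝓞 K)))) (x : Fin (m + 1) → E) :
    fa w (aeval x p) ≤ sz w x ^ k := by
  sorry

/-- WB2 : finiteness of the patterns -/
theorem finite_PT {E : Type u} [Field E] [NumberField E] [Algebra K E] {q : ℕ}
    (G : Fin q → MvPolynomial (Fin (m + 1)) K) (d : Fin q → ℕ) {x : Fin (m + 1) → E}
    (hx : ∀ j, aeval x (G j) ≠ 0) (hx0 : x ≠ 0) {I : Finset (Fin q)} (hI : I.Nonempty) :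
    {w : HeightOneSpectrum (𝓞 E) | PT G d x w = I}.Finite := by
  sorry

/-- WB3 -/
theorem sum_log_RP_le {E : Type u} [Field E] [NumberField E] [Algebra K E] {q : ℕ}
    {G : Fin q → MvPolynomial (Fin (m + 1)) K} {d : Fin q → ℕ}
    (hG0 : ∀ j, G j ≠ 0) {S : Finset (HeightOneSpectrum (𝓞 K))} (hS : ∀ j, IntS S (G j))
    {S₀ : Set (HeightOneSpectrum (𝓞 K))} (h0 : S₀ ⊆ (S : Set (HeightOneSpectrum (𝓞 K))))
    (S' : Finset (HeightOneSpectrum (𝓞 E)))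
    (hS' : (S' : Set (HeightOneSpectrum (𝓞 E))) = above K E (S : Set (HeightOneSpectrum (𝓞 K))))
    {x : Fin (m + 1) → E} (hx : ∀ j, aeval x (G j) ≠ 0) (hx0 : x ≠ 0) :
    ∑ I ∈ (Finset.univ : Finset (Finset (Fin q))).filter (fun I => I.Nonempty),
      Real.log (NN (RP (PT G d x) S' I)) ≤ trCount S₀ G d x := by
  sorry

/-- WB4 -/
theorem sum_card_RP_le {q : ℕ} (r : ℕ) {G : Fin q → MvPolynomial (Fin (m + 1)) K}
    {d : Fin q → ℕ} (hG : ∀ j, (G j).IsHomogeneous (d j))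
    {S : Finset (HeightOneSpectrum (𝓞 K))} (hS : ∀ j, IntS S (G j)) : ∃ C : ℝ, 0 ≤ C ∧
      ∀ (E : Type u) [Field E] [NumberField E] [Algebra K E], Module.finrank K E ≤ r →
        ∀ S' : Finset (HeightOneSpectrum (𝓞 E)),
          (S' : Set (HeightOneSpectrum (𝓞 E))) =
            above K E (S : Set (HeightOneSpectrum (𝓞 K))) →
          ∀ x : Fin (m + 1) → E, (∀ j, aeval x (G j) ≠ 0) → x ≠ 0 →
            ∑ I ∈ (Finset.univ : Finset (Finset (Fin q))).filter (fun I => I.Nonempty),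
              (I.card : ℝ) * Real.log (NN (RP (PT G d x) S' I)) ≤
              (∑ j, (d j : ℝ)) * logHeight x + C := by
  sorry

/-- WB5 -/
theorem height_quot_le (r : ℕ) {ι : Type} [Finite ι] (a b : ι → MvPolynomial (Fin (m + 1)) K)
    (k : ι → ℕ) (ha : ∀ i, (a i).IsHomogeneous (k i)) (hb : ∀ i, (b i).IsHomogeneous (k i)) :
    ∃ C : ℝ, 1 ≤ C ∧ ∀ (E : Type u) [Field E] [NumberField E] [Algebra K E],
      Module.finrank K E ≤ r → ∀ (i : ι) (x : Fin (m + 1) → E), x ≠ 0 →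
        mulHeight₁ (aeval x (a i) / aeval x (b i)) ≤ C * mulHeight x ^ (k i) := by
  sorry

/-- WB6 : outside finitely many primes the forms `g (J i)` have no common zero on `X` -/
theorem good_ge {t q n : ℕ} (f : Fin t → MvPolynomial (Fin (m + 1)) K) (e : Fin t → ℕ)
    (hf : ∀ l, (f l).IsHomogeneous (e l)) {D : ℕ} (hD : 1 ≤ D)
    (g : Fin q → MvPolynomial (Fin (m + 1)) K) (hg : ∀ i, (g i).IsHomogeneous D)
    (h : ∀ J : Fin (n + 1) → Fin q, Function.Injective J →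
      ∀ x : Fin (m + 1) → AlgebraicClosure K, (∀ l, aeval x (f l) = 0) →
        (∀ i, aeval x (g (J i)) = 0) → x = 0) :
    ∃ S : Finset (HeightOneSpectrum (𝓞 K)), ∀ (E : Type u) [Field E] [NumberField E]
      [Algebra K E] (w : HeightOneSpectrum (𝓞 E)),
      w ∉ above K E (S : Set (HeightOneSpectrum (𝓞 K))) →
      ∀ J : Fin (n + 1) → Fin q, Function.Injective J → ∀ x : Fin (m + 1) → E,
        (∀ l, aeval x (f l) = 0) → x ≠ 0 → ∃ i, sz w x ^ D ≤ fa w (aeval x (g (J i))) := by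
  sorry

/-- WB7 : reduction of the relations -/
theorem good_psi {t q : ℕ} (f : Fin t → MvPolynomial (Fin (m + 1)) K) (e : Fin t → ℕ)
    (hf : ∀ l, (f l).IsHomogeneous (e l)) {D : ℕ}
    (g : Fin q → MvPolynomial (Fin (m + 1)) K) (hg : ∀ i, (g i).IsHomogeneous D)
    (I : Finset (Fin q)) {k : ℕ} (Φ : MvPolynomial (Fin (m + 1)) K) (hΦ : Φ.IsHomogeneous k)
    (h : Φ ∈ Ideal.span (Set.range f ∪ g '' (I : Set (Fin q)))) :
    ∃ S : Finset (HeightOneSpectrum (𝓞 K)), ∀ (E : Type u) [Field E] [NumberField E]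
      [Algebra K E] (w : HeightOneSpectrum (𝓞 E)),
      w ∉ above K E (S : Set (HeightOneSpectrum (𝓞 K))) → ∀ x : Fin (m + 1) → E,
        (∀ l, aeval x (f l) = 0) → x ≠ 0 → (∀ j ∈ I, fa w (aeval x (g j)) < sz w x ^ D) →
          fa w (aeval x Φ) < sz w x ^ k := by
  sorry

end Arith

end Pool.Agent.Lib.MP_44a246_ntNW
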