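import Pool.Agent.Lib.MP_44a246_ntNW.MainX
import Pool.Agent.Lib.MP_44a246_ntNU.Main

set_option autoImplicit false

open NumberField IsDedekindDomain Height MvPolynomial
open Pool.Agent.Lib.MP_44a246_ntNF
open Pool.Agent.Lib.MP_44a246_ntNU

namespace Pool.Agent.Lib.MP_44a246_ntNW

universe u

/-- WL : hyperplanes in projective space -/
theorem lin_case {K : Type u} [Field K] [NumberField K] {n q : ℕ} (hn : 1 ≤ n) (hq : n + 2 ≤ q)
    (G : Fin q → MvPolynomial (Fin (n + 1)) K) (hG : ∀ j, (G j).IsHomogeneous 1)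
    (h : ∀ J : Fin (n + 1) → Fin q, Function.Injective J →
      ∀ x : Fin (n + 1) → AlgebraicClosure K, (∀ i, aeval x (G (J i)) = 0) → x = 0) :
    ∃ (N : ℕ) (Φ : Fin N → MvPolynomial (Fin (n + 1)) K),
      (∀ i, Φ i ≠ 0 ∧ (Φ i).IsHomogeneous 1 ∧
        ∃ (b : Fin q → K) (C A : Finset (Fin q)), C.card = n + 2 ∧ (∀ j, b j ≠ 0 ↔ j ∈ C) ∧
          ∑ j, b j • G j = 0 ∧ A ⊆ C ∧ 2 ≤ A.card ∧ A.card ≤ n ∧ Φ i = ∑ j ∈ A, b j • G j) ∧
      ∀ S : Set (HeightOneSpectrum (𝓞 K)), S.Finite → ∀ (r : ℕ) (a : ℝ), FieldSum K r a →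
      ∀ α β ρ : ℝ, 0 ≤ α → 0 ≤ β → 0 ≤ ρ →
      (∀ s : ℕ, 1 ≤ s → s ≤ n → 1 - (((q + s - n - 2).choose s : ℕ) : ℝ) /
        ((q.choose s : ℕ) : ℝ) ≤ α + β * s) → ∀ c η : ℝ, 0 < η →
      ∃ C : ℝ, ∀ B : ℝ, 1 ≤ B →
        ∀ X : Finset (Σ E : IntermediateField K (AlgebraicClosure K),
          Projectivization E (Fin (n + 1) → E)),
        (∀ s ∈ X, ∃ _ : NumberField s.1, Module.finrank K s.1 ≤ r ∧
          (∀ j, aeval s.2.rep (G j) ≠ 0) ∧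
          (∀ i, aeval s.2.rep (Φ i) ≠ 0) ∧ s.2.mulHeight ≤ B ∧
          trCount S G (fun _ => 1) s.2.rep + Real.log (discNorm K s.1) ≤
            ρ * s.2.logHeight + c) →
        (X.card : ℝ) ≤ C * B ^ (α * ρ + β * q +
          ρ * max 0 (a - α) + η) ∧
        (∀ (E : IntermediateField K (AlgebraicClosure K)) (_ : NumberField E),
          (∀ s ∈ X, s.1 = E) →
            (X.card : ℝ) ≤ C * B ^ (α * ρ + β * q + η) * discNorm K E ^ (-α)) ∧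
        (r = 1 → 2 ≤ n → ρ ≤ q - 1 → (X.card : ℝ) ≤ C * B ^ ((n : ℝ) + η)) := by
  sorry

end Pool.Agent.Lib.MP_44a246_ntNW
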