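import Pool.Agent.Lib.MP_44a246_ntNF.NF8
import Pool.Agent.Lib.MP_44a246_ntNF.NF9
import Pool.Agent.Lib.MP_44a246_ntNU.NU3b
import Pool.Agent.Lib.MP_44a246_ntNW.Tools

/-!
# Abstract decoding

The decoding step and the count of the points with a given code, for points `x` of an arbitrary
set with nonzero values `val x j`, patterns `pt x w` and auxiliary values `z I x`.
-/

set_option autoImplicit false

open NumberField IsDedekindDomain Height MvPolynomial
open Pool.Agent.Lib.MP_4d5ce1_nt (fa nv ordv)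
open Pool.Agent.Lib.MP_44a246_ntNF
open Pool.Agent.Lib.MP_44a246_ntNU

namespace Pool.Agent.Lib.MP_44a246_ntNW

universe u

theorem wc2_mem_RP {E : Type*} [Field E] [NumberField E] {q : ℕ}
    {pt : HeightOneSpectrum (𝓞 E) → Finset (Fin q)} {S' : Finset (HeightOneSpectrum (𝓞 E))}
    {I : Finset (Fin q)} {w : HeightOneSpectrum (𝓞 E)} (h : w ∈ RP pt S' I) :
    w ∉ S' ∧ pt w = I := by
  unfold RP at h
  split_ifs at h with hf
  · simpa using h
  · simp at h

theorem wc2_mem_RP_of {E : Type*} [Field E] [NumberField E] {q : ℕ}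
    {pt : HeightOneSpectrum (𝓞 E) → Finset (Fin q)} {S' : Finset (HeightOneSpectrum (𝓞 E))}
    {w : HeightOneSpectrum (𝓞 E)} (hw : w ∉ S')
    (hf : {v | v ∉ S' ∧ pt v = pt w}.Finite) : w ∈ RP pt S' (pt w) := by
  unfold RP
  rw [dif_pos hf]
  simp [hw]

open Dec in
/-- the decoding step -/
theorem decode_step (d s n q : ℕ) (η : ℝ) (hη : 0 < η) : ∃ C : ℝ, 0 < C ∧
    ∀ (E : Type u) [Field E] [NumberField E], Module.finrank ℚ E ≤ d →
      ∀ (S' : Finset (HeightOneSpectrum (𝓞 E))), S'.card ≤ s →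
      ∀ (J : Fin (n + 1) → Fin q) (Pt : Type u) (G : Finset Pt)
        (pt : Pt → HeightOneSpectrum (𝓞 E) → Finset (Fin q))
        (val : Pt → Fin q → E) (z : Finset (Fin q) → Pt → E) (T : ℝ), 1 ≤ T →
      (∀ x ∈ G, ∀ j, val x j ≠ 0) → (∀ x ∈ G, ∀ I, z I x ≠ 0) →
      (∀ x ∈ G, ∀ I : Finset (Fin q), I.Nonempty → {w | w ∉ S' ∧ pt x w = I}.Finite) →
      (∀ x ∈ G, ∀ w ∉ S', (pt x w).card ≤ n) →
      (∀ x ∈ G, ∀ w ∉ S', ∀ i j, i ∉ pt x w → j ∉ pt x w → fa w (val x i / val x j) = 1) →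
      (∀ x ∈ G, ∀ w ∉ S', ∀ i j, i ∈ pt x w → j ∉ pt x w → fa w (val x i / val x j) < 1) →
      (∀ x ∈ G, ∀ w ∉ S', ∀ I : Finset (Fin q), I.Nonempty → I.card ≤ n →
        (∀ i : Fin (n + 1), i.val + I.card ≤ n + 1 → J i ∉ I) → pt x w = I →
          fa w (z I x) < 1) →
      (∀ x ∈ G, ∀ y ∈ G, ∀ I : Finset (Fin q), I.Nonempty → I.card ≤ n →
        (∀ i : Fin (n + 1), i.val + I.card ≤ n + 1 → J i ∉ I) →
        (∀ i : Fin (n + 1), i.val + I.card ≤ n + 1 →
          val x (J i) / val x (J 0) = val y (J i) / val y (J 0)) → z I x = z I y) →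
      (∀ x ∈ G, ∀ i j, mulHeight₁ (val x i / val x j) ≤ T) →
      (∀ x ∈ G, ∀ I, mulHeight₁ (z I x) ≤ T) →
      (∀ x ∈ G, ∀ I : Finset (Fin q), I.Nonempty → NN (RP (pt x) S' I) ≤ T) →
      (∀ x ∈ G, ∀ y ∈ G, ∀ I, Charged J I → RP (pt x) S' I = RP (pt y) S' I) →
      ∀ k : Fin (n + 1), (∀ x ∈ G, ∀ y ∈ G, ∀ i < k,
        val x (J i) / val x (J 0) = val y (J i) / val y (J 0)) →
      ∀ F : Finset E, (∀ y ∈ F, ∃ x ∈ G, val x (J k) / val x (J 0) = y) →
      (F.card : ℝ) ≤ C * T ^ η := by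
  classical
  obtain ⟨C, hC, hmain⟩ := card_elements_u.{u} d s (η / 2 ^ q) (by positivity)
  refine ⟨C, hC, ?_⟩
  intro E _ _ hd S' hs J Pt G pt val z T hT h1 h2 h3 h4 h5 h6 h7 h8 h9 h10 h11 h12 k hk F hF
  rcases F.eq_empty_or_nonempty with hFe | ⟨y₀, hy₀⟩
  · rw [hFe]
    simp only [Finset.card_empty, Nat.cast_zero]
    positivity
  obtain ⟨x₀, hx₀, -⟩ := hF y₀ hy₀
  -- the sets which contain the primes of the pattern `I` for all points
  have hex : ∀ I : Finset (Fin q), ∃ W : Finset (HeightOneSpectrum (𝓞 E)), NN W ≤ T ∧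
      ((J 0 ∈ I ∨ J k ∈ I) → ∀ x ∈ G, RP (pt x) S' I ⊆ W) := by
    intro I
    by_cases hI : J 0 ∈ I ∨ J k ∈ I
    swap
    · exact ⟨∅, by simpa [NN] using hT, fun h => (hI h).elim⟩
    have hIne : I.Nonempty := by
      rcases hI with h | h
      · exact ⟨_, h⟩
      · exact ⟨_, h⟩
    by_cases hn : n < I.card
    · refine ⟨∅, by simpa [NN] using hT, fun _ x hx w hw => ?_⟩
      obtain ⟨a, b⟩ := wc2_mem_RP hw
      have := h4 x hx w a
      rw [b] at this
      omega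
    rw [not_lt] at hn
    by_cases hCh : Charged J I
    · refine ⟨RP (pt x₀) S' I, h11 x₀ hx₀ I hIne, fun _ x hx => ?_⟩
      rw [h12 x hx x₀ hx₀ I hCh]
    have hJ0 : J 0 ∉ I := by
      intro h
      exact hCh ⟨0, by simp only [Fin.val_zero]; omega, h⟩
    have hJk : J k ∈ I := by
      rcases hI with h | h
      · exact (hJ0 h).elim
      · exact h
    by_cases hexi : ∃ i < k, J i ∈ I
    · obtain ⟨i, hik, hi⟩ := hexi
      have hy : val x₀ (J i) / val x₀ (J 0) ≠ 0 := div_ne_zero (h1 x₀ hx₀ _) (h1 x₀ hx₀ _)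
      obtain ⟨W, hW, hW'⟩ := small_primes hy
      refine ⟨W, hW.trans (h9 x₀ hx₀ _ _), fun _ x hx w hw => ?_⟩
      apply hW'
      rw [hk x₀ hx₀ x hx i hik]
      obtain ⟨a, b⟩ := wc2_mem_RP hw
      exact h6 x hx w a _ _ (by rw [b]; exact hi) (by rw [b]; exact hJ0)
    · push Not at hexi
      have hkI : n + 2 < k.val + 1 + I.card := by
        by_contra hlt
        exact hCh ⟨k, by omega, hJk⟩
      have hnot : ∀ i : Fin (n + 1), i.val + I.card ≤ n + 1 → i < k := by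
        intro i hi
        rw [Fin.lt_def]
        omega
      obtain ⟨W, hW, hW'⟩ := small_primes (h2 x₀ hx₀ I)
      refine ⟨W, hW.trans (h10 x₀ hx₀ I), fun _ x hx w hw => ?_⟩
      apply hW'
      have hJI : ∀ i : Fin (n + 1), i.val + I.card ≤ n + 1 → J i ∉ I :=
        fun i hi => hexi i (hnot i hi)
      rw [h8 x₀ hx₀ x hx I hIne hn hJI (fun i hi => hk x₀ hx₀ x hx i (hnot i hi))]
      obtain ⟨a, b⟩ := wc2_mem_RP hw
      exact h7 x hx w a I hIne hn hJI b
  choose W hW hW' using hex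
  have hcard : (Finset.univ : Finset (Finset (Fin q))).card = 2 ^ q := by
    simp
  have hNN := NN_biUnion_le (Finset.univ : Finset (Finset (Fin q))) W T (fun I _ => hW I)
  rw [hcard] at hNN
  have hpow : T ≤ T ^ (2 ^ q) := le_self_pow₀ hT (by positivity)
  have key := hmain E hd S' hs (T ^ (2 ^ q)) (one_le_pow₀ hT) _ hNN F ?_
  · refine key.trans (le_of_eq ?_)
    rw [← Real.rpow_natCast T (2 ^ q), ← Real.rpow_mul (by linarith)]
    congr 2
    push_cast
    field_simp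
  · intro y hy
    obtain ⟨x, hx, rfl⟩ := hF y hy
    refine ⟨div_ne_zero (h1 x hx _) (h1 x hx _), (h9 x hx _ _).trans hpow, ?_⟩
    intro w hwS hwW
    by_contra hne
    apply hwW
    rw [Finset.mem_biUnion]
    have hor : J 0 ∈ pt x w ∨ J k ∈ pt x w := by
      by_contra hno
      push Not at hno
      exact hne (h5 x hx w hwS _ _ hno.2 hno.1)
    have hne' : (pt x w).Nonempty := by
      rcases hor with h | h
      · exact ⟨_, h⟩
      · exact ⟨_, h⟩
    exact ⟨pt x w, Finset.mem_univ _, hW' _ hor x hx (wc2_mem_RP_of hwS (h3 x hx _ hne'))⟩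

/-- WC2 : abstract decoding -/
theorem decode (d s n q : ℕ) (η : ℝ) (hη : 0 < η) : ∃ C : ℝ, 0 < C ∧
    ∀ (E : Type u) [Field E] [NumberField E], Module.finrank ℚ E ≤ d →
      ∀ (S' : Finset (HeightOneSpectrum (𝓞 E))), S'.card ≤ s →
      ∀ (J : Fin (n + 1) → Fin q), Function.Injective J →
      ∀ (Pt : Type u) (G : Finset Pt) (pt : Pt → HeightOneSpectrum (𝓞 E) → Finset (Fin q))
        (val : Pt → Fin q → E) (z : Finset (Fin q) → Pt → E) (T : ℝ) (N₀ : ℕ), 1 ≤ T →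
      (∀ x ∈ G, ∀ j, val x j ≠ 0) → (∀ x ∈ G, ∀ I, z I x ≠ 0) →
      (∀ x ∈ G, ∀ I : Finset (Fin q), I.Nonempty → {w | w ∉ S' ∧ pt x w = I}.Finite) →
      (∀ x ∈ G, ∀ w ∉ S', (pt x w).card ≤ n) →
      (∀ x ∈ G, ∀ w ∉ S', ∀ i j, i ∉ pt x w → j ∉ pt x w → fa w (val x i / val x j) = 1) →
      (∀ x ∈ G, ∀ w ∉ S', ∀ i j, i ∈ pt x w → j ∉ pt x w → fa w (val x i / val x j) < 1) →
      (∀ x ∈ G, ∀ w ∉ S', ∀ I : Finset (Fin q), I.Nonempty → I.card ≤ n →
        (∀ i : Fin (n + 1), i.val + I.card ≤ n + 1 → J i ∉ I) → pt x w = I →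
          fa w (z I x) < 1) →
      (∀ x ∈ G, ∀ y ∈ G, ∀ I : Finset (Fin q), I.Nonempty → I.card ≤ n →
        (∀ i : Fin (n + 1), i.val + I.card ≤ n + 1 → J i ∉ I) →
        (∀ i : Fin (n + 1), i.val + I.card ≤ n + 1 →
          val x (J i) / val x (J 0) = val y (J i) / val y (J 0)) → z I x = z I y) →
      (∀ x ∈ G, ∀ i j, mulHeight₁ (val x i / val x j) ≤ T) →
      (∀ x ∈ G, ∀ I, mulHeight₁ (z I x) ≤ T) →
      (∀ x ∈ G, ∀ I : Finset (Fin q), I.Nonempty → NN (RP (pt x) S' I) ≤ T) →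
      (∀ G' ⊆ G, (∀ x ∈ G', ∀ y ∈ G', ∀ i : Fin (n + 1),
        val x (J i) / val x (J 0) = val y (J i) / val y (J 0)) → G'.card ≤ N₀) →
      (∀ x ∈ G, ∀ y ∈ G, ∀ I, Charged J I → RP (pt x) S' I = RP (pt y) S' I) →
      (G.card : ℝ) ≤ C * N₀ * T ^ η := by
  classical
  obtain ⟨C, hC, hstep⟩ := decode_step.{u} d s n q (η / (n + 1)) (by positivity)
  refine ⟨C ^ (n + 1), by positivity, ?_⟩
  intro E _ _ hd S' hs J hJ Pt G pt val z T N₀ hT h1 h2 h3 h4 h5 h6 h7 h8 h9 h10 h11 h13 h12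
  have hT0 : 0 < T := by linarith
  obtain ⟨f, hf⟩ : ∃ f : Pt → Fin (n + 1) → E,
      f = fun x i => val x (J i) / val x (J 0) := ⟨_, rfl⟩
  have hfa : ∀ x i, f x i = val x (J i) / val x (J 0) := fun x i => by rw [hf]
  -- representatives
  obtain ⟨G₀, hG₀, hinj, himg⟩ : ∃ G₀ ⊆ G, Set.InjOn f G₀ ∧ G₀.image f = G.image f := by
    have h0 : (G : Set Pt).SurjOn f (f '' (G : Set Pt)) := fun y hy => hy
    obtain ⟨u, hu, hui, huj⟩ := h0.exists_subset_injOn_image_eq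
    have hfin : u.Finite := (G.finite_toSet).subset hu
    refine ⟨hfin.toFinset, fun x hx => ?_, ?_, ?_⟩
    · exact hu (by simpa using hx)
    · rwa [hfin.coe_toFinset]
    · ext y
      rw [Finset.mem_image, Finset.mem_image]
      constructor
      · rintro ⟨x, hx, rfl⟩
        exact ⟨x, hu (by simpa using hx), rfl⟩
      · rintro ⟨x, hx, rfl⟩
        have h5 : f x ∈ f '' u := by
          rw [huj]
          exact ⟨x, hx, rfl⟩
        obtain ⟨x', hx', h6⟩ := h5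
        exact ⟨x', by simpa using hx', h6⟩
  have key := card_le_pow_tree (n + 1) f (C * T ^ (η / (n + 1))) (by positivity) G₀ hinj ?_
  · have e1 : (C * T ^ (η / (n + 1))) ^ (n + 1) = C ^ (n + 1) * T ^ η := by
      rw [mul_pow, ← Real.rpow_natCast (T ^ (η / (n + 1))) (n + 1), ← Real.rpow_mul hT0.le]
      congr 2
      push_cast
      field_simp
    rw [e1] at key
    have hc1 : G₀.card = (G.image f).card := by
      rw [← himg, Finset.card_image_of_injOn hinj]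
    have hc2 : G.card ≤ (G.image f).card * N₀ := by
      rw [Finset.card_eq_sum_card_image f G, ← smul_eq_mul]
      refine Finset.sum_le_card_nsmul _ _ _ fun y _ => ?_
      refine h13 _ (Finset.filter_subset _ _) fun a ha b hb i => ?_
      rw [← hfa, ← hfa, (Finset.mem_filter.1 ha).2, (Finset.mem_filter.1 hb).2]
    rw [← hc1] at hc2
    have hc3 : (G.card : ℝ) ≤ G₀.card * N₀ := by exact_mod_cast hc2
    refine hc3.trans ?_
    have hN : (0 : ℝ) ≤ N₀ := Nat.cast_nonneg _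
    calc (G₀.card : ℝ) * N₀ ≤ (C ^ (n + 1) * T ^ η) * N₀ := mul_le_mul_of_nonneg_right key hN
      _ = C ^ (n + 1) * N₀ * T ^ η := by ring
  · intro k G' hG' hag
    have hsub : ∀ x ∈ G', x ∈ G := fun x hx => hG₀ (hG' hx)
    refine hstep E hd S' hs J Pt G' pt val z T hT (fun x hx => h1 x (hsub x hx))
      (fun x hx => h2 x (hsub x hx)) (fun x hx => h3 x (hsub x hx))
      (fun x hx => h4 x (hsub x hx)) (fun x hx => h5 x (hsub x hx))
      (fun x hx => h6 x (hsub x hx)) (fun x hx => h7 x (hsub x hx))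
      (fun x hx y hy => h8 x (hsub x hx) y (hsub y hy)) (fun x hx => h9 x (hsub x hx))
      (fun x hx => h10 x (hsub x hx)) (fun x hx => h11 x (hsub x hx))
      (fun x hx y hy => h12 x (hsub x hx) y (hsub y hy)) k ?_ _ ?_
    · intro x hx y hy i hi
      rw [← hfa, ← hfa]
      exact hag x hx y hy i hi
    · intro y hy
      rw [Finset.mem_image] at hy
      obtain ⟨x, hx, rfl⟩ := hy
      exact ⟨x, hx, (hfa x k).symm⟩

end Pool.Agent.Lib.MP_44a246_ntNW
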