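import Pool.Agent.Lib.MP_44a246_ntNF.Defs
import Pool.Agent.Lib.MP_44a246_ntNF.Tools
import Pool.Agent.Lib.MP_44a246_ntNU.Defs
import Pool.Agent.Lib.MP_44a246_ntNW.Defs

set_option autoImplicit false

open NumberField IsDedekindDomain Height MvPolynomial
open Pool.Agent.Lib.MP_44a246_ntNF
open Pool.Agent.Lib.MP_44a246_ntNU

namespace Pool.Agent.Lib.MP_44a246_ntNW

universe u

/-- The coefficients of the linear forms `G j`. -/
noncomputable def co {K : Type*} [Field K] {n q : ℕ} (G : Fin q → MvPolynomial (Fin (n + 1)) K) :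
    Fin q → Fin (n + 1) → K := fun j i => (G j).coeff (Finsupp.single i 1)

theorem exists_single {n : ℕ} {μ : Fin (n + 1) →₀ ℕ} (h : μ.degree = 1) :
    ∃ i, μ = Finsupp.single i 1 := by
  have h1 : μ ∈ Set.range (fun a : Fin (n + 1) => Finsupp.single a 1) := by
    rw [Finsupp.range_single_one]
    exact h
  obtain ⟨i, hi⟩ := h1
  exact ⟨i, hi.symm⟩

theorem coeff_lin {K : Type*} [Field K] {n : ℕ} {P : MvPolynomial (Fin (n + 1)) K}
    (hP : P.IsHomogeneous 1) {μ : Fin (n + 1) →₀ ℕ} (h : P.coeff μ ≠ 0) :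
    ∃ i, μ = Finsupp.single i 1 := by
  refine exists_single ?_
  have h1 := hP h
  rw [Finsupp.degree_eq_weight_one]
  exact h1

theorem eq_sum_co {K : Type*} [Field K] {n q : ℕ} {G : Fin q → MvPolynomial (Fin (n + 1)) K}
    (hG : ∀ j, (G j).IsHomogeneous 1) (j : Fin q) : G j = ∑ i, C (co G j i) * X i := by
  classical
  refine MvPolynomial.ext _ _ fun μ => ?_
  rw [coeff_sum]
  simp only [coeff_C_mul, coeff_X']
  by_cases hμ : ∃ i, μ = Finsupp.single i 1
  · obtain ⟨i, rfl⟩ := hμ
    rw [Finset.sum_eq_single i]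
    · rw [if_pos rfl, mul_one]
      rfl
    · intro b _ hb
      rw [if_neg, mul_zero]
      intro h
      exact hb ((Finsupp.single_left_injective one_ne_zero) h)
    · intro h
      exact absurd (Finset.mem_univ _) h
  · rw [Finset.sum_eq_zero fun i _ => ?_]
    · by_contra h
      exact hμ (coeff_lin (hG j) h)
    · rw [if_neg fun h => hμ ⟨i, h.symm⟩, mul_zero]

theorem aeval_eq_lin {K E : Type*} [Field K] [Field E] [Algebra K E] {n q : ℕ}
    {G : Fin q → MvPolynomial (Fin (n + 1)) K} (hG : ∀ j, (G j).IsHomogeneous 1)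
    (x : Fin (n + 1) → E) (j : Fin q) : aeval x (G j) = lin (up E (co G) j) x := by
  conv_lhs => rw [eq_sum_co hG j]
  rw [map_sum]
  unfold lin up
  refine Finset.sum_congr rfl fun i _ => ?_
  rw [map_mul, algHom_C, aeval_X]

theorem trCount_lin {K E : Type*} [Field K] [NumberField K] [Field E] [NumberField E] [Algebra K E]
    {n q : ℕ} {G : Fin q → MvPolynomial (Fin (n + 1)) K} (hG : ∀ j, (G j).IsHomogeneous 1)
    (S : Set (HeightOneSpectrum (𝓞 K))) (x : Fin (n + 1) → E) :
    trCount S G (fun _ => 1) x = truncCount (above K E S) (up E (co G)) x := by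
  unfold trCount truncCount
  refine finsum_congr fun w => ?_
  refine finsum_congr_Prop (propext (and_congr_right fun _ => exists_congr fun j => ?_))
    fun _ => rfl
  rw [aeval_eq_lin hG]
  have hb : ∀ y : Fin (n + 1) → E, BddAbove (Set.range fun i => FinitePlace.mk w (y i)) :=
    fun y => (Set.finite_range _).bddAbove
  have h0 : ∀ z : E, 0 ≤ FinitePlace.mk w z := fun z => apply_nonneg _ _
  constructor
  · rintro ⟨i, μ, h⟩
    rw [pow_one] at h
    by_cases hμ : (G j).coeff μ = 0
    · rw [hμ, map_zero, map_zero, zero_mul] at h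
      exact absurd h (not_lt.2 (h0 _))
    · obtain ⟨l, rfl⟩ := coeff_lin (hG j) hμ
      refine h.trans_le ?_
      exact mul_le_mul (le_ciSup (hb (up E (co G) j)) l) (le_ciSup (hb x) i) (h0 _)
        ((h0 _).trans (le_ciSup (hb (up E (co G) j)) l))
  · intro h
    obtain ⟨l, hl⟩ := exists_eq_ciSup_of_finite (f := fun i => FinitePlace.mk w (up E (co G) j i))
    obtain ⟨i, hi⟩ := exists_eq_ciSup_of_finite (f := fun i => FinitePlace.mk w (x i))
    refine ⟨i, Finsupp.single l 1, ?_⟩
    rw [← hl, ← hi] at h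
    rw [pow_one]
    exact h

theorem linInd_co {K : Type u} [Field K] {n q : ℕ} {G : Fin q → MvPolynomial (Fin (n + 1)) K}
    (hG : ∀ j, (G j).IsHomogeneous 1)
    (h : ∀ J : Fin (n + 1) → Fin q, Function.Injective J →
      ∀ x : Fin (n + 1) → AlgebraicClosure K, (∀ i, aeval x (G (J i)) = 0) → x = 0)
    (J : Fin (n + 1) → Fin q) (hJ : Function.Injective J) :
    LinearIndependent K (fun i => co G (J i)) := by
  classical
  let A : Matrix (Fin (n + 1)) (Fin (n + 1)) K := fun i l => co G (J i) l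
  have hdet : A.det ≠ 0 := by
    intro h0
    obtain ⟨x, hx0, hx⟩ := Matrix.exists_mulVec_eq_zero_iff.2 h0
    refine hx0 ?_
    have h1 := h J hJ (fun i => algebraMap K (AlgebraicClosure K) (x i)) fun i => ?_
    · funext i
      have h2 := congrFun h1 i
      rw [Pi.zero_apply, map_eq_zero] at h2
      exact h2
    · rw [aeval_eq_lin hG]
      have h2 : ∑ l, co G (J i) l * x l = 0 := congrFun hx i
      unfold lin up
      rw [← map_zero (algebraMap K (AlgebraicClosure K)), ← h2, map_sum]
      exact Finset.sum_congr rfl fun l _ => (map_mul _ _ _).symm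
  exact Matrix.linearIndependent_rows_of_det_ne_zero hdet

end Pool.Agent.Lib.MP_44a246_ntNW
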