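import Pool.Agent.Lib.MP_44a246_ntNW.MainX
import Pool.Agent.Lib.MP_44a246_ntNW.WL1
import Pool.Agent.Lib.MP_44a246_ntNU.Main

set_option autoImplicit false

open NumberField IsDedekindDomain Height MvPolynomial
open Pool.Agent.Lib.MP_44a246_ntNF
open Pool.Agent.Lib.MP_44a246_ntNU

namespace Pool.Agent.Lib.MP_44a246_ntNW

universe u

/-- The pairs (set of `n + 2` indices, subset with at least `2` and at most `n` elements). -/
def SubIx (n q : ℕ) : Type :=
  {p : Finset (Fin q) × Finset (Fin q) // p.1.card = n + 2 ∧ p.2 ⊆ p.1 ∧ 2 ≤ p.2.card ∧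
    p.2.card ≤ n}

noncomputable instance (n q : ℕ) : Fintype (SubIx n q) := by
  classical
  unfold SubIx
  exact Subtype.fintype _

theorem exists_emb {q k : ℕ} (A : Finset (Fin q)) (hA : A.card = k) :
    ∃ J : Fin k → Fin q, Function.Injective J ∧ ∀ i, J i ∈ A :=
  ⟨A.orderEmbOfFin hA, (A.orderEmbOfFin hA).injective, fun i => Finset.orderEmbOfFin_mem A hA i⟩

theorem sum_emb {q k : ℕ} {M : Type*} [AddCommMonoid M] (A : Finset (Fin q)) (hA : A.card = k)
    (J : Fin k → Fin q) (hJ : Function.Injective J) (hJA : ∀ i, J i ∈ A) (F : Fin q → M) :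
    ∑ i, F (J i) = ∑ j ∈ A, F j := by
  classical
  have h1 : Finset.univ.image J = A := by
    apply Finset.eq_of_subset_of_card_le
    · intro j hj
      rw [Finset.mem_image] at hj
      obtain ⟨i, _, rfl⟩ := hj
      exact hJA i
    · rw [Finset.card_image_of_injective _ hJ, Finset.card_univ, Fintype.card_fin, hA]
  rw [← h1, Finset.sum_image (fun a _ b _ h => hJ h)]

theorem not_vanishing {K E : Type*} [Field K] [NumberField K] [Field E] [NumberField E]
    [Algebra K E] {n q : ℕ} {L : Fin q → Fin (n + 1) → K} {cc : Finset (Fin q) → Fin q → K}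
    (hcc : IsRel L cc)
    (hLE : ∀ J : Fin (n + 1) → Fin q, Function.Injective J →
      LinearIndependent E (fun i => up E L (J i)))
    (x : Fin (n + 1) → E)
    (h : ∀ p : SubIx n q, ∑ j ∈ p.1.2, algebraMap K E (cc p.1.1 j) * lin (up E L j) x ≠ 0) :
    ¬ VanishingSubsum (up E L) x := by
  classical
  rintro ⟨c, C, A, hC, hc, hrel, hAC, hA2, hAn, hsum⟩
  obtain ⟨hcc1, hcc2⟩ := hcc C hC
  have hCne : C.Nonempty := by
    rw [← Finset.card_pos]
    omega
  obtain ⟨j0, hj0⟩ := hCne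
  have hrel2 : ∑ j, algebraMap K E (cc C j) • up E L j = 0 := by
    funext i
    have h1 := congrFun hcc2 i
    rw [Finset.sum_apply] at h1 ⊢
    simp only [Pi.smul_apply, smul_eq_mul, Pi.zero_apply, up] at h1 ⊢
    rw [← map_zero (algebraMap K E), ← h1, map_sum]
    exact Finset.sum_congr rfl fun j _ => (map_mul _ _ _).symm
  have hcc0 : algebraMap K E (cc C j0) ≠ 0 := by
    rw [Ne, map_eq_zero]
    exact (hcc1 j0).mpr hj0
  set lam : E := c j0 / algebraMap K E (cc C j0) with hlam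
  have hlam0 : lam ≠ 0 := div_ne_zero ((hc j0).mpr hj0) hcc0
  set δ : Fin q → E := fun j => c j - lam * algebraMap K E (cc C j) with hδ
  have hδsum : ∑ j, δ j • up E L j = 0 := by
    have e : ∀ j, δ j • up E L j = c j • up E L j - lam • (algebraMap K E (cc C j) • up E L j) := by
      intro j
      simp only [hδ, sub_smul, smul_smul]
    rw [Finset.sum_congr rfl (fun j _ => e j), Finset.sum_sub_distrib, ← Finset.smul_sum, hrel,
      hrel2, smul_zero, sub_zero]
  have hδ0 : ∀ j ∉ C.erase j0, δ j = 0 := by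
    intro j hj
    rw [Finset.mem_erase, not_and_or, not_not] at hj
    rcases hj with hj | hj
    · subst hj
      simp only [hδ, hlam]
      rw [div_mul_cancel₀ _ hcc0, sub_self]
    · have h1 : c j = 0 := by
        by_contra hne
        exact hj ((hc j).mp hne)
      have h2 : cc C j = 0 := by
        by_contra hne
        exact hj ((hcc1 j).mp hne)
      simp only [hδ, h1, h2, map_zero, mul_zero, sub_zero]
  have hcard : (C.erase j0).card = n + 1 := by
    rw [Finset.card_erase_of_mem hj0, hC]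
    rfl
  obtain ⟨J, hJ, hJA⟩ := exists_emb (C.erase j0) hcard
  have hli := hLE J hJ
  rw [Fintype.linearIndependent_iff] at hli
  have hs2 : ∑ i, δ (J i) • up E L (J i) = 0 := by
    rw [sum_emb (C.erase j0) hcard J hJ hJA (fun j => δ j • up E L j), ← hδsum]
    apply Finset.sum_subset (Finset.subset_univ _)
    intro j _ hj
    rw [hδ0 j hj, zero_smul]
  have hz := hli (fun i => δ (J i)) hs2
  have hall : ∀ j, δ j = 0 := by
    intro j
    by_cases hj : j ∈ C.erase j0
    · have h1 : ∑ i, (if J i = j then (1 : ℕ) else 0) = 1 := by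
        rw [sum_emb (C.erase j0) hcard J hJ hJA (fun k => if k = j then (1 : ℕ) else 0),
          Finset.sum_ite_eq' (C.erase j0) j, if_pos hj]
      by_contra hne
      have h2 : ∀ i, J i ≠ j := by
        intro i hi
        exact hne (hi ▸ hz i)
      rw [Finset.sum_eq_zero (fun i _ => if_neg (h2 i))] at h1
      exact absurd h1 (by norm_num)
    · exact hδ0 j hj
  apply h ⟨(C, A), hC, hAC, hA2, hAn⟩
  have h3 : lam * ∑ j ∈ A, algebraMap K E (cc C j) * lin (up E L j) x = 0 := by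
    rw [← hsum, Finset.mul_sum]
    apply Finset.sum_congr rfl
    intro j _
    have := hall j
    simp only [hδ, sub_eq_zero] at this
    rw [this]
    ring
  exact (mul_eq_zero.mp h3).resolve_left hlam0

/-- WL : hyperplanes in projective space -/
theorem lin_case {K : Type u} [Field K] [NumberField K] {n q : ℕ} (hn : 1 ≤ n) (hq : n + 2 ≤ q)
    (G : Fin q → MvPolynomial (Fin (n + 1)) K) (hG : ∀ j, (G j).IsHomogeneous 1)
    (h : ∀ J : Fin (n + 1) → Fin q, Function.Injective J →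
      ∀ x : Fin (n + 1) → AlgebraicClosure K, (∀ i, aeval x (G (J i)) = 0) → x = 0) :
    ∃ (N : ℕ) (Φ : Fin N → MvPolynomial (Fin (n + 1)) K),
      (∀ i, Φ i ≠ 0 ∧ (Φ i).IsHomogeneous 1 ∧
        ∃ (b : Fin q → K) (C A : Finset (Fin q)), C.card = n + 2 ∧ (∀ j, b j ≠ 0 ↔ j ∈ C) ∧
          ∑ j, b j • G j = 0 ∧ A ⊆ C ∧ 2 ≤ A.card ∧ A.card ≤ n ∧ Φ i = ∑ j ∈ A, b j • G j) ∧
      ∀ S : Set (HeightOneSpectrum (𝓞 K)), S.Finite → ∀ (r : ℕ) (a : ℝ), FieldSum K r a →
      ∀ α β ρ : ℝ, 0 ≤ α → 0 ≤ β → 0 ≤ ρ →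
      (∀ s : ℕ, 1 ≤ s → s ≤ n → 1 - (((q + s - n - 2).choose s : ℕ) : ℝ) /
        ((q.choose s : ℕ) : ℝ) ≤ α + β * s) → ∀ c η : ℝ, 0 < η →
      ∃ C : ℝ, ∀ B : ℝ, 1 ≤ B →
        ∀ X : Finset (Σ E : IntermediateField K (AlgebraicClosure K),
          Projectivization E (Fin (n + 1) → E)),
        (∀ s ∈ X, ∃ _ : NumberField s.1, Module.finrank K s.1 ≤ r ∧
          (∀ j, aeval s.2.rep (G j) ≠ 0) ∧
          (∀ i, aeval s.2.rep (Φ i) ≠ 0) ∧ s.2.mulHeight ≤ B ∧
          trCount S G (fun _ => 1) s.2.rep + Real.log (discNorm K s.1) ≤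
            ρ * s.2.logHeight + c) →
        (X.card : ℝ) ≤ C * B ^ (α * ρ + β * q +
          ρ * max 0 (a - α) + η) ∧
        (∀ (E : IntermediateField K (AlgebraicClosure K)) (_ : NumberField E),
          (∀ s ∈ X, s.1 = E) →
            (X.card : ℝ) ≤ C * B ^ (α * ρ + β * q + η) * discNorm K E ^ (-α)) ∧
        (r = 1 → 2 ≤ n → ρ ≤ q - 1 → (X.card : ℝ) ≤ C * B ^ ((n : ℝ) + η)) := by
  classical
  set L : Fin q → Fin (n + 1) → K := co G with hLdef
  have hL : ∀ J : Fin (n + 1) → Fin q, Function.Injective J →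
      LinearIndependent K (fun i => L (J i)) := fun J hJ => linInd_co hG h J hJ
  obtain ⟨cc, hcc, S₁, _, hS₁⟩ := exists_good (by omega) L hL ∅
  have hLE : ∀ (E : Type u) [Field E] [NumberField E] [Algebra K E],
      ∀ J : Fin (n + 1) → Fin q, Function.Injective J →
      LinearIndependent E (fun i => up E L (J i)) := by
    intro E _ _ _
    obtain ⟨S', hS', _⟩ := above_finset E S₁
    exact (good_up (by omega) hL hcc hS₁ S' hS').2.2
  set Φ : SubIx n q → MvPolynomial (Fin (n + 1)) K :=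
    fun p => ∑ j ∈ p.1.2, cc p.1.1 j • G j with hΦ
  have hΦev : ∀ (E : Type u) [Field E] [NumberField E] [Algebra K E] (x : Fin (n + 1) → E)
      (p : SubIx n q), aeval x (Φ p) =
        ∑ j ∈ p.1.2, algebraMap K E (cc p.1.1 j) * lin (up E L j) x := by
    intro E _ _ _ x p
    simp only [hΦ]
    rw [map_sum]
    refine Finset.sum_congr rfl fun j _ => ?_
    rw [map_smul, Algebra.smul_def, aeval_eq_lin hG]
  set u := Fintype.equivFin (SubIx n q) with hu
  refine ⟨Fintype.card (SubIx n q), fun i => Φ (u.symm i), ?_, ?_⟩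
  · intro i
    suffices key : ∀ p : SubIx n q, Φ p ≠ 0 ∧ (Φ p).IsHomogeneous 1 ∧
        ∃ (b : Fin q → K) (C A : Finset (Fin q)), C.card = n + 2 ∧ (∀ j, b j ≠ 0 ↔ j ∈ C) ∧
          ∑ j, b j • G j = 0 ∧ A ⊆ C ∧ 2 ≤ A.card ∧ A.card ≤ n ∧ Φ p = ∑ j ∈ A, b j • G j from
      key (u.symm i)
    rintro ⟨⟨C, A⟩, hC, hAC, hA2, hAn⟩
    simp only at hC hAC hA2 hAn
    obtain ⟨hcc1, hcc2⟩ := hcc C hC
    refine ⟨?_, ?_, cc C, C, A, hC, hcc1, ?_, hAC, hA2, hAn, rfl⟩
    · intro h0
      have h0' : ∑ j ∈ A, cc C j • G j = 0 := h0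
      have hcoef : ∑ j ∈ A, cc C j • L j = 0 := by
        funext i
        have h1 := congrArg (fun P => MvPolynomial.coeff (Finsupp.single i 1) P) h0'
        simp only [coeff_sum, coeff_smul, coeff_zero, smul_eq_mul] at h1
        rw [Finset.sum_apply]
        simpa [hLdef, co] using h1
      obtain ⟨A', hAA', hA'C, hA'⟩ := Finset.exists_subsuperset_card_eq hAC
        (show A.card ≤ n + 1 by omega) (show n + 1 ≤ C.card by omega)
      obtain ⟨J, hJ, hJA⟩ := exists_emb A' hA'
      have hli := hL J hJ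
      rw [Fintype.linearIndependent_iff] at hli
      have hs2 : ∑ i, (if J i ∈ A then cc C (J i) else 0) • L (J i) = 0 := by
        rw [sum_emb A' hA' J hJ hJA (fun j => (if j ∈ A then cc C j else 0) • L j), ← hcoef]
        rw [← Finset.sum_subset hAA']
        · exact Finset.sum_congr rfl fun j hj => by rw [if_pos hj]
        · intro j _ hj
          rw [if_neg hj, zero_smul]
      have hz := hli (fun i => if J i ∈ A then cc C (J i) else 0) hs2
      have hAne : A.Nonempty := by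
        rw [← Finset.card_pos]
        omega
      obtain ⟨j1, hj1⟩ := hAne
      have h1 : ∑ i, (if J i = j1 then (1 : ℕ) else 0) = 1 := by
        rw [sum_emb A' hA' J hJ hJA (fun k => if k = j1 then (1 : ℕ) else 0),
          Finset.sum_ite_eq' A' j1, if_pos (hAA' hj1)]
      have h2 : ∀ i, J i ≠ j1 := by
        intro i hi
        have h3 := hz i
        simp only [hi, if_pos hj1] at h3
        exact (hcc1 j1).mpr (hAC hj1) h3
      rw [Finset.sum_eq_zero (fun i _ => if_neg (h2 i))] at h1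
      exact absurd h1 (by norm_num)
    · exact IsHomogeneous.sum _ _ _ fun j _ => by
        rw [smul_eq_C_mul]
        exact (hG j).C_mul _
    · have h1 : ∑ j, cc C j • G j = ∑ i, MvPolynomial.C (∑ j, cc C j * L j i) * X i := by
        conv_lhs => rw [Finset.sum_congr rfl fun j _ => by rw [eq_sum_co hG j]]
        simp only [Finset.smul_sum, smul_eq_C_mul, map_sum, map_mul, Finset.sum_mul]
        rw [Finset.sum_comm]
        simp only [mul_assoc, hLdef]
      rw [h1]
      apply Finset.sum_eq_zero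
      intro i _
      have h2 := congrFun hcc2 i
      rw [Finset.sum_apply] at h2
      simp only [Pi.smul_apply, smul_eq_mul, Pi.zero_apply] at h2
      rw [h2, map_zero, zero_mul]
  intro S hS r a hFS α β ρ hα hβ hρ hs c η hη
  have hs' : ∀ s : ℕ, 1 ≤ s → s ≤ n → 1 - (((q - n - 2 + s).choose s : ℕ) : ℝ) /
      ((q.choose s : ℕ) : ℝ) ≤ α + β * s := by
    intro s h1 h2
    have e : q - n - 2 + s = q + s - n - 2 := by omega
    rw [e]
    exact hs s h1 h2
  have hkey : ∀ (E : Type u) [Field E] [NumberField E] [Algebra K E] (x : Fin (n + 1) → E),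
      (∀ p, aeval x (Φ p) ≠ 0) → ¬ VanishingSubsum (up E L) x := by
    intro E _ _ _ x hx
    refine not_vanishing hcc (hLE E) x fun p => ?_
    rw [← hΦev]
    exact hx p
  have hcnt : CountHyp (K := K) (m := n) (fun (E : Type u) _ _ _
        (P : Projectivization E (Fin (n + 1) → E)) =>
      (∀ j, aeval P.rep (G j) ≠ 0) ∧ ∀ p, aeval P.rep (Φ p) ≠ 0)
      (fun (E : Type u) _ _ _ (P : Projectivization E (Fin (n + 1) → E)) =>
        trCount S G (fun _ => 1) P.rep) α (β * q) r := by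
    intro η' hη'
    obtain ⟨C, hC, hcount⟩ := count_u' hq hS L hL α β hα hβ hs' r η' hη'
    refine ⟨C, hC, ?_⟩
    intro E _ _ _ hE B M hB hM X hX
    refine hcount E hE B M hB hM X ?_
    intro P hP
    obtain ⟨⟨h1, h2⟩, h3, h4⟩ := hX P hP
    refine ⟨fun j => ?_, hkey E P.rep h2, h3, ?_⟩
    · have := h1 j
      rwa [aeval_eq_lin hG] at this
    · rw [← trCount_lin hG]
      exact h4
  have hσ : 0 ≤ β * q := by positivity
  have hN0 : ∀ (E : Type u) [Field E] [NumberField E] [Algebra K E]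
      (P : Projectivization E (Fin (n + 1) → E)), 0 ≤ trCount S G (fun _ => 1) P.rep :=
    fun E _ _ _ P => trCount_nonneg S G (fun _ => 1) P.rep
  obtain ⟨C1, hC1, h1⟩ := total_gen hN0 α _ ρ hα hσ hρ r hcnt a hFS c η hη
  obtain ⟨C2, hC2, h2⟩ := field_gen hN0 α _ ρ hα hσ hρ r hcnt c η hη
  obtain ⟨C3, hC3, h3⟩ : ∃ C : ℝ, 0 < C ∧ (2 ≤ n → r = 1 → ρ ≤ q - 1 → ∀ B : ℝ, 1 ≤ B →
      ∀ X : Finset (Σ F : IntermediateField K (AlgebraicClosure K),
        Projectivization F (Fin (n + 1) → F)), (∀ s ∈ X, Viol S L 1 ρ c B s) →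
        (X.card : ℝ) ≤ C * B ^ (min (n : ℝ) (α * ρ + β * q) + η)) := by
    by_cases hc : 2 ≤ n ∧ r = 1 ∧ ρ ≤ q - 1
    · obtain ⟨C, hC, h⟩ := count_one hc.1 hq hS L hL α β ρ hα hβ hρ hc.2.2 hs' c η hη
      exact ⟨C, hC, fun _ _ _ => h⟩
    · exact ⟨1, one_pos, fun a b d => (hc ⟨a, b, d⟩).elim⟩
  refine ⟨C1 + C2 + C3, ?_⟩
  intro B hB X hX
  have hB0 : 0 < B := by linarith
  have hX' : ∀ s ∈ X, ViolG (fun (E : Type u) _ _ _ (P : Projectivization E (Fin (n + 1) → E)) =>
      (∀ j, aeval P.rep (G j) ≠ 0) ∧ ∀ p, aeval P.rep (Φ p) ≠ 0)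
      (fun (E : Type u) _ _ _ (P : Projectivization E (Fin (n + 1) → E)) =>
        trCount S G (fun _ => 1) P.rep) r ρ c B s := by
    intro s hs1
    obtain ⟨a1, a2, a4, a5, a6, a7⟩ := hX s hs1
    refine ⟨a1, a2, ⟨a4, ?_⟩, a6, a7⟩
    intro p
    have := a5 (u p)
    simp only [Equiv.symm_apply_apply] at this
    exact this
  refine ⟨?_, ?_, ?_⟩
  · refine (h1 B hB X hX').trans ?_
    exact mul_le_mul_of_nonneg_right (by linarith) (Real.rpow_pos_of_pos hB0 _).le
  · intro E hE hXE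
    have k2 := (h2 B hB X hX' E).1
    rw [Finset.filter_true_of_mem hXE, dN_eq K E] at k2
    refine k2.trans ?_
    have hD := (one_le_discNorm K E).1
    have hD0 : 0 ≤ discNorm K E ^ (-α) := Real.rpow_nonneg (by linarith) _
    apply mul_le_mul_of_nonneg_right _ hD0
    exact mul_le_mul_of_nonneg_right (by linarith) (Real.rpow_pos_of_pos hB0 _).le
  · intro hr1 hn2 hρq
    have k3 := h3 hn2 hr1 hρq B hB X (by
      intro s hs1
      obtain ⟨a1, a2, ⟨a4, a5⟩, a6, a7⟩ := hX' s hs1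
      refine ⟨a1, hr1 ▸ a2, fun j => ?_, hkey s.1 s.2.rep a5, a6, ?_⟩
      · have := a4 j
        rwa [aeval_eq_lin hG] at this
      · have : truncCount (above K s.1 S) (up s.1 L) s.2.rep = trCount S G (fun _ => 1) s.2.rep :=
          (trCount_lin hG S s.2.rep).symm
        rw [this]
        exact a7)
    refine k3.trans ?_
    calc C3 * B ^ (min (n : ℝ) (α * ρ + β * q) + η) ≤ C3 * B ^ ((n : ℝ) + η) := by
          apply mul_le_mul_of_nonneg_left _ hC3.le
          apply Real.rpow_le_rpow_of_exponent_le hB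
          have := min_le_left (n : ℝ) (α * ρ + β * q)
          linarith
      _ ≤ (C1 + C2 + C3) * B ^ ((n : ℝ) + η) :=
          mul_le_mul_of_nonneg_right (by linarith) (Real.rpow_pos_of_pos hB0 _).le

end Pool.Agent.Lib.MP_44a246_ntNW
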